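import Pool.Agent.J6H39.ML.EF

/-! Project ML: the asymptotic formula for the mean square of the Mertens function. -/

set_option autoImplicit false

open Complex Filter Topology Set MeasureTheory

namespace Pool.Agent.J6H39.ML

open Pool.Agent.W120.WM (EE Sm Mx)
open Pool.Agent.H295R2 (JW JW_integrable JW_nonneg)

/-- the smoothed almost periodic sum -/
noncomputable def Pall (β v : ℝ) : ℂ := ∑' γ : ℝ, tm β v γ

theorem EE_pt (h v γ : ℝ) : EE h v (pt γ) = (Real.exp (h ^ 2 / 8 + v / 2) : ℂ) *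
    ((Real.exp (-(h ^ 2 / 2 * γ ^ 2)) : ℂ) * cexp (I * γ * ((v + h ^ 2 / 2 : ℝ) : ℂ))) := by
  unfold EE pt
  rw [ofReal_exp, ofReal_exp, ← Complex.exp_add, ← Complex.exp_add]
  congr 1
  push_cast
  ring_nf
  rw [I_sq]
  ring

theorem tm_not {β v γ : ℝ} (h : γ ∉ Od) : tm β v γ = 0 := by
  unfold tm
  rw [w0_not h]
  simp

/-- the explicit formula -/
theorem expl (hR : RHS) (hS : Summable fun γ => ‖w0 γ‖ ^ 2) {h v : ℝ} (hh : 0 < h) (hh1 : h ≤ 1) :
    ((Sm h v : ℝ) : ℂ) + 2 -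
        ((2 * Real.pi : ℝ) : ℂ)⁻¹ * ∫ t : ℝ, Pool.Agent.W120.WM.GG h v (⟨-1 / 2, t⟩ : ℂ) =
      (Real.exp (h ^ 2 / 8 + v / 2) : ℂ) * Pall (h ^ 2 / 2) (v + h ^ 2 / 2) := by
  classical
  obtain ⟨Z, hZ, hZex, hlim⟩ := EFX.ef Pool.Agent.W150.WM.inv Pool.Agent.W565.WM.t_res
    Pool.Agent.W915.WM.hor Pool.Agent.W191.WM.lb (fun ρ hρ => (hR ρ hρ).2)
  refine tendsto_nhds_unique (hlim h v hh hh1) ?_
  set β := h ^ 2 / 2 with hβ
  have hβp : 0 < β := by positivity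
  set u := v + h ^ 2 / 2 with hu
  set f : ℕ → ℝ → ℂ := fun k γ => if γ ∈ (Z k).image im then tm β u γ else 0 with hf
  have hpt : ∀ k, ∀ ρ ∈ Z k, ρ = pt ρ.im := by
    intro k ρ hρ
    have h1 := (hR ρ (hZ k ρ hρ)).1
    apply Complex.ext
    · rw [pt_re, h1]
    · rw [pt_im]
  have hinj : ∀ k, Set.InjOn im (Z k : Set ℂ) := by
    intro k a ha b hb hab
    rw [hpt k a ha, hpt k b hb, hab]
  have h1 : ∀ k, ∑ ρ ∈ Z k, EE h v ρ / (ρ * deriv riemannZeta ρ) =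
      (Real.exp (h ^ 2 / 8 + v / 2) : ℂ) * ∑' γ, f k γ := by
    intro k
    rw [tsum_eq_sum (s := (Z k).image im)]
    · rw [Finset.sum_image (hinj k), Finset.mul_sum]
      refine Finset.sum_congr rfl fun ρ hρ => ?_
      have h2 := hpt k ρ hρ
      have h3 : ρ.im ∈ Od := mem_Od.2 (h2 ▸ hZ k ρ hρ)
      rw [hf]
      simp only
      rw [if_pos (Finset.mem_image_of_mem _ hρ)]
      unfold tm
      rw [w0_mem h3]
      unfold wc
      rw [← h2]
      have h4 := EE_pt h v ρ.im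
      rw [← h2] at h4
      rw [h4, div_eq_mul_inv]
      ring
    · intro γ hγ
      rw [hf]
      simp only
      rw [if_neg hγ]
  simp_rw [h1]
  refine Tendsto.const_mul _ ?_
  unfold Pall
  refine tendsto_tsum_of_dominated_convergence (bound := fun γ => ‖w0 γ‖ * Real.exp (-(β * γ ^ 2)))
    (summable_w0g hS hβp) (fun γ => ?_) (Eventually.of_forall fun k γ => ?_)
  · by_cases hγ : γ ∈ Od
    · refine tendsto_const_nhds.congr' ?_
      filter_upwards [hZex (pt γ) (mem_Od.1 hγ)] with k hk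
      rw [hf]
      simp only
      rw [if_pos]
      refine Finset.mem_image.2 ⟨pt γ, hk, pt_im γ⟩
    · rw [tm_not hγ]
      refine tendsto_const_nhds.congr fun k => ?_
      rw [hf]
      simp only
      rw [tm_not hγ]
      simp
  · rw [hf]
    simp only
    split_ifs
    · rw [norm_tm]
    · rw [norm_zero]
      positivity

/-- the ordinates up to `U` -/
noncomputable def LU (U : ℝ) : Finset ℝ := (fin_Od U).toFinset

theorem mem_LU {U γ : ℝ} : γ ∈ LU U ↔ γ ∈ Od ∧ |γ| ≤ U := by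
  unfold LU
  rw [Set.Finite.mem_toFinset]
  rfl

theorem Pall_split (hS : Summable fun γ => ‖w0 γ‖ ^ 2) {β : ℝ} (hβ : 0 < β) (U v : ℝ) :
    Pall β v = (∑ γ ∈ LU U, tm β v γ) + Pt U β v := by
  classical
  have hs : Summable (tm β v) := by
    refine Summable.of_norm ?_
    simp_rw [norm_tm]
    exact summable_w0g hS hβ
  have h1 : ∀ γ, tm β v γ = ({γ : ℝ | |γ| ≤ U}.indicator (tm β v) γ) +
      ({γ : ℝ | ¬ |γ| ≤ U}.indicator (tm β v) γ) := by
    intro γ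
    by_cases h : |γ| ≤ U
    · rw [indicator_of_mem (by simpa using h), indicator_of_notMem (by simpa using h), add_zero]
    · rw [indicator_of_notMem (by simpa using h), indicator_of_mem (by simpa using h), zero_add]
  have h2 : ∑' γ, {γ : ℝ | |γ| ≤ U}.indicator (tm β v) γ = ∑ γ ∈ LU U, tm β v γ := by
    rw [tsum_eq_sum (s := LU U)]
    · refine Finset.sum_congr rfl fun γ hγ => ?_
      rw [indicator_of_mem]
      exact (mem_LU.1 hγ).2
    · intro γ hγ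
      rw [indicator_apply]
      split_ifs with h
      · refine tm_not fun h3 => hγ (mem_LU.2 ⟨h3, h⟩)
      · rfl
  unfold Pall Pt
  rw [← h2, ← (hs.indicator _).tsum_add (hs.indicator _)]
  exact tsum_congr h1

/-- mean value of an exponential -/
theorem mean_exp (a : ℝ) : Tendsto (fun V : ℝ => (V : ℂ)⁻¹ * ∫ v in (0 : ℝ)..V, cexp (I * a * v))
    atTop (𝓝 (if a = 0 then 1 else 0)) := by
  by_cases ha : a = 0
  · subst ha
    rw [if_pos rfl]
    refine tendsto_const_nhds.congr' ?_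
    filter_upwards [eventually_gt_atTop 0] with V hV
    have : (V : ℂ) ≠ 0 := by exact_mod_cast hV.ne'
    simp [this]
  · rw [if_neg ha]
    have hc : (I * a : ℂ) ≠ 0 := mul_ne_zero I_ne_zero (by exact_mod_cast ha)
    rw [tendsto_zero_iff_norm_tendsto_zero]
    have h1 : Tendsto (fun V : ℝ => (2 / |a|) / V) atTop (𝓝 0) := tendsto_const_nhds.div_atTop tendsto_id
    refine squeeze_zero' (Eventually.of_forall fun V => norm_nonneg _) ?_ h1
    filter_upwards [eventually_gt_atTop 0] with V hV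
    rw [integral_exp_mul_complex hc, norm_mul, norm_inv, norm_real, Real.norm_eq_abs, abs_of_pos hV,
      norm_div, norm_mul, norm_I, one_mul, norm_real, Real.norm_eq_abs, inv_mul_eq_div]
    gcongr
    refine (norm_sub_le _ _).trans ?_
    have e1 : ∀ x : ℝ, ‖cexp (I * a * x)‖ = 1 := by
      intro x
      rw [Complex.norm_exp]
      have : (I * a * x : ℂ).re = 0 := by simp
      rw [this, Real.exp_zero]
    rw [e1, e1]
    norm_num

/-- mean square of an almost periodic polynomial -/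
theorem mean_PP (Z : Finset ℝ) (b : ℝ → ℂ) :
    Tendsto (fun V : ℝ => V⁻¹ * ∫ v in (0 : ℝ)..V, ‖PP Z b v‖ ^ 2) atTop
      (𝓝 (∑ γ ∈ Z, ‖b γ‖ ^ 2)) := by
  classical
  have k1 : ∀ v : ℝ, ((‖PP Z b v‖ ^ 2 : ℝ) : ℂ) =
      ∑ γ ∈ Z, ∑ δ ∈ Z, (b γ * (starRingEnd ℂ) (b δ)) * cexp (I * ((γ - δ : ℝ) : ℂ) * v) := by
    intro v
    have h1 : ((‖PP Z b v‖ ^ 2 : ℝ) : ℂ) = PP Z b v * (starRingEnd ℂ) (PP Z b v) := by
      rw [Complex.mul_conj, Complex.normSq_eq_norm_sq]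
    rw [h1]
    unfold PP
    rw [map_sum, Finset.sum_mul_sum]
    refine Finset.sum_congr rfl fun γ _ => Finset.sum_congr rfl fun δ _ => ?_
    rw [map_mul, ← Complex.exp_conj, map_mul, map_mul, conj_I, conj_ofReal, conj_ofReal]
    have : cexp (I * ((γ - δ : ℝ) : ℂ) * v) = cexp (I * γ * v) * cexp (-I * δ * v) := by
      rw [← Complex.exp_add]
      congr 1
      push_cast
      ring
    rw [this]
    ring
  have h2 : Tendsto (fun V : ℝ => ((V⁻¹ * ∫ v in (0 : ℝ)..V, ‖PP Z b v‖ ^ 2 : ℝ) : ℂ)) atTop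
      (𝓝 (∑ γ ∈ Z, ∑ δ ∈ Z, (b γ * (starRingEnd ℂ) (b δ)) *
        (if γ - δ = 0 then 1 else 0))) := by
    have h3 : Tendsto (fun V : ℝ => ∑ γ ∈ Z, ∑ δ ∈ Z, (b γ * (starRingEnd ℂ) (b δ)) *
        ((V : ℂ)⁻¹ * ∫ v in (0 : ℝ)..V, cexp (I * ((γ - δ : ℝ) : ℂ) * v))) atTop
        (𝓝 (∑ γ ∈ Z, ∑ δ ∈ Z, (b γ * (starRingEnd ℂ) (b δ)) *
        (if γ - δ = 0 then 1 else 0))) :=
      tendsto_finsetSum _ fun γ _ => tendsto_finsetSum _ fun δ _ => (mean_exp (γ - δ)).const_mul _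
    refine h3.congr fun V => ?_
    have hi : ∀ γ δ : ℝ, IntervalIntegrable (fun v : ℝ => (b γ * (starRingEnd ℂ) (b δ)) *
        cexp (I * ((γ - δ : ℝ) : ℂ) * v)) volume 0 V := by
      intro γ δ
      apply Continuous.intervalIntegrable
      fun_prop
    have hi2 : ∀ γ : ℝ, IntervalIntegrable (fun v : ℝ => ∑ δ ∈ Z, (b γ * (starRingEnd ℂ) (b δ)) *
        cexp (I * ((γ - δ : ℝ) : ℂ) * v)) volume 0 V := by
      intro γ
      apply Continuous.intervalIntegrable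
      fun_prop
    rw [ofReal_mul, ← intervalIntegral.integral_ofReal]
    simp only [k1]
    rw [intervalIntegral.integral_finsetSum (fun γ _ => hi2 γ), Finset.mul_sum]
    refine Finset.sum_congr rfl fun γ _ => ?_
    rw [intervalIntegral.integral_finsetSum (fun δ _ => hi γ δ), Finset.mul_sum]
    refine Finset.sum_congr rfl fun δ _ => ?_
    rw [intervalIntegral.integral_const_mul]
    push_cast
    ring
  have h4 : ∑ γ ∈ Z, ∑ δ ∈ Z, (b γ * (starRingEnd ℂ) (b δ)) * (if γ - δ = 0 then 1 else 0) =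
      ((∑ γ ∈ Z, ‖b γ‖ ^ 2 : ℝ) : ℂ) := by
    rw [ofReal_sum]
    refine Finset.sum_congr rfl fun γ hγ => ?_
    rw [Finset.sum_eq_single γ]
    · rw [sub_self, if_pos rfl, mul_one, Complex.mul_conj, Complex.normSq_eq_norm_sq]
    · intro δ _ hδ
      rw [if_neg (sub_ne_zero.2 hδ.symm), mul_zero]
    · intro h
      exact absurd hγ h
  rw [h4] at h2
  have h5 := (Complex.continuous_re.tendsto _).comp h2
  simp only [Function.comp_def, ofReal_re] at h5
  exact h5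

/-- the normalised Mertens function -/
noncomputable def fM (v : ℝ) : ℝ := Mx (Real.exp v) * Real.exp (-(v / 2))

theorem fM_sq (v : ℝ) : fM v ^ 2 = Mx (Real.exp v) ^ 2 * Real.exp (-v) := by
  unfold fM
  rw [mul_pow, ← Real.exp_nat_mul]
  congr 2
  push_cast
  ring

theorem JW_fM (V : ℝ) : JW 0 V = ∫ v in Ioc 0 V, fM v ^ 2 := by
  unfold JW
  refine integral_congr_ae (Eventually.of_forall fun v => ?_)
  exact (fM_sq v).symm

/-- the error of the low part -/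
noncomputable def QU (U V : ℝ) : ℝ := ∑ γ ∈ LU U, ‖wc γ‖ *
  ‖cexp (((hV V ^ 2 / 8 - hV V ^ 2 / 2 * γ ^ 2 : ℝ) : ℂ) + I * γ * ((hV V ^ 2 / 2 : ℝ) : ℂ)) - 1‖

theorem QU_tendsto (U : ℝ) : Tendsto (QU U) atTop (𝓝 0) := by
  have hh : Tendsto hV atTop (𝓝 0) := by
    unfold hV
    refine Real.tendsto_exp_neg_atTop_nhds_zero.comp ?_
    exact tendsto_atTop_add_const_right _ _ tendsto_id
  have h1 : ∀ γ : ℝ, Tendsto (fun V : ℝ => ‖wc γ‖ *
      ‖cexp (((hV V ^ 2 / 8 - hV V ^ 2 / 2 * γ ^ 2 : ℝ) : ℂ) + I * γ * ((hV V ^ 2 / 2 : ℝ) : ℂ)) - 1‖)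
      atTop (𝓝 0) := by
    intro γ
    have hc : Continuous (fun h : ℝ => ‖wc γ‖ *
      ‖cexp (((h ^ 2 / 8 - h ^ 2 / 2 * γ ^ 2 : ℝ) : ℂ) + I * γ * ((h ^ 2 / 2 : ℝ) : ℂ)) - 1‖) := by
      fun_prop
    have h2 := (hc.tendsto 0).comp hh
    simpa [Function.comp_def] using h2
  unfold QU
  have h3 := tendsto_finsetSum (LU U) (fun γ _ => h1 γ)
  simpa using h3

/-- pointwise comparison with the low part -/
theorem pw (hR : RHS) (hS : Summable fun γ => ‖w0 γ‖ ^ 2) : ∃ C0 : ℝ, 0 ≤ C0 ∧ ∀ U V : ℝ, 0 ≤ V →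
    ∀ v : ℝ, 0 ≤ v → v ≤ V →
    ‖((fM v : ℝ) : ℂ) - PP (LU U) wc v‖ ≤ C0 * Real.exp (-(v / 2)) +
      2 * ‖Pt U (hV V ^ 2 / 2) (v + hV V ^ 2 / 2)‖ + QU U V := by
  obtain ⟨C, hC, hUNS⟩ := Pool.Agent.W143.WM.main
  obtain ⟨B, hB, hLB⟩ := Pool.Agent.W191.WM.lb
  refine ⟨C + 2 + B, by positivity, fun U V hV0 v hv0 hvV => ?_⟩
  set h := hV V with hh
  have hpos : 0 < h := hV_pos V
  have hle1 : h ≤ 1 := hV_le hV0
  have a1 : |Mx (Real.exp v) - Sm h v| ≤ C :=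
    hUNS v h hv0 hpos (Real.exp_le_exp.2 (by linarith))
  have a2 := (hLB h v hpos hle1).2
  have a3 : ‖((2 * Real.pi : ℝ) : ℂ)⁻¹ * ∫ t : ℝ, Pool.Agent.W120.WM.GG h v (⟨-1 / 2, t⟩ : ℂ)‖ ≤ B := by
    rw [norm_mul, norm_inv, Complex.norm_real, Real.norm_eq_abs,
      abs_of_pos (by positivity : (0 : ℝ) < 2 * Real.pi)]
    have a4 : (2 * Real.pi)⁻¹ ≤ 1 := by
      rw [inv_le_one₀ (by positivity)]
      linarith [Real.pi_gt_three]
    have a5 : Real.exp (-v / 2) ≤ 1 := Real.exp_le_one_iff.2 (by linarith)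
    calc (2 * Real.pi)⁻¹ * ‖∫ t : ℝ, Pool.Agent.W120.WM.GG h v (⟨-1 / 2, t⟩ : ℂ)‖
        ≤ 1 * (B * Real.exp (-v / 2)) := by gcongr
      _ ≤ 1 * (B * 1) := by gcongr
      _ = B := by ring
  have hex := expl hR hS (v := v) hpos hle1
  set L : ℂ := ((Sm h v : ℝ) : ℂ) + 2 -
        ((2 * Real.pi : ℝ) : ℂ)⁻¹ * ∫ t : ℝ, Pool.Agent.W120.WM.GG h v (⟨-1 / 2, t⟩ : ℂ) with hL
  have b1 : ‖((Mx (Real.exp v) : ℝ) : ℂ) - L‖ ≤ C + 2 + B := by
    have e1 : ((Mx (Real.exp v) : ℝ) : ℂ) - L = (((Mx (Real.exp v) - Sm h v : ℝ) : ℂ) - 2) +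
        ((2 * Real.pi : ℝ) : ℂ)⁻¹ * ∫ t : ℝ, Pool.Agent.W120.WM.GG h v (⟨-1 / 2, t⟩ : ℂ) := by
      rw [hL]; push_cast; ring
    rw [e1]
    refine (norm_add_le _ _).trans (add_le_add ((norm_sub_le _ _).trans (add_le_add ?_ ?_)) a3)
    · rw [norm_real, Real.norm_eq_abs]; exact a1
    · norm_num
  have hβ : 0 < h ^ 2 / 2 := by positivity
  have hsp := Pall_split hS hβ U (v + h ^ 2 / 2)
  -- decomposition
  have key : ((fM v : ℝ) : ℂ) - PP (LU U) wc v =
      (Real.exp (-(v / 2)) : ℂ) * (((Mx (Real.exp v) : ℝ) : ℂ) - L) +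
      (Real.exp (h ^ 2 / 8) : ℂ) * Pt U (h ^ 2 / 2) (v + h ^ 2 / 2) +
      ((Real.exp (h ^ 2 / 8) : ℂ) * (∑ γ ∈ LU U, tm (h ^ 2 / 2) (v + h ^ 2 / 2) γ) -
        PP (LU U) wc v) := by
    have e1 : (Real.exp (-(v / 2)) : ℂ) * L = (Real.exp (h ^ 2 / 8) : ℂ) *
        ((∑ γ ∈ LU U, tm (h ^ 2 / 2) (v + h ^ 2 / 2) γ) + Pt U (h ^ 2 / 2) (v + h ^ 2 / 2)) := by
      rw [hex, ← hsp, ← mul_assoc, ← ofReal_mul, ← Real.exp_add]
      ring_nf
    have e2 : ((fM v : ℝ) : ℂ) = (Real.exp (-(v / 2)) : ℂ) * ((Mx (Real.exp v) : ℝ) : ℂ) := by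
      unfold fM
      push_cast
      ring
    rw [mul_sub, e1, e2]
    ring
  rw [key]
  refine (norm_add_le _ _).trans (add_le_add ((norm_add_le _ _).trans (add_le_add ?_ ?_)) ?_)
  · rw [norm_mul, norm_real, Real.norm_eq_abs, abs_of_pos (Real.exp_pos _), mul_comm]
    gcongr
  · rw [norm_mul, norm_real, Real.norm_eq_abs, abs_of_pos (Real.exp_pos _)]
    gcongr
    have h1 : h ^ 2 / 8 ≤ 1 / 8 := by
      have : h ^ 2 ≤ 1 := by nlinarith
      linarith
    have h2 : Real.exp (h ^ 2 / 8) ≤ Real.exp (1 / 2) := Real.exp_le_exp.2 (by linarith)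
    have h3 : Real.exp (1 / 2 : ℝ) ^ 2 = Real.exp 1 := by
      rw [← Real.exp_nat_mul]; norm_num
    have h4 := Real.exp_one_lt_d9
    nlinarith [Real.exp_pos (1 / 2 : ℝ)]
  · unfold PP QU
    rw [Finset.mul_sum, ← Finset.sum_sub_distrib]
    refine (norm_sum_le _ _).trans (Finset.sum_le_sum fun γ hγ => ?_)
    have e0 : ‖cexp (I * γ * v)‖ = 1 := by
      rw [Complex.norm_exp]
      have : (I * γ * v : ℂ).re = 0 := by simp
      rw [this, Real.exp_zero]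
    have e1 : (Real.exp (h ^ 2 / 8) : ℂ) * tm (h ^ 2 / 2) (v + h ^ 2 / 2) γ -
        wc γ * cexp (I * γ * v) = wc γ * cexp (I * γ * v) *
        (cexp (((h ^ 2 / 8 - h ^ 2 / 2 * γ ^ 2 : ℝ) : ℂ) + I * γ * ((h ^ 2 / 2 : ℝ) : ℂ)) - 1) := by
      unfold tm
      rw [w0_mem (mem_LU.1 hγ).1, ofReal_exp, ofReal_exp]
      have e2 : cexp ((h ^ 2 / 8 : ℝ) : ℂ) * (wc γ * cexp ((-(h ^ 2 / 2 * γ ^ 2) : ℝ) : ℂ) *
          cexp (I * γ * ((v + h ^ 2 / 2 : ℝ) : ℂ))) = wc γ * cexp (I * γ * v) *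
          cexp (((h ^ 2 / 8 - h ^ 2 / 2 * γ ^ 2 : ℝ) : ℂ) + I * γ * ((h ^ 2 / 2 : ℝ) : ℂ)) := by
        have e3 : cexp ((h ^ 2 / 8 : ℝ) : ℂ) * (cexp ((-(h ^ 2 / 2 * γ ^ 2) : ℝ) : ℂ) *
          cexp (I * γ * ((v + h ^ 2 / 2 : ℝ) : ℂ))) = cexp (I * γ * v) *
          cexp (((h ^ 2 / 8 - h ^ 2 / 2 * γ ^ 2 : ℝ) : ℂ) + I * γ * ((h ^ 2 / 2 : ℝ) : ℂ)) := by
          rw [← Complex.exp_add, ← Complex.exp_add, ← Complex.exp_add]
          congr 1
          push_cast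
          ring
        linear_combination wc γ * e3
      rw [e2]
      ring
    rw [e1, norm_mul, norm_mul, e0, mul_one]

theorem integral_exp_neg_Ioc_aux (V : ℝ) :
    ∫ v in (0 : ℝ)..V, Real.exp (-v) = 1 - Real.exp (-V) := by
  have h1 : ∀ v ∈ uIcc 0 V, HasDerivAt (fun v : ℝ => -Real.exp (-v)) (Real.exp (-v)) v := by
    intro v _
    have := ((hasDerivAt_neg v).exp).neg
    exact this.congr_deriv (by ring)
  rw [intervalIntegral.integral_eq_sub_of_hasDerivAt h1 (by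
    apply Continuous.intervalIntegrable; fun_prop)]
  simp
  ring

/-- **the mean square of the remainder** -/
theorem rem_bound (hR : RHS) (hH : T_HAD) (hS : Summable fun γ => ‖w0 γ‖ ^ 2) :
    ∃ C κ0 : ℝ, 0 ≤ C ∧ 4 ≤ κ0 ∧ ∀ U δ : ℝ, 0 ≤ U → 0 < δ →
      (∀ γ ∈ Od, |γ| ≤ U - δ ∨ U + δ ≤ |γ|) → ∃ A : ℝ, 0 ≤ A ∧ ∀ V : ℝ, 1 ≤ V →
      IntegrableOn (fun v => ‖((fM v : ℝ) : ℂ) - PP (LU U) wc v‖ ^ 2) (Ioc 0 V) ∧
      ∫ v in Ioc 0 V, ‖((fM v : ℝ) : ℂ) - PP (LU U) wc v‖ ^ 2 ≤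
        C + 3 * V * QU U V ^ 2 + C * V * (eps U + A * Real.exp (-(κ0 * V ^ 2 * δ ^ 2))) := by
  obtain ⟨C0, hC0, hpw⟩ := pw hR hS
  obtain ⟨C1, κ0, hC1, hκ0, hPt⟩ := Pt_bound hR hH hS
  refine ⟨3 * C0 ^ 2 + 12 * C1, κ0, by positivity, hκ0, fun U δ hU hδ hgap => ?_⟩
  obtain ⟨A, hA, hPt⟩ := hPt U δ hU hδ hgap
  refine ⟨A, hA, fun V hV1 => ?_⟩
  have hV0 : 0 ≤ V := by linarith
  have hh := hV_pos V
  have hh1 := hV_le hV0
  have hPtV := hPt V hV1 (by nlinarith)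
  set β := hV V ^ 2 / 2 with hβ
  have hβ1 : β ≤ 1 := by rw [hβ]; nlinarith
  have hβ0 : 0 ≤ β := by positivity
  set E := eps U + A * Real.exp (-(κ0 * V ^ 2 * δ ^ 2)) with hE
  have hE0 : 0 ≤ E := by
    have : 0 ≤ eps U := tsum_nonneg fun γ => mul_nonneg (by positivity) (Xw_pos _ _).le
    positivity
  set Q := QU U V with hQ
  have hQ0 : 0 ≤ Q := Finset.sum_nonneg fun γ _ => by positivity
  -- measurability
  have hPc := PP_cont (LU U) wc
  have hfm : AEStronglyMeasurable fM (volume.restrict (Ioc 0 V)) := by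
    have h1 : Measurable (fun w : ℝ => Mx (Real.exp (0 - w))) := Pool.Agent.W143.WM.meas 0
    have h2 : Measurable (fun v : ℝ => Mx (Real.exp v)) := by
      have := h1.comp measurable_neg
      simpa [Function.comp_def] using this
    unfold fM
    exact (h2.mul (by fun_prop)).aestronglyMeasurable
  have hmeas : AEStronglyMeasurable (fun v => ‖((fM v : ℝ) : ℂ) - PP (LU U) wc v‖ ^ 2)
      (volume.restrict (Ioc 0 V)) := by
    have h1 : AEStronglyMeasurable (fun v => ((fM v : ℝ) : ℂ)) (volume.restrict (Ioc 0 V)) :=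
      Complex.continuous_ofReal.comp_aestronglyMeasurable hfm
    exact ((h1.sub hPc.aestronglyMeasurable).norm.pow 2)
  -- the lintegral bound
  have hlin : ∫⁻ v in Ioc 0 V, ENNReal.ofReal (‖((fM v : ℝ) : ℂ) - PP (LU U) wc v‖ ^ 2) ≤
      ENNReal.ofReal ((3 * C0 ^ 2 + 12 * C1) + 3 * V * Q ^ 2 + (3 * C0 ^ 2 + 12 * C1) * V * E) := by
    have h1 : ∀ v ∈ Ioc 0 V, ENNReal.ofReal (‖((fM v : ℝ) : ℂ) - PP (LU U) wc v‖ ^ 2) ≤
        ENNReal.ofReal (3 * C0 ^ 2 * Real.exp (-v) + 3 * Q ^ 2) +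
          12 * ENNReal.ofReal (‖Pt U β (v + β)‖ ^ 2) := by
      intro v hv
      have h2 := hpw U V hV0 v hv.1.le hv.2
      have h3 : ‖((fM v : ℝ) : ℂ) - PP (LU U) wc v‖ ^ 2 ≤
          (3 * C0 ^ 2 * Real.exp (-v) + 3 * Q ^ 2) + 12 * ‖Pt U β (v + β)‖ ^ 2 := by
        have e1 : Real.exp (-(v / 2)) ^ 2 = Real.exp (-v) := by
          rw [← Real.exp_nat_mul]
          congr 1
          push_cast
          ring
        calc ‖((fM v : ℝ) : ℂ) - PP (LU U) wc v‖ ^ 2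
            ≤ (C0 * Real.exp (-(v / 2)) + 2 * ‖Pt U β (v + β)‖ + Q) ^ 2 := by gcongr
          _ ≤ 3 * (C0 * Real.exp (-(v / 2))) ^ 2 + 3 * (2 * ‖Pt U β (v + β)‖) ^ 2 + 3 * Q ^ 2 := by
              nlinarith [sq_nonneg (C0 * Real.exp (-(v / 2)) - 2 * ‖Pt U β (v + β)‖),
                sq_nonneg (C0 * Real.exp (-(v / 2)) - Q), sq_nonneg (2 * ‖Pt U β (v + β)‖ - Q)]
          _ = _ := by rw [mul_pow, mul_pow, e1]; ring
      refine (ENNReal.ofReal_le_ofReal h3).trans (le_of_eq ?_)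
      rw [ENNReal.ofReal_add (by positivity) (by positivity),
        ENNReal.ofReal_mul (by norm_num : (0 : ℝ) ≤ 12)]
      norm_num
    have h2 : ∫⁻ v in Ioc 0 V, ENNReal.ofReal (‖Pt U β (v + β)‖ ^ 2) ≤
        ∫⁻ v in Ioc 0 (V + 1), ENNReal.ofReal (‖Pt U β v‖ ^ 2) := by
      rw [← lintegral_indicator measurableSet_Ioc, ← lintegral_indicator measurableSet_Ioc]
      rw [← lintegral_add_right_eq_self (fun v => (Ioc 0 (V + 1)).indicator
        (fun v => ENNReal.ofReal (‖Pt U β v‖ ^ 2)) v) β]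
      refine lintegral_mono fun v => ?_
      rw [indicator_apply]
      split_ifs with h
      · rw [indicator_of_mem]
        exact ⟨by linarith [h.1], by linarith [h.2]⟩
      · exact zero_le
    calc ∫⁻ v in Ioc 0 V, ENNReal.ofReal (‖((fM v : ℝ) : ℂ) - PP (LU U) wc v‖ ^ 2)
        ≤ ∫⁻ v in Ioc 0 V, (ENNReal.ofReal (3 * C0 ^ 2 * Real.exp (-v) + 3 * Q ^ 2) +
          12 * ENNReal.ofReal (‖Pt U β (v + β)‖ ^ 2)) := setLIntegral_mono' measurableSet_Ioc h1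
      _ = (∫⁻ v in Ioc 0 V, ENNReal.ofReal (3 * C0 ^ 2 * Real.exp (-v) + 3 * Q ^ 2)) +
          ∫⁻ v in Ioc 0 V, 12 * ENNReal.ofReal (‖Pt U β (v + β)‖ ^ 2) := by
          rw [lintegral_add_left]
          exact ENNReal.measurable_ofReal.comp (by fun_prop)
      _ = (∫⁻ v in Ioc 0 V, ENNReal.ofReal (3 * C0 ^ 2 * Real.exp (-v) + 3 * Q ^ 2)) +
          12 * ∫⁻ v in Ioc 0 V, ENNReal.ofReal (‖Pt U β (v + β)‖ ^ 2) := by
          rw [lintegral_const_mul' _ _ (by norm_num)]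
      _ ≤ ENNReal.ofReal (3 * C0 ^ 2 + 3 * V * Q ^ 2) + 12 * ENNReal.ofReal (C1 * V * E) := by
          refine add_le_add ?_ (mul_le_mul_right (h2.trans hPtV) _)
          rw [← ofReal_integral_eq_lintegral_ofReal]
          · refine ENNReal.ofReal_le_ofReal ?_
            rw [← intervalIntegral.integral_of_le hV0]
            rw [intervalIntegral.integral_add (by
              apply Continuous.intervalIntegrable; fun_prop) (by
              apply Continuous.intervalIntegrable; fun_prop)]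
            rw [intervalIntegral.integral_const_mul, intervalIntegral.integral_const]
            have e1 : ∫ v in (0 : ℝ)..V, Real.exp (-v) = 1 - Real.exp (-V) := by
              have := integral_exp_neg_Ioc_aux V
              exact this
            rw [e1]
            have e2 := Real.exp_pos (-V)
            rw [sub_zero, smul_eq_mul]
            nlinarith [sq_nonneg C0]
          · have : Continuous (fun v : ℝ => 3 * C0 ^ 2 * Real.exp (-v) + 3 * Q ^ 2) := by fun_prop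
            exact (this.integrableOn_Icc (a := 0) (b := V)).mono_set Ioc_subset_Icc_self
          · exact Eventually.of_forall fun v => by positivity
      _ ≤ _ := by
          have e3 : (12 : ENNReal) = ENNReal.ofReal 12 := by norm_num
          rw [e3, ← ENNReal.ofReal_mul (by norm_num), ← ENNReal.ofReal_add (by positivity)
            (by positivity)]
          refine ENNReal.ofReal_le_ofReal ?_
          have e4 : 0 ≤ 3 * C0 ^ 2 * V * E := by positivity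
          have e5 : 0 ≤ 12 * C1 := by positivity
          nlinarith
  have hfin : ∫⁻ v in Ioc 0 V, ENNReal.ofReal (‖((fM v : ℝ) : ℂ) - PP (LU U) wc v‖ ^ 2) < ⊤ :=
    hlin.trans_lt ENNReal.ofReal_lt_top
  have hint : IntegrableOn (fun v => ‖((fM v : ℝ) : ℂ) - PP (LU U) wc v‖ ^ 2) (Ioc 0 V) := by
    refine ⟨hmeas, ?_⟩
    rw [hasFiniteIntegral_iff_ofReal (Eventually.of_forall fun v => by positivity)]
    exact hfin
  refine ⟨hint, ?_⟩
  have h5 := ofReal_integral_eq_lintegral_ofReal hint (Eventually.of_forall fun v => by positivity)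
  rw [← h5] at hlin
  exact (ENNReal.ofReal_le_ofReal_iff (by positivity)).1 hlin


theorem exists_gap (n : ℕ) : ∃ U δ : ℝ, (n : ℝ) ≤ U ∧ 0 < δ ∧
    ∀ γ ∈ Od, |γ| ≤ U - δ ∨ U + δ ≤ |γ| := by
  obtain ⟨U, hU, hU'⟩ : ∃ U ∈ Ioo (n : ℝ) (n + 1), U ∉ Od := by
    by_contra hcon
    push Not at hcon
    have h1 : Ioo (n : ℝ) (n + 1) ⊆ {γ : ℝ | γ ∈ Od ∧ |γ| ≤ (n : ℝ) + 1} := by
      intro x hx
      refine ⟨hcon x hx, ?_⟩
      rw [abs_of_pos (lt_of_le_of_lt (Nat.cast_nonneg n) hx.1)]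
      exact hx.2.le
    exact (Ioo_infinite (by linarith : (n : ℝ) < n + 1)) ((fin_Od _).subset h1)
  have hopen : IsOpen {γ : ℝ | riemannZeta (pt γ) ≠ 0} := by
    have hc : Continuous (fun γ : ℝ => riemannZeta (pt γ)) := by
      refine continuous_iff_continuousAt.2 fun γ => ?_
      have h1 : ContinuousAt riemannZeta (pt γ) :=
        (differentiableAt_riemannZeta (pt_ne γ)).continuousAt
      exact ContinuousAt.comp h1 (hasDerivAt_pt γ).continuousAt
    exact isOpen_ne_fun hc continuous_const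
  obtain ⟨δ, hδ, hball⟩ := Metric.isOpen_iff.1 hopen U hU'
  refine ⟨U, δ, hU.1.le, hδ, fun γ hγ => ?_⟩
  have habs : |γ| ∈ Od := by
    rcases abs_choice γ with h | h
    · rwa [h]
    · rw [h]; exact Od_neg hγ
  by_contra hcon
  push Not at hcon
  have h2 : |γ| ∈ Metric.ball U δ := by
    rw [Metric.mem_ball, Real.dist_eq, abs_lt]
    constructor <;> linarith [hcon.1, hcon.2]
  exact hball h2 habs

/-- **Asymptotic formula**: `∫_0^V M(e^v)² e^{-v} dv ∼ V ∑ 1/|ρ ζ'(ρ)|²` -/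
theorem mean_lim (hR : RHS) (hH : T_HAD) (hS : Summable fun γ => ‖w0 γ‖ ^ 2) :
    Tendsto (fun V : ℝ => JW 0 V / V) atTop (𝓝 (∑' γ, ‖w0 γ‖ ^ 2)) := by
  obtain ⟨C, κ0, hC, hκ0, hrem⟩ := rem_bound hR hH hS
  set S := ∑' γ, ‖w0 γ‖ ^ 2 with hSdef
  have hS0 : 0 ≤ S := tsum_nonneg fun γ => by positivity
  have heps := eps_tendsto hS
  have hSU : ∀ U, ∑ γ ∈ LU U, ‖wc γ‖ ^ 2 ≤ S := by
    intro U
    have h1 : ∑ γ ∈ LU U, ‖wc γ‖ ^ 2 = ∑ γ ∈ LU U, ‖w0 γ‖ ^ 2 :=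
      Finset.sum_congr rfl fun γ hγ => by rw [w0_mem (mem_LU.1 hγ).1]
    rw [h1]
    exact hS.sum_le_tsum _ fun γ _ => by positivity
  have hSUlow : ∀ ε : ℝ, 0 < ε → ∃ U0 : ℝ, ∀ U, U0 ≤ U → S - ε ≤ ∑ γ ∈ LU U, ‖wc γ‖ ^ 2 := by
    intro ε hε
    obtain ⟨s, hs⟩ := (hS.hasSum.eventually (lt_mem_nhds (by linarith : S - ε < S))).exists
    obtain ⟨U0, hU0⟩ : ∃ U0 : ℝ, ∀ γ ∈ s, |γ| ≤ U0 := by
      refine ⟨∑ γ ∈ s, |γ|, fun γ hγ => ?_⟩
      exact Finset.single_le_sum (f := fun γ : ℝ => |γ|) (fun _ _ => abs_nonneg _) hγ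
    refine ⟨U0, fun U hU => hs.le.trans ?_⟩
    have h1 : ∑ γ ∈ LU U, ‖wc γ‖ ^ 2 = ∑ γ ∈ LU U, ‖w0 γ‖ ^ 2 :=
      Finset.sum_congr rfl fun γ hγ => by rw [w0_mem (mem_LU.1 hγ).1]
    rw [h1]
    refine le_trans (le_of_eq ?_) (Finset.sum_le_sum_of_subset_of_nonneg
      (s := s.filter (fun γ => γ ∈ LU U)) (fun γ hγ => (Finset.mem_filter.1 hγ).2)
      (fun γ _ _ => by positivity))
    rw [Finset.sum_filter]
    refine Finset.sum_congr rfl fun γ hγ => ?_
    split_ifs with h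
    · rfl
    · have : γ ∉ Od := fun h2 => h (mem_LU.2 ⟨h2, (hU0 γ hγ).trans hU⟩)
      beta_reduce
      rw [w0_not this]
      simp
  rw [Metric.tendsto_atTop]
  intro ε hε
  -- choose θ
  obtain ⟨θ, hθ, hθ1, hθS⟩ : ∃ θ : ℝ, 0 < θ ∧ θ ≤ 1 ∧ θ * (S + 1) ≤ ε / 16 := by
    refine ⟨min 1 (ε / (16 * (S + 1))), lt_min one_pos (by positivity), min_le_left _ _, ?_⟩
    calc min 1 (ε / (16 * (S + 1))) * (S + 1) ≤ ε / (16 * (S + 1)) * (S + 1) := by
          gcongr; exact min_le_right _ _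
      _ = ε / 16 := by field_simp
  set R := 1 + 1 / θ with hRdef
  have hRpos : 0 < R := by positivity
  obtain ⟨U1, hU1⟩ := hSUlow (ε / 16) (by positivity)
  have h1 : ∀ᶠ U in atTop, R * (C * eps U) < ε / 16 := by
    have h2 := (heps.const_mul C).const_mul R
    rw [mul_zero, mul_zero] at h2
    exact h2.eventually (gt_mem_nhds (by positivity))
  obtain ⟨U2, hU2⟩ := eventually_atTop.1 h1
  obtain ⟨n, hn⟩ := exists_nat_ge (max U1 (max U2 0))
  obtain ⟨U, δ, hnU, hδ, hgap⟩ := exists_gap n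
  have hUU1 : U1 ≤ U := ((le_max_left _ _).trans hn).trans hnU
  have hUU2 : U2 ≤ U := (((le_max_left _ _).trans (le_max_right _ _)).trans hn).trans hnU
  have hU0 : 0 ≤ U := (Nat.cast_nonneg n).trans hnU
  obtain ⟨A, hA, hremU⟩ := hrem U δ hU0 hδ hgap
  have hSlow := hU1 U hUU1
  have hSup := hSU U
  set SU := ∑ γ ∈ LU U, ‖wc γ‖ ^ 2 with hSUdef
  have hSU0 : 0 ≤ SU := Finset.sum_nonneg fun γ _ => by positivity
  -- the limit of the remainder
  have hlimrem : Tendsto (fun V : ℝ => R * (C / V + 3 * QU U V ^ 2 + C * (eps U +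
      A * Real.exp (-(κ0 * V ^ 2 * δ ^ 2))))) atTop (𝓝 (R * (0 + 3 * 0 ^ 2 + C * (eps U + A * 0)))) := by
    refine Tendsto.const_mul _ (Tendsto.add (Tendsto.add ?_ ?_) ?_)
    · exact tendsto_const_nhds.div_atTop tendsto_id
    · exact ((QU_tendsto U).pow 2).const_mul 3
    · refine Tendsto.const_mul _ (tendsto_const_nhds.add (Tendsto.const_mul _ ?_))
      refine Real.tendsto_exp_neg_atTop_nhds_zero.comp ?_
      have h3 : Tendsto (fun V : ℝ => V ^ 2) atTop atTop := tendsto_pow_atTop (by norm_num)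
      have h4 := (h3.const_mul_atTop (by linarith : (0 : ℝ) < κ0)).atTop_mul_const
        (by positivity : 0 < δ ^ 2)
      exact h4
  have hlimval : R * (0 + 3 * 0 ^ 2 + C * (eps U + A * 0)) < ε / 16 := by
    have := hU2 U hUU2
    have e : R * (0 + 3 * 0 ^ 2 + C * (eps U + A * 0)) = R * (C * eps U) := by ring
    rw [e]
    exact this
  have hev1 := hlimrem.eventually (gt_mem_nhds hlimval)
  have hmean := mean_PP (LU U) wc
  have hev2 := hmean.eventually (Metric.ball_mem_nhds _ (by positivity : 0 < ε / 16))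
  rw [← eventually_atTop]
  filter_upwards [hev1, hev2, eventually_ge_atTop 1] with V hV1 hV2 hV3
  have hVp : 0 < V := by linarith
  rw [Real.dist_eq, ← hSUdef] at hV2
  obtain ⟨ri, rb⟩ := hremU V hV3
  set G := ∫ v in Ioc 0 V, ‖((fM v : ℝ) : ℂ) - PP (LU U) wc v‖ ^ 2 with hG
  set Pm := V⁻¹ * ∫ v in (0 : ℝ)..V, ‖PP (LU U) wc v‖ ^ 2 with hPm
  have hG0 : 0 ≤ G := integral_nonneg fun v => by positivity
  have hGV : R * (G / V) < ε / 16 := by
    refine lt_of_le_of_lt ?_ hV1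
    refine mul_le_mul_of_nonneg_left ?_ hRpos.le
    rw [div_le_iff₀ hVp]
    refine rb.trans (le_of_eq ?_)
    field_simp
  have fi : IntegrableOn (fun v => fM v ^ 2) (Ioc 0 V) := by
    have := JW_integrable (A := 0) (L := V) le_rfl
    refine this.congr (Eventually.of_forall fun v => ?_)
    exact (fM_sq v).symm
  have pi : IntegrableOn (fun v => ‖PP (LU U) wc v‖ ^ 2) (Ioc 0 V) :=
    ((((PP_cont _ _).norm).pow 2).integrableOn_Icc (a := 0) (b := V)).mono_set Ioc_subset_Icc_self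
  have hR1 : 1 ≤ R := by
    have : 0 < 1 / θ := by positivity
    linarith
  have par : ∀ x y z : ℝ, 0 ≤ x → 0 ≤ y → 0 ≤ z → x ≤ y + z → x ^ 2 ≤ (1 + θ) * y ^ 2 + R * z ^ 2 := by
    intro x y z hx hy hz h
    have e1 : x ^ 2 ≤ (y + z) ^ 2 := by gcongr
    have e2 : 2 * (y * z) ≤ θ * y ^ 2 + 1 / θ * z ^ 2 := by
      have e3 : θ * y ^ 2 + 1 / θ * z ^ 2 - 2 * (y * z) = (θ * y - z) ^ 2 / θ := by
        field_simp
        ring
      have e4 : 0 ≤ (θ * y - z) ^ 2 / θ := by positivity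
      linarith
    rw [hRdef]
    nlinarith
  have habs : ∀ v, ‖((fM v : ℝ) : ℂ)‖ ^ 2 = fM v ^ 2 := by
    intro v
    rw [norm_real, Real.norm_eq_abs, sq_abs]
  -- upper bound
  have hup : JW 0 V ≤ (1 + θ) * (V * Pm) + R * G := by
    have hPmV : V * Pm = ∫ v in Ioc 0 V, ‖PP (LU U) wc v‖ ^ 2 := by
      rw [hPm, intervalIntegral.integral_of_le hVp.le, ← mul_assoc, mul_inv_cancel₀ hVp.ne', one_mul]
    rw [JW_fM, hPmV, hG, ← integral_const_mul, ← integral_const_mul,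
      ← integral_add (pi.const_mul _) (ri.const_mul _)]
    refine setIntegral_mono_on fi ((pi.const_mul _).add (ri.const_mul _)) measurableSet_Ioc
      fun v _ => ?_
    rw [← habs]
    refine par _ _ _ (norm_nonneg _) (norm_nonneg _) (norm_nonneg _) ?_
    have := norm_add_le (PP (LU U) wc v) (((fM v : ℝ) : ℂ) - PP (LU U) wc v)
    rwa [add_sub_cancel] at this
  have hlo : V * Pm ≤ (1 + θ) * JW 0 V + R * G := by
    have hPmV : V * Pm = ∫ v in Ioc 0 V, ‖PP (LU U) wc v‖ ^ 2 := by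
      rw [hPm, intervalIntegral.integral_of_le hVp.le, ← mul_assoc, mul_inv_cancel₀ hVp.ne', one_mul]
    rw [JW_fM, hPmV, hG, ← integral_const_mul, ← integral_const_mul,
      ← integral_add (fi.const_mul _) (ri.const_mul _)]
    refine setIntegral_mono_on pi ((fi.const_mul _).add (ri.const_mul _)) measurableSet_Ioc
      fun v _ => ?_
    rw [← habs]
    refine par _ _ _ (norm_nonneg _) (norm_nonneg _) (norm_nonneg _) ?_
    have := norm_sub_le ((fM v : ℝ) : ℂ) (((fM v : ℝ) : ℂ) - PP (LU U) wc v)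
    rwa [sub_sub_cancel] at this
  -- divide
  set J := JW 0 V / V with hJ
  have hJV : JW 0 V = V * J := by rw [hJ]; field_simp
  have hGV' : G = V * (G / V) := by field_simp
  have hup' : J ≤ (1 + θ) * Pm + R * (G / V) := by
    rw [hJV, hGV'] at hup
    have e : (1 + θ) * (V * Pm) + R * (V * (G / V)) = V * ((1 + θ) * Pm + R * (G / V)) := by ring
    rw [e] at hup
    have := le_of_mul_le_mul_left hup hVp
    exact this
  have hlo' : Pm ≤ (1 + θ) * J + R * (G / V) := by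
    rw [hJV, hGV'] at hlo
    have e : (1 + θ) * (V * J) + R * (V * (G / V)) = V * ((1 + θ) * J + R * (G / V)) := by ring
    rw [e] at hlo
    have := le_of_mul_le_mul_left hlo hVp
    exact this
  have hJ0 : 0 ≤ J := div_nonneg (JW_nonneg _ _) hVp.le
  rw [abs_lt] at hV2
  rw [Real.dist_eq, abs_lt]
  have hPmS : Pm ≤ S + ε / 16 := by linarith
  have hJup : J ≤ (1 + θ) * (S + ε / 16) + ε / 16 := by
    have : (1 + θ) * Pm ≤ (1 + θ) * (S + ε / 16) := by gcongr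
    linarith
  have hθS' : θ * S ≤ ε / 16 := by nlinarith
  have hJup2 : J ≤ S + ε / 2 := by nlinarith
  constructor
  · -- lower
    have hεor : θ * J ≤ θ * (S + ε / 2) := by gcongr
    nlinarith
  · nlinarith

end Pool.Agent.J6H39.ML
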