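import Pool.Agent.J6H39.ML.Had
import Pool.Agent.J6H39.ML.Fin
import Pool.Agent.W120.WM.Fin

/-! Project ML: the final theorem. -/

set_option autoImplicit false

open Complex Filter Topology Set MeasureTheory

namespace Pool.Agent.J6H39.ML

open Pool.Agent.W120.WM (msq msq_eq JW_add)
open Pool.Agent.H295R2 (JW JW_integrable JW_nonneg JW_mono weak_mertens_windows)

theorem pt_of {ρ : ℂ} (h : ρ.re = 1 / 2) : pt ρ.im = ρ := by
  apply Complex.ext
  · rw [pt_re, h]
  · rw [pt_im]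

theorem norm_wc_sq (γ : ℝ) : ‖wc γ‖ ^ 2 = 1 / ‖pt γ * deriv riemannZeta (pt γ)‖ ^ 2 := by
  unfold wc
  rw [norm_inv, inv_pow, one_div]

theorem im_inj (hR : RHS) : Function.Injective (fun ρ : NT => (ρ : ℂ).im) := by
  intro a b h
  apply Subtype.ext
  rw [← pt_of (hR a a.2).1, ← pt_of (hR b b.2).1]
  exact congrArg pt h

theorem im_range : ∀ γ ∉ Set.range (fun ρ : NT => (ρ : ℂ).im), ‖w0 γ‖ ^ 2 = 0 := by
  intro γ hγ
  have : γ ∉ Od := fun h => hγ ⟨⟨pt γ, mem_Od.1 h⟩, pt_im γ⟩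
  rw [w0_not this, norm_zero]
  norm_num

theorem comp_im (hR : RHS) : (fun γ => ‖w0 γ‖ ^ 2) ∘ (fun ρ : NT => (ρ : ℂ).im) =
    fun ρ : NT => 1 / ‖(ρ : ℂ) * deriv riemannZeta ρ‖ ^ 2 := by
  funext ρ
  have h1 := pt_of (hR ρ ρ.2).1
  have h2 : (ρ : ℂ).im ∈ Od := by
    rw [mem_Od, h1]
    exact ρ.2
  simp only [Function.comp]
  rw [w0_mem h2, norm_wc_sq, h1]

theorem summable_iff (hR : RHS) : (Summable fun ρ : NT => 1 / ‖(ρ : ℂ) * deriv riemannZeta ρ‖ ^ 2) ↔
    Summable fun γ => ‖w0 γ‖ ^ 2 := by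
  rw [← comp_im hR]
  exact (im_inj hR).summable_iff im_range

theorem tsum_im (hR : RHS) : ∑' ρ : NT, 1 / ‖(ρ : ℂ) * deriv riemannZeta ρ‖ ^ 2 =
    ∑' γ, ‖w0 γ‖ ^ 2 := by
  rw [← comp_im hR]
  refine (im_inj hR).tsum_eq (f := fun γ => ‖w0 γ‖ ^ 2) fun γ hγ => ?_
  by_contra hcon
  exact hγ (im_range γ hcon)

/-- the condition on the zeros -/
def ZC : Prop := (∀ ρ ∈ NT, ρ.re = 1 / 2 ∧ deriv riemannZeta ρ ≠ 0) ∧
  Summable (fun ρ : NT => 1 / ‖(ρ : ℂ) * deriv riemannZeta ρ‖ ^ 2)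

theorem JW_lim (h : ZC) : Tendsto (fun V : ℝ => JW 0 V / V) atTop
    (𝓝 (∑' ρ : NT, 1 / ‖(ρ : ℂ) * deriv riemannZeta ρ‖ ^ 2)) := by
  rw [tsum_im h.1]
  exact mean_lim h.1 hadamard ((summable_iff h.1).1 h.2)

theorem window_lim (h : ZC) {δ : ℝ} (hδ : 0 < δ) (hδ1 : δ ≤ 1) :
    Tendsto (fun x : ℝ => msq (x ^ (1 - δ)) x / Real.log x) atTop
      (𝓝 (δ * ∑' ρ : NT, 1 / ‖(ρ : ℂ) * deriv riemannZeta ρ‖ ^ 2)) := by
  set S := ∑' ρ : NT, 1 / ‖(ρ : ℂ) * deriv riemannZeta ρ‖ ^ 2 with hS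
  have h0 := JW_lim h
  rw [← hS] at h0
  have hev : ∀ᶠ x : ℝ in atTop, JW 0 (Real.log x) / Real.log x -
      (JW 0 ((1 - δ) * Real.log x) / Real.log x) = msq (x ^ (1 - δ)) x / Real.log x := by
    filter_upwards [eventually_ge_atTop 1] with x hx
    have hx0 : 0 < x := by linarith
    have hl : 0 ≤ Real.log x := Real.log_nonneg hx
    have h1 : x ^ (1 - δ) ≤ x := by
      calc x ^ (1 - δ) ≤ x ^ (1 : ℝ) := Real.rpow_le_rpow_of_exponent_le hx (by linarith)
        _ = x := Real.rpow_one x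
    rw [msq_eq (Real.rpow_pos_of_pos hx0 _) h1, Real.log_rpow hx0, ← sub_div]
    congr 1
    have h2 := JW_add (A := 0) (B := (1 - δ) * Real.log x) (C := Real.log x) le_rfl
      (mul_nonneg (by linarith) hl) (by nlinarith)
    linarith
  refine Tendsto.congr' hev ?_
  have h1 : Tendsto (fun x : ℝ => JW 0 (Real.log x) / Real.log x) atTop (𝓝 S) :=
    h0.comp Real.tendsto_log_atTop
  have h2 : Tendsto (fun x : ℝ => JW 0 ((1 - δ) * Real.log x) / Real.log x) atTop
      (𝓝 ((1 - δ) * S)) := by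
    rcases eq_or_lt_of_le hδ1 with hd | hd
    · have : (fun x : ℝ => JW 0 ((1 - δ) * Real.log x) / Real.log x) = fun _ => 0 := by
        funext x
        rw [hd, sub_self, zero_mul]
        simp [JW]
      rw [this, hd, sub_self, zero_mul]
      exact tendsto_const_nhds
    · have hpos : 0 < 1 - δ := by linarith
      have h3 : Tendsto (fun x : ℝ => (1 - δ) * Real.log x) atTop atTop :=
        Real.tendsto_log_atTop.const_mul_atTop hpos
      have h4 := (h0.comp h3).const_mul (1 - δ)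
      refine h4.congr fun x => ?_
      simp only [Function.comp]
      field_simp
  have h3 := h1.sub h2
  have e : S - (1 - δ) * S = δ * S := by ring
  rwa [e] at h3

theorem ZC_of_freq {δ : ℝ} (hδ : 0 < δ) (hδ1 : δ ≤ 1) {C : ℝ}
    (h : ∃ᶠ x : ℝ in atTop, msq (x ^ (1 - δ)) x ≤ C * Real.log x) : ZC := by
  obtain ⟨h1, h2⟩ := weak_mertens_windows hδ hδ1 h
  have hsum : ∀ u : Finset NT, ∑ ρ ∈ u, 1 / ‖(ρ : ℂ) * deriv riemannZeta ρ‖ ^ 2 ≤ C / δ := by
    intro u
    classical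
    have h3 := h2 (u.map (Function.Embedding.subtype _)) (fun ρ hρ => by
      rw [Finset.mem_map] at hρ
      obtain ⟨ρ', -, rfl⟩ := hρ
      exact ρ'.2)
    rwa [Finset.sum_map] at h3
  exact ⟨fun ρ hρ => h1 ρ hρ, summable_of_sum_le (fun ρ => by positivity) hsum⟩

theorem window_top (h : ¬ ZC) {δ : ℝ} (hδ : 0 < δ) (hδ1 : δ ≤ 1) :
    Tendsto (fun x : ℝ => msq (x ^ (1 - δ)) x / Real.log x) atTop atTop := by
  rw [tendsto_atTop]
  intro C
  by_contra hcon
  rw [not_eventually] at hcon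
  refine h (ZC_of_freq hδ hδ1 (C := C) ?_)
  refine (hcon.and_eventually (eventually_gt_atTop 1)).mono fun x hx => ?_
  obtain ⟨h1, h2⟩ := hx
  have hl : 0 < Real.log x := Real.log_pos h2
  rw [not_le, div_lt_iff₀ hl] at h1
  exact h1.le

theorem weak_iff : (∃ C : ℝ, ∀ x : ℝ, 2 ≤ x → msq 1 x ≤ C * Real.log x) ↔ ZC := by
  constructor
  · rintro ⟨C, hC⟩
    refine ZC_of_freq one_pos le_rfl (C := C) (Eventually.frequently ?_)
    filter_upwards [eventually_ge_atTop 2] with x hx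
    rw [sub_self, Real.rpow_zero]
    exact hC x hx
  · intro h
    have h1 := window_lim h one_pos le_rfl
    set S := ∑' ρ : NT, 1 / ‖(ρ : ℂ) * deriv riemannZeta ρ‖ ^ 2 with hS
    rw [one_mul] at h1
    obtain ⟨X, hX⟩ := eventually_atTop.1 (h1.eventually (gt_mem_nhds (lt_add_one S)))
    set X0 := max X 2 with hX0
    have hS0 : 0 ≤ S := tsum_nonneg fun ρ => by positivity
    have hl2 : 0 < Real.log 2 := Real.log_pos one_lt_two
    refine ⟨max (S + 1) (msq 1 X0 / Real.log 2), fun x hx => ?_⟩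
    have hlx : 0 < Real.log x := Real.log_pos (by linarith)
    rcases le_total X0 x with h2 | h2
    · have h3 := hX x ((le_max_left _ _).trans h2)
      rw [sub_self, Real.rpow_zero, div_lt_iff₀ hlx] at h3
      exact h3.le.trans (mul_le_mul_of_nonneg_right (le_max_left _ _) hlx.le)
    · have hX1 : 1 ≤ X0 := by
        have : (2 : ℝ) ≤ X0 := le_max_right _ _
        linarith
      have h3 : msq 1 x ≤ msq 1 X0 := by
        rw [msq_eq one_pos (by linarith), msq_eq one_pos hX1, Real.log_one]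
        exact JW_mono le_rfl le_rfl (Real.log_le_log (by linarith) h2)
      have h4 : 0 ≤ msq 1 X0 := by
        rw [msq_eq one_pos hX1]
        exact JW_nonneg _ _
      have h5 : Real.log 2 ≤ Real.log x := Real.log_le_log (by norm_num) hx
      calc msq 1 x ≤ msq 1 X0 := h3
        _ = msq 1 X0 / Real.log 2 * Real.log 2 := by field_simp
        _ ≤ msq 1 X0 / Real.log 2 * Real.log x := by gcongr
        _ ≤ max (S + 1) (msq 1 X0 / Real.log 2) * Real.log x := by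
            gcongr
            exact le_max_right _ _

end Pool.Agent.J6H39.ML
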