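import Mathlib

/-! Project ML (helper39), MP_323ce2_nt: `∑ 1/|ρ ζ'(ρ)|² < ∞` implies the weak Mertens hypothesis.
Definitions. -/

set_option autoImplicit false

open Filter Topology Set

namespace Pool.Agent.J6H39.ML

/-- the nontrivial zeros -/
def NT : Set ℂ := {s | riemannZeta s = 0 ∧ 0 < s.re ∧ s.re < 1}

/-- the Riemann Hypothesis and simplicity of the zeros -/
def RHS : Prop := ∀ ρ ∈ NT, ρ.re = 1 / 2 ∧ deriv riemannZeta ρ ≠ 0

/-- Riemann's `ξ` -/
noncomputable def xi (s : ℂ) : ℂ := (s * (s - 1) * completedRiemannZeta₀ s + 1) / 2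

/-- positive ordinates up to `N` of the zeros on the critical line -/
def PO (N : ℕ) : Set ℝ := {γ : ℝ | 0 < γ ∧ γ ≤ N ∧ riemannZeta (1 / 2 + Complex.I * γ) = 0}

/-- the truncated product `∏ (1 - z² / γ²)` over the positive ordinates `γ ≤ N` -/
noncomputable def QN (N : ℕ) (z : ℂ) : ℂ := ∏ᶠ γ ∈ PO N, (1 - z ^ 2 / (γ : ℂ) ^ 2)

/-- Hadamard's product -/
def T_HAD : Prop := RHS → (∀ N, (PO N).Finite) ∧ xi (1 / 2) ≠ 0 ∧
  TendstoLocallyUniformlyOn (fun N z => QN N z) (fun z => xi (1 / 2 + Complex.I * z) / xi (1 / 2))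
    atTop univ

end Pool.Agent.J6H39.ML
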