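import Pool.Agent.J6H39.ML.Roll

/-! Project ML: divided differences of a Gaussian have the maximal number of zeros. -/

set_option autoImplicit false

open Filter Topology Set MeasureTheory

namespace Pool.Agent.J6H39.ML

/-- the weights `1 / Q'(γ)`, `Q = ∏ (X - γ)` -/
noncomputable def cw (Z : Finset ℝ) (γ : ℝ) : ℝ := (∏ δ ∈ Z.erase γ, (γ - δ))⁻¹

theorem cw_kill (Z : Finset ℝ) (p : Polynomial ℝ) (hp : p.natDegree + 2 ≤ Z.card) :
    ∑ γ ∈ Z, cw Z γ * p.eval γ = 0 := by
  have h1 := Lagrange.coeff_eq_sum (s := Z) (v := id) (F := ℝ) Function.injective_id.injOn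
    (P := p) (by
      refine (Polynomial.degree_le_natDegree).trans_lt ?_
      exact_mod_cast (by omega : p.natDegree < Z.card))
  rw [Polynomial.coeff_eq_zero_of_natDegree_lt (by omega)] at h1
  rw [h1]
  refine Finset.sum_congr rfl fun γ _ => ?_
  unfold cw
  simp only [id]
  rw [div_eq_mul_inv, mul_comm]

theorem ivt0 {f : ℝ → ℝ} (hc : Continuous f) {x y : ℝ} (hxy : x ≤ y) (h : f x * f y < 0) :
    ∃ z ∈ Ioo x y, f z = 0 := by
  have hx : f x ≠ 0 := by intro h'; rw [h', zero_mul] at h; exact lt_irrefl _ h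
  have hy : f y ≠ 0 := by intro h'; rw [h', mul_zero] at h; exact lt_irrefl _ h
  obtain ⟨z, hz, hz'⟩ : ∃ z ∈ Icc x y, f z = 0 := by
    rcases mul_neg_iff.1 h with ⟨h1, h2⟩ | ⟨h1, h2⟩
    · exact intermediate_value_Icc' hxy hc.continuousOn ⟨h2.le, h1.le⟩
    · exact intermediate_value_Icc hxy hc.continuousOn ⟨h1.le, h2.le⟩
  refine ⟨z, ⟨lt_of_le_of_ne hz.1 ?_, lt_of_le_of_ne hz.2 ?_⟩, hz'⟩
  · rintro rfl; exact hx hz'
  · rintro rfl; exact hy hz'

theorem sign_poly (S : Finset ℝ) : ∀ (f : ℝ → ℝ), Continuous f → (∀ x, f x = 0 → x ∈ S) →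
    ∃ q : Polynomial ℝ, q ≠ 0 ∧ q.natDegree ≤ S.card ∧ ∀ x, 0 ≤ f x * q.eval x := by
  classical
  induction S using Finset.induction_on_max with
  | empty =>
    intro f hc hz
    have hne : ∀ x, f x ≠ 0 := fun x h => by simpa using hz x h
    have hs : ∀ x, 0 < f 0 * f x := by
      intro x
      by_contra hcon
      push Not at hcon
      have hlt : f 0 * f x < 0 := lt_of_le_of_ne hcon (mul_ne_zero (hne 0) (hne x))
      rcases le_total 0 x with h | h
      · obtain ⟨z, -, hz'⟩ := ivt0 hc h hlt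
        exact hne z hz'
      · obtain ⟨z, -, hz'⟩ := ivt0 hc h (by rwa [mul_comm])
        exact hne z hz'
    refine ⟨Polynomial.C (f 0), by simpa using hne 0, by simp, fun x => ?_⟩
    rw [Polynomial.eval_C, mul_comm]
    exact (hs x).le
  | insert a S hlt ih =>
    intro f hc hz
    have haS : a ∉ S := fun h => lt_irrefl _ (hlt a h)
    obtain ⟨a', ha', hSa'⟩ : ∃ a' < a, ∀ x ∈ S, x < a' := by
      rcases S.eq_empty_or_nonempty with rfl | hne
      · exact ⟨a - 1, by linarith, by simp⟩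
      · have hm := hlt _ (S.max'_mem hne)
        refine ⟨(S.max' hne + a) / 2, by linarith, fun x hx => ?_⟩
        have := S.le_max' x hx
        linarith
    obtain ⟨q, hq0, hqd, hq⟩ := ih (fun x => f (min x a')) (by fun_prop) (by
      intro x hx
      rcases Finset.mem_insert.1 (hz _ hx) with h | h
      · exact absurd (min_le_right x a') (by rw [h]; exact not_le.2 ha')
      · have h2 := hSa' _ h
        have h3 : min x a' = x := by
          rcases min_choice x a' with h4 | h4
          · exact h4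
          · rw [h4] at h2; exact absurd h2 (lt_irrefl _)
        rwa [h3] at h)
    have hnz : ∀ z, a' ≤ z → z ≠ a → f z ≠ 0 := by
      intro z h1 h2 h3
      rcases Finset.mem_insert.1 (hz z h3) with h | h
      · exact h2 h
      · exact absurd (hSa' z h) (not_lt.2 h1)
    have hfa' : f a' ≠ 0 := hnz a' le_rfl ha'.ne
    have hfa1 : f (a + 1) ≠ 0 := hnz (a + 1) (by linarith) (by linarith)
    have hleft : ∀ x, x ≤ a' → 0 ≤ f x * q.eval x := by
      intro x hx
      have := hq x
      simp only [min_eq_left hx] at this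
      exact this
    have hright : ∀ x, a' ≤ x → 0 ≤ f a' * q.eval x := by
      intro x hx
      have := hq x
      simp only [min_eq_right hx] at this
      exact this
    have hmid : ∀ x, a' ≤ x → x ≤ a → 0 ≤ f a' * f x := by
      intro x h1 h2
      by_contra hcon
      push Not at hcon
      obtain ⟨z, hz1, hz2⟩ := ivt0 hc h1 hcon
      exact hnz z hz1.1.le (hz1.2.trans_le h2).ne hz2
    have hfar : ∀ x, a < x → 0 < f (a + 1) * f x := by
      intro x h1
      by_contra hcon
      push Not at hcon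
      have hlt : f (a + 1) * f x < 0 :=
        lt_of_le_of_ne hcon (mul_ne_zero hfa1 (hnz x (by linarith) h1.ne'))
      rcases le_total (a + 1) x with h | h
      · obtain ⟨z, hz1, hz2⟩ := ivt0 hc h hlt
        exact hnz z (by linarith [hz1.1]) (by linarith [hz1.1]) hz2
      · obtain ⟨z, hz1, hz2⟩ := ivt0 hc h (by rwa [mul_comm])
        exact hnz z (by linarith [hz1.1]) (by linarith [hz1.1]) hz2
    have hsq : 0 < f a' ^ 2 := by positivity
    have hcomb : ∀ x, 0 ≤ f a' * f x → 0 ≤ f a' * q.eval x → 0 ≤ f x * q.eval x := by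
      intro x h1 h2
      have h3 : f a' ^ 2 * (f x * q.eval x) = (f a' * f x) * (f a' * q.eval x) := by ring
      have h4 : 0 ≤ f a' ^ 2 * (f x * q.eval x) := by rw [h3]; exact mul_nonneg h1 h2
      exact nonneg_of_mul_nonneg_right h4 hsq
    have hcomb' : ∀ x, f a' * f x ≤ 0 → 0 ≤ f a' * q.eval x → f x * q.eval x ≤ 0 := by
      intro x h1 h2
      have h3 : f a' ^ 2 * (f x * q.eval x) = (f a' * f x) * (f a' * q.eval x) := by ring
      have h4 : f a' ^ 2 * (f x * q.eval x) ≤ 0 := by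
        rw [h3]; exact mul_nonpos_of_nonpos_of_nonneg h1 h2
      by_contra hcon
      push Not at hcon
      exact absurd h4 (not_le.2 (mul_pos hsq hcon))
    rcases lt_or_gt_of_ne (mul_ne_zero hfa' hfa1) with hs | hs
    · refine ⟨(Polynomial.C a - Polynomial.X) * q, ?_, ?_, ?_⟩
      · refine mul_ne_zero (fun h => ?_) hq0
        have := congrArg (Polynomial.eval (a + 1)) h
        simp at this
      · rw [Finset.card_insert_of_notMem haS]
        refine Polynomial.natDegree_mul_le.trans ?_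
        have h1 : (Polynomial.C a - Polynomial.X : Polynomial ℝ).natDegree ≤ 1 := by
          refine (Polynomial.natDegree_sub_le _ _).trans ?_
          simp
        omega
      · intro x
        rw [Polynomial.eval_mul, Polynomial.eval_sub, Polynomial.eval_C, Polynomial.eval_X]
        have e : f x * ((a - x) * q.eval x) = (a - x) * (f x * q.eval x) := by ring
        rw [e]
        rcases le_or_gt x a with hx | hx
        · refine mul_nonneg (by linarith) ?_
          rcases le_total x a' with h | h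
          · exact hleft x h
          · exact hcomb x (hmid x h hx) (hright x h)
        · refine mul_nonneg_of_nonpos_of_nonpos (by linarith) ?_
          refine hcomb' x ?_ (hright x (by linarith))
          have h1 := hfar x hx
          by_contra hcon
          push Not at hcon
          have h2 : f (a + 1) ^ 2 * (f a' * f x) = (f a' * f (a + 1)) * (f (a + 1) * f x) := by ring
          have h3 : 0 < f (a + 1) ^ 2 * (f a' * f x) := mul_pos (by positivity) hcon
          have h4 : (f a' * f (a + 1)) * (f (a + 1) * f x) < 0 := mul_neg_of_neg_of_pos hs h1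
          linarith
    · refine ⟨q, hq0, ?_, ?_⟩
      · rw [Finset.card_insert_of_notMem haS]
        omega
      · intro x
        rcases le_or_gt x a with hx | hx
        · rcases le_total x a' with h | h
          · exact hleft x h
          · exact hcomb x (hmid x h hx) (hright x h)
        · refine hcomb x ?_ (hright x (by linarith))
          have h1 := hfar x hx
          have h2 : f (a + 1) ^ 2 * (f a' * f x) = (f a' * f (a + 1)) * (f (a + 1) * f x) := by ring
          have h3 : 0 < (f a' * f (a + 1)) * (f (a + 1) * f x) := mul_pos hs h1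
          rw [← h2] at h3
          exact ((pos_iff_pos_of_mul_pos h3).1 (by positivity)).le

/-- integrability against a Gaussian -/
theorem gint {κ A B : ℝ} (hκ : 0 < κ) {f : ℝ → ℝ} (hf : Continuous f)
    (hb : ∀ t, |f t| ≤ A * Real.exp (B * |t|)) (γ : ℝ) :
    Integrable (fun t => f t * Real.exp (-(κ * (t - γ) ^ 2))) := by
  have hg : Integrable (fun t : ℝ => Real.exp (-(κ / 2) * t ^ 2)) :=
    integrable_exp_neg_mul_sq (by positivity)
  have hA : 0 ≤ A := by
    have h1 := (abs_nonneg _).trans (hb 0)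
    simpa using h1
  set B' := |B| + 2 * κ * |γ| with hB'
  refine Integrable.mono' (hg.const_mul (A * Real.exp (B' ^ 2 / (2 * κ)))) (by fun_prop) ?_
  refine Eventually.of_forall fun t => ?_
  rw [Real.norm_eq_abs, abs_mul, abs_of_pos (Real.exp_pos _)]
  calc |f t| * Real.exp (-(κ * (t - γ) ^ 2))
      ≤ A * Real.exp (B * |t|) * Real.exp (-(κ * (t - γ) ^ 2)) := by
        gcongr
        exact hb t
    _ = A * Real.exp (B * |t| - κ * (t - γ) ^ 2) := by
        rw [mul_assoc, ← Real.exp_add]; ring_nf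
    _ ≤ A * Real.exp (B' ^ 2 / (2 * κ) + -(κ / 2) * t ^ 2) := by
        gcongr
        have h1 : B * |t| ≤ |B| * |t| := by
          gcongr; exact le_abs_self B
        have h2 : t * γ ≤ |t| * |γ| := by
          rw [← abs_mul]; exact le_abs_self _
        have h3 : B' * |t| ≤ B' ^ 2 / (2 * κ) + (κ / 2) * t ^ 2 := by
          have h4 : B' ^ 2 / (2 * κ) + (κ / 2) * t ^ 2 - B' * |t| =
              (B' - κ * |t|) ^ 2 / (2 * κ) := by
            rw [← sq_abs t]
            field_simp
            ring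
          have h5 : 0 ≤ (B' - κ * |t|) ^ 2 / (2 * κ) := by positivity
          linarith
        have h4 : κ * (t * γ) ≤ κ * (|t| * |γ|) := by gcongr
        have h5 : 0 ≤ κ * γ ^ 2 := by positivity
        nlinarith
    _ = A * Real.exp (B' ^ 2 / (2 * κ)) * Real.exp (-(κ / 2) * t ^ 2) := by
        rw [Real.exp_add, mul_assoc]

theorem poly_growth (q : Polynomial ℝ) : ∃ A : ℝ, ∀ t : ℝ, |q.eval t| ≤ A * Real.exp (1 * |t|) := by
  refine ⟨∑ k ∈ Finset.range (q.natDegree + 1), |q.coeff k| * (k.factorial : ℝ), fun t => ?_⟩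
  rw [Polynomial.eval_eq_sum_range, one_mul, Finset.sum_mul]
  refine (Finset.abs_sum_le_sum_abs _ _).trans (Finset.sum_le_sum fun k _ => ?_)
  rw [abs_mul, abs_pow, mul_assoc]
  refine mul_le_mul_of_nonneg_left ?_ (abs_nonneg _)
  have h1 := Real.pow_div_factorial_le_exp (|t|) (abs_nonneg t) k
  have h2 : (0 : ℝ) < k.factorial := by positivity
  rw [div_le_iff₀ h2] at h1
  linarith

theorem gauss_moment {κ : ℝ} (hκ : 0 < κ) (q : Polynomial ℝ) : ∃ p : Polynomial ℝ,
    p.natDegree ≤ q.natDegree ∧ ∀ γ : ℝ,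
      ∫ t : ℝ, q.eval t * Real.exp (-(κ * (t - γ) ^ 2)) = p.eval γ := by
  refine ⟨∑ k ∈ Finset.range (q.natDegree + 1),
    Polynomial.C (∫ u : ℝ, u ^ k * Real.exp (-(κ * u ^ 2))) * Polynomial.hasseDeriv k q, ?_, ?_⟩
  · refine Polynomial.natDegree_sum_le_of_forall_le _ _ fun k _ => ?_
    refine Polynomial.natDegree_mul_le.trans ?_
    rw [Polynomial.natDegree_C, zero_add]
    exact (Polynomial.natDegree_hasseDeriv_le q k).trans (Nat.sub_le _ _)
  · intro γ
    have h1 : ∫ t : ℝ, q.eval t * Real.exp (-(κ * (t - γ) ^ 2)) =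
        ∫ u : ℝ, q.eval (u + γ) * Real.exp (-(κ * u ^ 2)) := by
      rw [← integral_add_right_eq_self (fun t => q.eval t * Real.exp (-(κ * (t - γ) ^ 2))) γ]
      simp only [add_sub_cancel_right]
    have h2 : ∀ u : ℝ, q.eval (u + γ) =
        ∑ k ∈ Finset.range (q.natDegree + 1), (Polynomial.hasseDeriv k q).eval γ * u ^ k := by
      intro u
      rw [← Polynomial.taylor_eval, Polynomial.eval_eq_sum_range, Polynomial.natDegree_taylor]
      refine Finset.sum_congr rfl fun k _ => ?_
      rw [Polynomial.taylor_coeff]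
    rw [h1, Polynomial.eval_finsetSum]
    have h3 : ∀ u : ℝ, q.eval (u + γ) * Real.exp (-(κ * u ^ 2)) =
        ∑ k ∈ Finset.range (q.natDegree + 1),
          (Polynomial.hasseDeriv k q).eval γ * (u ^ k * Real.exp (-(κ * u ^ 2))) := by
      intro u
      rw [h2, Finset.sum_mul]
      refine Finset.sum_congr rfl fun k _ => ?_
      ring
    simp_rw [h3]
    rw [integral_finsetSum]
    · refine Finset.sum_congr rfl fun k _ => ?_
      rw [integral_const_mul, Polynomial.eval_mul, Polynomial.eval_C, mul_comm]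
    · intro k _
      refine Integrable.const_mul ?_ _
      obtain ⟨A, hA⟩ := poly_growth (Polynomial.X ^ k)
      have := gint hκ (f := fun t => t ^ k) (A := A) (B := 1) (by fun_prop) (by simpa using hA) 0
      simpa using this

theorem cw_ne {Z : Finset ℝ} {γ : ℝ} : cw Z γ ≠ 0 := by
  unfold cw
  refine inv_ne_zero (Finset.prod_ne_zero_iff.2 fun δ hδ => ?_)
  rw [sub_ne_zero]
  exact (Finset.ne_of_mem_erase hδ).symm

/-- divided differences of a Gaussian over `n` nodes have at least `n - 1` zeros -/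
theorem gauss_zeros (Z : Finset ℝ) {κ : ℝ} (hκ : 0 < κ) : ∃ S : Finset ℝ, Z.card ≤ S.card + 1 ∧
    ∀ t ∈ S, ∑ γ ∈ Z, cw Z γ * Real.exp (-(κ * (t - γ) ^ 2)) = 0 := by
  classical
  set H : ℝ → ℝ := fun t => ∑ γ ∈ Z, cw Z γ * Real.exp (-(κ * (t - γ) ^ 2)) with hH
  have hHc : Continuous H := by rw [hH]; fun_prop
  by_cases hfin : {t | H t = 0}.Finite
  · by_contra hcon
    push Not at hcon
    have h1 : hfin.toFinset.card + 1 < Z.card := by
      by_contra h2
      push Not at h2
      obtain ⟨t, ht, ht'⟩ := hcon hfin.toFinset h2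
      exact ht' (hfin.mem_toFinset.1 ht)
    obtain ⟨q, hq0, hqd, hq⟩ := sign_poly hfin.toFinset H hHc (fun x hx => hfin.mem_toFinset.2 hx)
    obtain ⟨p, hp, hp'⟩ := gauss_moment hκ q
    obtain ⟨A, hA⟩ := poly_growth q
    have hint : ∀ γ : ℝ, Integrable (fun t => q.eval t * Real.exp (-(κ * (t - γ) ^ 2))) :=
      fun γ => gint hκ q.continuous hA γ
    have h3 : ∀ t, H t * q.eval t = ∑ γ ∈ Z, cw Z γ * (q.eval t * Real.exp (-(κ * (t - γ) ^ 2))) := by
      intro t
      rw [hH]
      simp only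
      rw [Finset.sum_mul]
      refine Finset.sum_congr rfl fun γ _ => ?_
      ring
    have h4 : ∫ t, H t * q.eval t = 0 := by
      simp_rw [h3]
      rw [integral_finsetSum _ (fun γ _ => (hint γ).const_mul _)]
      simp_rw [integral_const_mul, hp']
      exact cw_kill Z p (by omega)
    have h5 : Integrable (fun t => H t * q.eval t) := by
      simp_rw [h3]
      exact integrable_finsetSum _ (fun γ _ => (hint γ).const_mul _)
    rw [integral_eq_zero_iff_of_nonneg hq h5] at h4
    have h6 : (fun t => H t * q.eval t) = 0 :=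
      Continuous.ae_eq_iff_eq volume (hHc.mul q.continuous) continuous_zero |>.1 h4
    have h7 : {t | H t = 0}ᶜ ⊆ {t | q.IsRoot t} := by
      intro t ht
      have := congrFun h6 t
      simp only [Pi.zero_apply] at this
      exact (mul_eq_zero.1 this).resolve_left ht
    have h8 : {t : ℝ | q.IsRoot t}.Finite := Polynomial.finite_setOfPred_isRoot hq0
    have h9 : ({t | H t = 0} ∪ {t | H t = 0}ᶜ).Finite := hfin.union (h8.subset h7)
    rw [union_compl_self] at h9
    exact Set.infinite_univ h9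
  · obtain ⟨S, hS1, hS2⟩ := Set.Infinite.exists_subset_card_eq hfin Z.card
    exact ⟨S, by omega, fun t ht => hS1 ht⟩

/-- the Gaussian sums `K_κ` -/
noncomputable def KK (Z : Finset ℝ) (a : ℝ → ℝ) (κ t : ℝ) : ℝ :=
  ∑ γ ∈ Z, a γ * Real.exp (-(κ * (t - γ) ^ 2))

/-- the derivative of `KK` in `t` -/
noncomputable def KK1 (Z : Finset ℝ) (a : ℝ → ℝ) (κ t : ℝ) : ℝ :=
  ∑ γ ∈ Z, a γ * (-(2 * κ * (t - γ)) * Real.exp (-(κ * (t - γ) ^ 2)))

/-- the second derivative of `KK` in `t` -/
noncomputable def KK2 (Z : Finset ℝ) (a : ℝ → ℝ) (κ t : ℝ) : ℝ :=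
  ∑ γ ∈ Z, a γ * ((4 * κ ^ 2 * (t - γ) ^ 2 - 2 * κ) * Real.exp (-(κ * (t - γ) ^ 2)))

/-- the weights with a Gaussian factor -/
noncomputable def ca (Z : Finset ℝ) (β γ : ℝ) : ℝ := cw Z γ * Real.exp (-(β * γ ^ 2))

/-- **the Laguerre inequality for Gaussian sums** -/
theorem laguerre_gauss (Z : Finset ℝ) {κ β : ℝ} (hκ : 0 < κ) (hβ : 0 ≤ β) (t : ℝ) :
    KK Z (ca Z β) κ t * KK2 Z (ca Z β) κ t ≤
      KK1 Z (ca Z β) κ t ^ 2 - 2 * κ * KK Z (ca Z β) κ t ^ 2 := by
  classical
  have hL : 0 < β + κ := by positivity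
  obtain ⟨L, hLdef⟩ : ∃ L : ℝ, L = β + κ := ⟨_, rfl⟩
  rw [← hLdef] at hL
  obtain ⟨S, hS, hS'⟩ := gauss_zeros Z hL
  set b : ℝ → ℝ := fun γ => cw Z γ * Real.exp (-(L * γ ^ 2)) with hb
  have hLag := laguerre_expsum Z b (S.image (fun t => 2 * L * t)) (by
    intro x hx
    obtain ⟨t, ht, rfl⟩ := Finset.mem_image.1 hx
    have h1 := hS' t ht
    have h2 : ∑ l ∈ Z, b l * Real.exp (l * (2 * L * t)) = Real.exp (L * t ^ 2) *
        ∑ γ ∈ Z, cw Z γ * Real.exp (-(L * (t - γ) ^ 2)) := by
      rw [Finset.mul_sum]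
      refine Finset.sum_congr rfl fun γ _ => ?_
      have e1 : Real.exp (-(L * γ ^ 2)) * Real.exp (γ * (2 * L * t)) =
          Real.exp (L * t ^ 2) * Real.exp (-(L * (t - γ) ^ 2)) := by
        rw [← Real.exp_add, ← Real.exp_add]
        ring_nf
      rw [hb]
      simp only
      rw [mul_assoc, e1]
      ring
    rw [h2, h1, mul_zero]) (by
    rw [Finset.card_image_of_injective]
    · exact hS
    · intro x y hxy
      exact mul_left_cancel₀ (by positivity : (2 * L) ≠ 0) hxy) (2 * κ * t)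
  set g0 := ∑ l ∈ Z, b l * Real.exp (l * (2 * κ * t)) with hg0
  set g1 := ∑ l ∈ Z, b l * l * Real.exp (l * (2 * κ * t)) with hg1
  set g2 := ∑ l ∈ Z, b l * l ^ 2 * Real.exp (l * (2 * κ * t)) with hg2
  have hbE : ∀ γ, ca Z β γ * Real.exp (-(κ * (t - γ) ^ 2)) =
      Real.exp (-(κ * t ^ 2)) * (b γ * Real.exp (γ * (2 * κ * t))) := by
    intro γ
    unfold ca
    rw [hb]
    simp only
    rw [mul_assoc, ← Real.exp_add, mul_assoc, ← Real.exp_add, mul_left_comm, ← Real.exp_add]
    congr 2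
    rw [hLdef]
    ring
  have e0 : KK Z (ca Z β) κ t = Real.exp (-(κ * t ^ 2)) * g0 := by
    unfold KK
    rw [hg0, Finset.mul_sum]
    exact Finset.sum_congr rfl fun γ _ => hbE γ
  have e1 : KK1 Z (ca Z β) κ t = Real.exp (-(κ * t ^ 2)) *
      (-(2 * κ * t) * g0 + (2 * κ) * g1) := by
    unfold KK1
    rw [hg0, hg1, Finset.mul_sum, Finset.mul_sum, ← Finset.sum_add_distrib, Finset.mul_sum]
    refine Finset.sum_congr rfl fun γ _ => ?_
    have h1 : ca Z β γ * (-(2 * κ * (t - γ)) * Real.exp (-(κ * (t - γ) ^ 2))) =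
        -(2 * κ * (t - γ)) * (ca Z β γ * Real.exp (-(κ * (t - γ) ^ 2))) := by ring
    rw [h1, hbE]
    ring
  have e2 : KK2 Z (ca Z β) κ t = Real.exp (-(κ * t ^ 2)) *
      ((4 * κ ^ 2 * t ^ 2 - 2 * κ) * g0 + -(8 * κ ^ 2 * t) * g1 + (4 * κ ^ 2) * g2) := by
    unfold KK2
    rw [hg0, hg1, hg2, Finset.mul_sum, Finset.mul_sum, Finset.mul_sum, ← Finset.sum_add_distrib,
      ← Finset.sum_add_distrib, Finset.mul_sum]
    refine Finset.sum_congr rfl fun γ _ => ?_
    have h1 : ca Z β γ * ((4 * κ ^ 2 * (t - γ) ^ 2 - 2 * κ) * Real.exp (-(κ * (t - γ) ^ 2))) =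
        (4 * κ ^ 2 * (t - γ) ^ 2 - 2 * κ) * (ca Z β γ * Real.exp (-(κ * (t - γ) ^ 2))) := by ring
    rw [h1, hbE]
    ring
  rw [e0, e1, e2]
  generalize Real.exp (-(κ * t ^ 2)) = E at *
  have key : (E * (-(2 * κ * t) * g0 + 2 * κ * g1)) ^ 2 - 2 * κ * (E * g0) ^ 2 -
      E * g0 * (E * ((4 * κ ^ 2 * t ^ 2 - 2 * κ) * g0 + -(8 * κ ^ 2 * t) * g1 + 4 * κ ^ 2 * g2)) =
      E ^ 2 * (4 * κ ^ 2) * (g1 ^ 2 - g0 * g2) := by
    ring
  have h3 : 0 ≤ E ^ 2 * (4 * κ ^ 2) * (g1 ^ 2 - g0 * g2) :=
    mul_nonneg (by positivity) (by linarith)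
  linarith

end Pool.Agent.J6H39.ML
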