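import Pool.Agent.J6H39.ML.Div

/-! Project ML: the heat flow inequality. -/

set_option autoImplicit false

open Filter Topology Set MeasureTheory

namespace Pool.Agent.J6H39.ML

/-! ### functions of exponential growth -/

/-- exponential growth -/
def EG (f : ℝ → ℝ) : Prop := ∃ A B : ℝ, 0 ≤ B ∧ ∀ t, |f t| ≤ A * Real.exp (B * |t|)

theorem EG.nn {f : ℝ → ℝ} {A B : ℝ} (h : ∀ t, |f t| ≤ A * Real.exp (B * |t|)) : 0 ≤ A := by
  have h1 := (abs_nonneg _).trans (h 0)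
  simpa using h1

theorem EG.congr {f g : ℝ → ℝ} (h : EG f) (e : ∀ t, f t = g t) : EG g := by
  have : f = g := funext e
  rwa [← this]

theorem EG.add {f g : ℝ → ℝ} (hf : EG f) (hg : EG g) : EG (fun t => f t + g t) := by
  obtain ⟨A, B, hB, h⟩ := hf
  obtain ⟨A', B', hB', h'⟩ := hg
  have hA := EG.nn h
  have hA' := EG.nn h'
  refine ⟨A + A', B + B', by positivity, fun t => ?_⟩
  have e1 : Real.exp (B * |t|) ≤ Real.exp ((B + B') * |t|) := by
    gcongr; linarith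
  have e2 : Real.exp (B' * |t|) ≤ Real.exp ((B + B') * |t|) := by
    gcongr; linarith
  calc |f t + g t| ≤ |f t| + |g t| := abs_add_le _ _
    _ ≤ A * Real.exp (B * |t|) + A' * Real.exp (B' * |t|) := add_le_add (h t) (h' t)
    _ ≤ A * Real.exp ((B + B') * |t|) + A' * Real.exp ((B + B') * |t|) := by gcongr
    _ = _ := by ring

theorem EG.mul {f g : ℝ → ℝ} (hf : EG f) (hg : EG g) : EG (fun t => f t * g t) := by
  obtain ⟨A, B, hB, h⟩ := hf
  obtain ⟨A', B', hB', h'⟩ := hg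
  have hA := EG.nn h
  have hA' := EG.nn h'
  refine ⟨A * A', B + B', by positivity, fun t => ?_⟩
  rw [abs_mul]
  calc |f t| * |g t| ≤ (A * Real.exp (B * |t|)) * (A' * Real.exp (B' * |t|)) := by
        gcongr
        · exact h t
        · exact h' t
    _ = A * A' * Real.exp ((B + B') * |t|) := by
        rw [add_mul, Real.exp_add]; ring

theorem EG.bdd {f : ℝ → ℝ} {A : ℝ} (h : ∀ t, |f t| ≤ A) : EG f :=
  ⟨A, 0, le_rfl, fun t => by simpa using h t⟩

theorem EG.const (c : ℝ) : EG (fun _ => c) := EG.bdd (A := |c|) fun _ => le_rfl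

theorem EG.id : EG (fun t => t) := by
  refine ⟨1, 1, by norm_num, fun t => ?_⟩
  have := Real.add_one_le_exp (|t|)
  simp only [one_mul]
  linarith

theorem EG.pow {f : ℝ → ℝ} (hf : EG f) (n : ℕ) : EG (fun t => f t ^ n) := by
  induction n with
  | zero => simpa using EG.const 1
  | succ n ih => simpa [pow_succ] using ih.mul hf

theorem EG.sum {ι : Type*} (s : Finset ι) {f : ι → ℝ → ℝ} (hf : ∀ i ∈ s, EG (f i)) :
    EG (fun t => ∑ i ∈ s, f i t) := by
  classical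
  induction s using Finset.induction_on with
  | empty => simpa using EG.const 0
  | insert a s ha ih =>
    have h1 := (hf a (Finset.mem_insert_self _ _)).add (ih fun i hi =>
      hf i (Finset.mem_insert_of_mem hi))
    refine h1.congr fun t => ?_
    rw [Finset.sum_insert ha]

theorem EG.gauss {κ : ℝ} (hκ : 0 ≤ κ) (γ : ℝ) : EG (fun t => Real.exp (-(κ * (t - γ) ^ 2))) := by
  refine EG.bdd (A := 1) fun t => ?_
  rw [abs_of_pos (Real.exp_pos _)]
  refine Real.exp_le_one_iff.2 ?_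
  have : 0 ≤ κ * (t - γ) ^ 2 := by positivity
  linarith

theorem EG.sub_const (γ : ℝ) : EG (fun t => t - γ) := by
  simpa [sub_eq_add_neg] using EG.id.add (EG.const (-γ))

theorem EG.KK (Z : Finset ℝ) (a : ℝ → ℝ) {κ : ℝ} (hκ : 0 ≤ κ) : EG (fun t => KK Z a κ t) := by
  unfold ML.KK
  exact EG.sum Z fun γ _ => (EG.const _).mul (EG.gauss hκ γ)

theorem EG.KK1 (Z : Finset ℝ) (a : ℝ → ℝ) {κ : ℝ} (hκ : 0 ≤ κ) : EG (fun t => KK1 Z a κ t) := by
  unfold ML.KK1
  refine EG.sum Z fun γ _ => (EG.const _).mul (EG.mul ?_ (EG.gauss hκ γ))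
  have := (EG.const (-(2 * κ))).mul (EG.sub_const γ)
  refine this.congr fun t => ?_
  ring

theorem EG.KK2 (Z : Finset ℝ) (a : ℝ → ℝ) {κ : ℝ} (hκ : 0 ≤ κ) : EG (fun t => KK2 Z a κ t) := by
  unfold ML.KK2
  refine EG.sum Z fun γ _ => (EG.const _).mul (EG.mul ?_ (EG.gauss hκ γ))
  have := ((EG.const (4 * κ ^ 2)).mul ((EG.sub_const γ).pow 2)).add (EG.const (-(2 * κ)))
  refine this.congr fun t => ?_
  ring

theorem EG.int {f : ℝ → ℝ} (hf : EG f) (hc : Continuous f) {κ : ℝ} (hκ : 0 < κ) (γ : ℝ) :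
    Integrable (fun t => f t * Real.exp (-(κ * (t - γ) ^ 2))) := by
  obtain ⟨A, B, hB, h⟩ := hf
  exact gint hκ hc h γ

theorem KK_cont (Z : Finset ℝ) (a : ℝ → ℝ) (κ : ℝ) : Continuous (fun t => KK Z a κ t) := by
  unfold KK; fun_prop

theorem KK1_cont (Z : Finset ℝ) (a : ℝ → ℝ) (κ : ℝ) : Continuous (fun t => KK1 Z a κ t) := by
  unfold KK1; fun_prop

theorem KK2_cont (Z : Finset ℝ) (a : ℝ → ℝ) (κ : ℝ) : Continuous (fun t => KK2 Z a κ t) := by
  unfold KK2; fun_prop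

theorem KK_int (Z : Finset ℝ) (a : ℝ → ℝ) {κ : ℝ} (hκ : 0 < κ) {f : ℝ → ℝ} (hf : EG f)
    (hc : Continuous f) : Integrable (fun t => f t * KK Z a κ t) := by
  have h1 : ∀ t, f t * KK Z a κ t = ∑ γ ∈ Z, a γ * (f t * Real.exp (-(κ * (t - γ) ^ 2))) := by
    intro t
    unfold KK
    rw [Finset.mul_sum]
    refine Finset.sum_congr rfl fun γ _ => ?_
    ring
  simp_rw [h1]
  exact integrable_finsetSum _ fun γ _ => (hf.int hc hκ γ).const_mul _

theorem KK1_int (Z : Finset ℝ) (a : ℝ → ℝ) {κ : ℝ} (hκ : 0 < κ) {f : ℝ → ℝ} (hf : EG f)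
    (hc : Continuous f) : Integrable (fun t => f t * KK1 Z a κ t) := by
  have h1 : ∀ t, f t * KK1 Z a κ t = ∑ γ ∈ Z, a γ * ((f t * (-(2 * κ) * (t - γ))) *
      Real.exp (-(κ * (t - γ) ^ 2))) := by
    intro t
    unfold KK1
    rw [Finset.mul_sum]
    refine Finset.sum_congr rfl fun γ _ => ?_
    ring
  simp_rw [h1]
  refine integrable_finsetSum _ fun γ _ => (EG.int ?_ (by fun_prop) hκ γ).const_mul _
  exact hf.mul ((EG.const _).mul (EG.sub_const γ))

/-! ### derivatives in `t` -/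

theorem hasDerivAt_gauss (κ γ t : ℝ) : HasDerivAt (fun t => Real.exp (-(κ * (t - γ) ^ 2)))
    (-(2 * κ * (t - γ)) * Real.exp (-(κ * (t - γ) ^ 2))) t := by
  have h1 : HasDerivAt (fun t : ℝ => -(κ * (t - γ) ^ 2)) (-(2 * κ * (t - γ))) t := by
    have h2 : HasDerivAt (fun t : ℝ => t - γ) 1 t := (hasDerivAt_id t).sub_const γ
    have h3 := ((h2.pow 2).const_mul κ).neg
    refine h3.congr_deriv ?_
    norm_num
    ring
  exact h1.exp.congr_deriv (by ring)

theorem hasDerivAt_KK (Z : Finset ℝ) (a : ℝ → ℝ) (κ t : ℝ) :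
    HasDerivAt (fun t => KK Z a κ t) (KK1 Z a κ t) t := by
  unfold KK KK1
  exact HasDerivAt.fun_sum fun γ _ => (hasDerivAt_gauss κ γ t).const_mul (a γ)

theorem hasDerivAt_KK1 (Z : Finset ℝ) (a : ℝ → ℝ) (κ t : ℝ) :
    HasDerivAt (fun t => KK1 Z a κ t) (KK2 Z a κ t) t := by
  unfold KK1 KK2
  refine HasDerivAt.fun_sum fun γ _ => HasDerivAt.const_mul (a γ) ?_
  have h1 : HasDerivAt (fun t : ℝ => -(2 * κ * (t - γ))) (-(2 * κ)) t := by
    have h2 : HasDerivAt (fun t : ℝ => t - γ) 1 t := (hasDerivAt_id t).sub_const γ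
    exact ((h2.const_mul (2 * κ)).neg).congr_deriv (by ring)
  exact (h1.mul (hasDerivAt_gauss κ γ t)).congr_deriv (by ring)

/-! ### weights -/

/-- slowly varying weights -/
def IsW (B : ℝ) (W : ℝ → ℝ) : Prop := 0 ≤ B ∧ ∃ W1 W2 : ℝ → ℝ,
  (∀ t, HasDerivAt W (W1 t) t) ∧ (∀ t, HasDerivAt W1 (W2 t) t) ∧ Continuous W2 ∧
  ∀ t, 0 < W t ∧ |W1 t| ≤ B * W t ∧ |W2 t| ≤ B * W t

theorem IsW.cont {B : ℝ} {W : ℝ → ℝ} (h : IsW B W) : Continuous W := by
  obtain ⟨-, W1, W2, h1, -⟩ := h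
  exact continuous_iff_continuousAt.2 fun t => (h1 t).continuousAt

theorem IsW.pos {B : ℝ} {W : ℝ → ℝ} (h : IsW B W) (t : ℝ) : 0 < W t := by
  obtain ⟨-, W1, W2, -, -, -, h4⟩ := h
  exact (h4 t).1

theorem IsW.slow {B : ℝ} {W : ℝ → ℝ} (h : IsW B W) (t u : ℝ) :
    W t ≤ W u * Real.exp (B * |t - u|) := by
  obtain ⟨hB, W1, W2, h1, h2, h3, h4⟩ := h
  have hd : ∀ t, HasDerivAt (fun t => Real.log (W t)) (W1 t / W t) t := fun t =>
    (h1 t).log (h4 t).1.ne'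
  have hb : ∀ t, ‖W1 t / W t‖ ≤ B := by
    intro t
    rw [norm_div, Real.norm_eq_abs, Real.norm_eq_abs, abs_of_pos (h4 t).1,
      div_le_iff₀ (h4 t).1]
    exact (h4 t).2.1
  have h5 := (convex_univ (𝕜 := ℝ) (E := ℝ)).norm_image_sub_le_of_norm_hasDerivWithin_le
    (f := fun t => Real.log (W t)) (f' := fun t => W1 t / W t) (C := B)
    (fun x _ => (hd x).hasDerivWithinAt) (fun x _ => hb x) (mem_univ u) (mem_univ t)
  rw [Real.norm_eq_abs, Real.norm_eq_abs] at h5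
  have h6 : Real.log (W t) ≤ Real.log (W u) + B * |t - u| := by
    have := le_abs_self (Real.log (W t) - Real.log (W u))
    linarith
  calc W t = Real.exp (Real.log (W t)) := (Real.exp_log (h4 t).1).symm
    _ ≤ Real.exp (Real.log (W u) + B * |t - u|) := Real.exp_le_exp.2 h6
    _ = W u * Real.exp (B * |t - u|) := by rw [Real.exp_add, Real.exp_log (h4 u).1]

theorem IsW.eg {B : ℝ} {W : ℝ → ℝ} (h : IsW B W) : EG W := by
  refine ⟨W 0, B, h.1, fun t => ?_⟩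
  rw [abs_of_pos (h.pos t)]
  simpa using h.slow t 0

theorem IsW.mul {B B' : ℝ} {W V : ℝ → ℝ} (h : IsW B W) (h' : IsW B' V) :
    IsW (B + B' + 2 * B * B') (fun t => W t * V t) := by
  obtain ⟨hB, W1, W2, h1, h2, h3, h4⟩ := h
  obtain ⟨hB', V1, V2, k1, k2, k3, k4⟩ := h'
  have cW : Continuous W := continuous_iff_continuousAt.2 fun t => (h1 t).continuousAt
  have cV : Continuous V := continuous_iff_continuousAt.2 fun t => (k1 t).continuousAt
  have cW1 : Continuous W1 := continuous_iff_continuousAt.2 fun t => (h2 t).continuousAt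
  have cV1 : Continuous V1 := continuous_iff_continuousAt.2 fun t => (k2 t).continuousAt
  refine ⟨by positivity, fun t => W1 t * V t + W t * V1 t,
    fun t => (W2 t * V t + W1 t * V1 t) + (W1 t * V1 t + W t * V2 t), fun t => (h1 t).mul (k1 t),
    fun t => ((h2 t).mul (k1 t)).add ((h1 t).mul (k2 t)), by fun_prop, fun t => ?_⟩
  obtain ⟨a1, a2, a3⟩ := h4 t
  obtain ⟨b1, b2, b3⟩ := k4 t
  have m : 0 < W t * V t := mul_pos a1 b1
  have e1 : |W1 t * V t| ≤ B * (W t * V t) := by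
    rw [abs_mul, abs_of_pos b1, ← mul_assoc]
    gcongr
  have e2 : |W t * V1 t| ≤ B' * (W t * V t) := by
    rw [abs_mul, abs_of_pos a1]
    calc W t * |V1 t| ≤ W t * (B' * V t) := by gcongr
      _ = _ := by ring
  have e3 : |W2 t * V t| ≤ B * (W t * V t) := by
    rw [abs_mul, abs_of_pos b1, ← mul_assoc]
    gcongr
  have e4 : |W t * V2 t| ≤ B' * (W t * V t) := by
    rw [abs_mul, abs_of_pos a1]
    calc W t * |V2 t| ≤ W t * (B' * V t) := by gcongr
      _ = _ := by ring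
  have e5 : |W1 t * V1 t| ≤ (B * B') * (W t * V t) := by
    rw [abs_mul]
    calc |W1 t| * |V1 t| ≤ (B * W t) * (B' * V t) := by gcongr
      _ = _ := by ring
  have e6 : 0 ≤ B * B' * (W t * V t) := by positivity
  refine ⟨m, ?_, ?_⟩
  · refine (abs_add_le _ _).trans ?_
    nlinarith
  · refine (abs_add_le _ _).trans ?_
    have f1 := abs_add_le (W2 t * V t) (W1 t * V1 t)
    have f2 := abs_add_le (W1 t * V1 t) (W t * V2 t)
    nlinarith

/-! ### the energy -/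

/-- the weighted energy -/
noncomputable def En (W : ℝ → ℝ) (Z : Finset ℝ) (a : ℝ → ℝ) (κ : ℝ) : ℝ :=
  ∫ t, W t * KK Z a κ t ^ 2

/-- the derivative of a pair term -/
theorem pair_deriv {W : ℝ → ℝ} (hW : EG W) (hc : Continuous W) (hp : ∀ t, 0 ≤ W t) (γ δ : ℝ)
    {κ : ℝ} (hκ : 0 < κ) :
    Integrable (fun t => W t * ((t - γ) ^ 2 + (t - δ) ^ 2) *
      Real.exp (-(κ * ((t - γ) ^ 2 + (t - δ) ^ 2)))) ∧
    HasDerivAt (fun κ => ∫ t, W t * Real.exp (-(κ * ((t - γ) ^ 2 + (t - δ) ^ 2))))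
      (∫ t, -(W t * ((t - γ) ^ 2 + (t - δ) ^ 2) *
        Real.exp (-(κ * ((t - γ) ^ 2 + (t - δ) ^ 2))))) κ := by
  have hint : ∀ κ : ℝ, 0 < κ → Integrable (fun t => W t * ((t - γ) ^ 2 + (t - δ) ^ 2) *
      Real.exp (-(κ * ((t - γ) ^ 2 + (t - δ) ^ 2)))) := by
    intro κ hκ
    have h1 : EG (fun t => (W t * ((t - γ) ^ 2 + (t - δ) ^ 2)) * Real.exp (-(κ * (t - δ) ^ 2))) :=
      (hW.mul (((EG.sub_const γ).pow 2).add ((EG.sub_const δ).pow 2))).mul (EG.gauss hκ.le δ)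
    refine (h1.int (by fun_prop) hκ γ).congr (Eventually.of_forall fun t => ?_)
    simp only
    rw [mul_assoc, ← Real.exp_add]
    ring_nf
  have hint0 : Integrable (fun t => W t * Real.exp (-(κ * ((t - γ) ^ 2 + (t - δ) ^ 2)))) := by
    have h1 : EG (fun t => W t * Real.exp (-(κ * (t - δ) ^ 2))) := hW.mul (EG.gauss hκ.le δ)
    refine (h1.int (by fun_prop) hκ γ).congr (Eventually.of_forall fun t => ?_)
    simp only
    rw [mul_assoc, ← Real.exp_add]
    ring_nf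
  refine ⟨hint κ hκ, ?_⟩
  have key := hasDerivAt_integral_of_dominated_loc_of_deriv_le
    (F := fun κ t => W t * Real.exp (-(κ * ((t - γ) ^ 2 + (t - δ) ^ 2))))
    (F' := fun κ t => -(W t * ((t - γ) ^ 2 + (t - δ) ^ 2) *
        Real.exp (-(κ * ((t - γ) ^ 2 + (t - δ) ^ 2)))))
    (x₀ := κ) (s := Ioi (κ / 2))
    (bound := fun t => W t * ((t - γ) ^ 2 + (t - δ) ^ 2) *
        Real.exp (-((κ / 2) * ((t - γ) ^ 2 + (t - δ) ^ 2))))
    (μ := volume) (Ioi_mem_nhds (by linarith))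
    (Eventually.of_forall fun κ' => by
      have : Continuous (fun t => W t * Real.exp (-(κ' * ((t - γ) ^ 2 + (t - δ) ^ 2)))) := by
        fun_prop
      exact this.aestronglyMeasurable)
    hint0
    (by
      have : Continuous (fun t => -(W t * ((t - γ) ^ 2 + (t - δ) ^ 2) *
        Real.exp (-(κ * ((t - γ) ^ 2 + (t - δ) ^ 2))))) := by fun_prop
      exact this.aestronglyMeasurable)
    (Eventually.of_forall fun t κ' hκ' => by
      have h0 : 0 ≤ (t - γ) ^ 2 + (t - δ) ^ 2 := by positivity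
      have h1 : 0 ≤ W t * ((t - γ) ^ 2 + (t - δ) ^ 2) := mul_nonneg (hp t) h0
      rw [norm_neg, Real.norm_eq_abs, abs_of_nonneg (mul_nonneg h1 (Real.exp_pos _).le)]
      gcongr
      exact le_of_lt hκ')
    (hint (κ / 2) (by positivity))
    (Eventually.of_forall fun t κ' _ => by
      have h1 : HasDerivAt (fun κ : ℝ => -(κ * ((t - γ) ^ 2 + (t - δ) ^ 2)))
          (-((t - γ) ^ 2 + (t - δ) ^ 2)) κ' := by
        exact (((hasDerivAt_id κ').mul_const _).neg).congr_deriv (by ring)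
      exact (h1.exp.const_mul (W t)).congr_deriv (by ring))
  exact key.2

theorem KK_sq (Z : Finset ℝ) (a : ℝ → ℝ) (κ t : ℝ) : KK Z a κ t ^ 2 =
    ∑ γ ∈ Z, ∑ δ ∈ Z, a γ * a δ * Real.exp (-(κ * ((t - γ) ^ 2 + (t - δ) ^ 2))) := by
  unfold KK
  rw [sq, Finset.sum_mul_sum]
  refine Finset.sum_congr rfl fun γ _ => Finset.sum_congr rfl fun δ _ => ?_
  have : Real.exp (-(κ * ((t - γ) ^ 2 + (t - δ) ^ 2))) =
      Real.exp (-(κ * (t - γ) ^ 2)) * Real.exp (-(κ * (t - δ) ^ 2)) := by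
    rw [← Real.exp_add]; ring_nf
  rw [this]
  ring

theorem pair_int {W : ℝ → ℝ} (hW : EG W) (hc : Continuous W) (γ δ : ℝ) {κ : ℝ} (hκ : 0 < κ) :
    Integrable (fun t => W t * Real.exp (-(κ * ((t - γ) ^ 2 + (t - δ) ^ 2)))) := by
  have h1 : EG (fun t => W t * Real.exp (-(κ * (t - δ) ^ 2))) := hW.mul (EG.gauss hκ.le δ)
  refine (h1.int (by fun_prop) hκ γ).congr (Eventually.of_forall fun t => ?_)
  simp only
  rw [mul_assoc, ← Real.exp_add]
  ring_nf

theorem En_eq {W : ℝ → ℝ} (hW : EG W) (hc : Continuous W) (Z : Finset ℝ) (a : ℝ → ℝ) {κ : ℝ}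
    (hκ : 0 < κ) : En W Z a κ = ∑ γ ∈ Z, ∑ δ ∈ Z, a γ * a δ *
      ∫ t, W t * Real.exp (-(κ * ((t - γ) ^ 2 + (t - δ) ^ 2))) := by
  unfold En
  have h1 : ∀ t, W t * KK Z a κ t ^ 2 = ∑ γ ∈ Z, ∑ δ ∈ Z, a γ * a δ *
      (W t * Real.exp (-(κ * ((t - γ) ^ 2 + (t - δ) ^ 2)))) := by
    intro t
    rw [KK_sq, Finset.mul_sum]
    refine Finset.sum_congr rfl fun γ _ => ?_
    rw [Finset.mul_sum]
    refine Finset.sum_congr rfl fun δ _ => ?_
    ring
  simp_rw [h1]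
  rw [integral_finsetSum _ fun γ _ => integrable_finsetSum _ fun δ _ =>
    (pair_int hW hc γ δ hκ).const_mul _]
  refine Finset.sum_congr rfl fun γ _ => ?_
  rw [integral_finsetSum _ fun δ _ => (pair_int hW hc γ δ hκ).const_mul _]
  refine Finset.sum_congr rfl fun δ _ => ?_
  rw [integral_const_mul]

theorem En_deriv {B : ℝ} {W : ℝ → ℝ} (h : IsW B W) (Z : Finset ℝ) (a : ℝ → ℝ) {κ : ℝ}
    (hκ : 0 < κ) : HasDerivAt (fun κ => En W Z a κ)
      (-(1 / (2 * κ ^ 2)) * ∫ t, W t * KK Z a κ t * (KK2 Z a κ t + 2 * κ * KK Z a κ t)) κ := by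
  have hW := h.eg
  have hc := h.cont
  have h1 : HasDerivAt (fun κ => ∑ γ ∈ Z, ∑ δ ∈ Z, a γ * a δ *
      ∫ t, W t * Real.exp (-(κ * ((t - γ) ^ 2 + (t - δ) ^ 2))))
      (∑ γ ∈ Z, ∑ δ ∈ Z, a γ * a δ * (∫ t, -(W t * ((t - γ) ^ 2 + (t - δ) ^ 2) *
        Real.exp (-(κ * ((t - γ) ^ 2 + (t - δ) ^ 2)))))) κ :=
    HasDerivAt.fun_sum fun γ _ => HasDerivAt.fun_sum fun δ _ =>
      (pair_deriv hW hc (fun t => (h.pos t).le) γ δ hκ).2.const_mul _
  have h2 : (fun κ => En W Z a κ) =ᶠ[𝓝 κ] (fun κ => ∑ γ ∈ Z, ∑ δ ∈ Z, a γ * a δ *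
      ∫ t, W t * Real.exp (-(κ * ((t - γ) ^ 2 + (t - δ) ^ 2)))) := by
    filter_upwards [Ioi_mem_nhds hκ] with κ' hκ'
    exact En_eq hW hc Z a hκ'
  refine (h1.congr_of_eventuallyEq h2).congr_deriv ?_
  have h3 : ∀ γ δ, Integrable (fun t => -(W t * ((t - γ) ^ 2 + (t - δ) ^ 2) *
        Real.exp (-(κ * ((t - γ) ^ 2 + (t - δ) ^ 2))))) := fun γ δ =>
    (pair_deriv hW hc (fun t => (h.pos t).le) γ δ hκ).1.neg
  have h4 : ∑ γ ∈ Z, ∑ δ ∈ Z, a γ * a δ * (∫ t, -(W t * ((t - γ) ^ 2 + (t - δ) ^ 2) *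
        Real.exp (-(κ * ((t - γ) ^ 2 + (t - δ) ^ 2))))) =
      ∫ t, ∑ γ ∈ Z, ∑ δ ∈ Z, a γ * a δ * (-(W t * ((t - γ) ^ 2 + (t - δ) ^ 2) *
        Real.exp (-(κ * ((t - γ) ^ 2 + (t - δ) ^ 2))))) := by
    rw [integral_finsetSum _ fun γ _ => integrable_finsetSum _ fun δ _ => (h3 γ δ).const_mul _]
    refine Finset.sum_congr rfl fun γ _ => ?_
    rw [integral_finsetSum _ fun δ _ => (h3 γ δ).const_mul _]
    refine Finset.sum_congr rfl fun δ _ => ?_
    rw [integral_const_mul]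
  rw [h4, ← integral_const_mul]
  refine integral_congr_ae (Eventually.of_forall fun t => ?_)
  beta_reduce
  have h5 : KK2 Z a κ t + 2 * κ * KK Z a κ t =
      4 * κ ^ 2 * ∑ γ ∈ Z, a γ * ((t - γ) ^ 2 * Real.exp (-(κ * (t - γ) ^ 2))) := by
    unfold KK2 KK
    rw [Finset.mul_sum, Finset.mul_sum, ← Finset.sum_add_distrib]
    refine Finset.sum_congr rfl fun γ _ => ?_
    ring
  have h6 : ∑ γ ∈ Z, ∑ δ ∈ Z, a γ * a δ * (-(W t * ((t - γ) ^ 2 + (t - δ) ^ 2) *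
        Real.exp (-(κ * ((t - γ) ^ 2 + (t - δ) ^ 2))))) =
      -(2 * W t) * (KK Z a κ t * ∑ γ ∈ Z, a γ * ((t - γ) ^ 2 * Real.exp (-(κ * (t - γ) ^ 2)))) := by
    have e1 : ∀ γ δ, a γ * a δ * (-(W t * ((t - γ) ^ 2 + (t - δ) ^ 2) *
        Real.exp (-(κ * ((t - γ) ^ 2 + (t - δ) ^ 2))))) =
        -(W t) * ((a γ * ((t - γ) ^ 2 * Real.exp (-(κ * (t - γ) ^ 2)))) *
          (a δ * Real.exp (-(κ * (t - δ) ^ 2)))) +
        -(W t) * ((a γ * Real.exp (-(κ * (t - γ) ^ 2))) *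
          (a δ * ((t - δ) ^ 2 * Real.exp (-(κ * (t - δ) ^ 2))))) := by
      intro γ δ
      have : Real.exp (-(κ * ((t - γ) ^ 2 + (t - δ) ^ 2))) =
          Real.exp (-(κ * (t - γ) ^ 2)) * Real.exp (-(κ * (t - δ) ^ 2)) := by
        rw [← Real.exp_add]; ring_nf
      rw [this]
      ring
    have e2 : ∀ p q : ℝ → ℝ, ∑ γ ∈ Z, ∑ δ ∈ Z, -(W t) * (p γ * q δ) =
        -(W t) * ((∑ γ ∈ Z, p γ) * ∑ γ ∈ Z, q γ) := by
      intro p q
      rw [Finset.sum_mul_sum, Finset.mul_sum]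
      refine Finset.sum_congr rfl fun γ _ => ?_
      rw [Finset.mul_sum]
    simp_rw [e1, Finset.sum_add_distrib]
    rw [e2 (fun γ => a γ * ((t - γ) ^ 2 * Real.exp (-(κ * (t - γ) ^ 2))))
      (fun γ => a γ * Real.exp (-(κ * (t - γ) ^ 2))),
      e2 (fun γ => a γ * Real.exp (-(κ * (t - γ) ^ 2)))
      (fun γ => a γ * ((t - γ) ^ 2 * Real.exp (-(κ * (t - γ) ^ 2))))]
    unfold KK
    ring
  rw [h5, h6]
  have : κ ≠ 0 := hκ.ne'
  generalize (∑ γ ∈ Z, a γ * ((t - γ) ^ 2 * Real.exp (-(κ * (t - γ) ^ 2)))) = X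
  generalize KK Z a κ t = Y
  field_simp
  ring

/-- the differential inequality -/
theorem En_ineq {B : ℝ} {W : ℝ → ℝ} (h : IsW B W) (Z : Finset ℝ) {β : ℝ} (hβ : 0 ≤ β) {κ : ℝ}
    (hκ : 0 < κ) : 2 * ∫ t, W t * KK Z (ca Z β) κ t * (KK2 Z (ca Z β) κ t +
      2 * κ * KK Z (ca Z β) κ t) ≤ (2 * κ + B / 2) * En W Z (ca Z β) κ := by
  have hW := h.eg
  have hc := h.cont
  have hpos := h.pos
  obtain ⟨hB, W1, W2, h1, h2, h3, h4⟩ := h
  set a := ca Z β with ha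
  have cW1 : Continuous W1 := continuous_iff_continuousAt.2 fun t => (h2 t).continuousAt
  have gW1 : EG W1 := by
    obtain ⟨A, C, hC, hA⟩ := hW
    refine ⟨B * A, C, hC, fun t => (h4 t).2.1.trans ?_⟩
    rw [mul_assoc]
    exact mul_le_mul_of_nonneg_left ((le_abs_self _).trans (hA t)) hB
  have gW2 : EG W2 := by
    obtain ⟨A, C, hC, hA⟩ := hW
    refine ⟨B * A, C, hC, fun t => (h4 t).2.2.trans ?_⟩
    rw [mul_assoc]
    exact mul_le_mul_of_nonneg_left ((le_abs_self _).trans (hA t)) hB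
  have c0 := KK_cont Z a κ
  have c1 := KK1_cont Z a κ
  have c2 := KK2_cont Z a κ
  have g0 := EG.KK Z a hκ.le
  have g1 := EG.KK1 Z a hκ.le
  have g2 := EG.KK2 Z a hκ.le
  -- the exact derivative
  set F : ℝ → ℝ := fun t => W t * KK Z a κ t * KK1 Z a κ t - (1 / 2) * (W1 t * KK Z a κ t ^ 2)
    with hF
  set F' : ℝ → ℝ := fun t => W t * KK1 Z a κ t ^ 2 + W t * KK2 Z a κ t * KK Z a κ t -
    (1 / 2) * (W2 t * KK Z a κ t ^ 2) with hF'
  have hFd : ∀ t, HasDerivAt F (F' t) t := by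
    intro t
    have d0 := hasDerivAt_KK Z a κ t
    have d1 := hasDerivAt_KK1 Z a κ t
    have e1 := ((h1 t).mul d0).mul d1
    have e2 := (((h2 t).mul (d0.pow 2)).const_mul (1 / 2 : ℝ))
    have e3 := e1.sub e2
    refine e3.congr_deriv ?_
    simp only [hF', Pi.mul_apply, Pi.pow_apply]
    push_cast
    ring
  have i1 : Integrable (fun t => W t * KK1 Z a κ t * KK1 Z a κ t) :=
    KK1_int Z a hκ (hW.mul g1) (by fun_prop)
  have i2 : Integrable (fun t => W t * KK2 Z a κ t * KK Z a κ t) :=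
    KK_int Z a hκ (hW.mul g2) (by fun_prop)
  have i3 : Integrable (fun t => W2 t * KK Z a κ t * KK Z a κ t) :=
    KK_int Z a hκ (gW2.mul g0) (by fun_prop)
  have i4 : Integrable (fun t => W t * KK Z a κ t * KK1 Z a κ t) :=
    KK1_int Z a hκ (hW.mul g0) (by fun_prop)
  have i5 : Integrable (fun t => W1 t * KK Z a κ t * KK Z a κ t) :=
    KK_int Z a hκ (gW1.mul g0) (by fun_prop)
  have i6 : Integrable (fun t => W t * KK Z a κ t * KK Z a κ t) :=
    KK_int Z a hκ (hW.mul g0) (by fun_prop)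
  have iF' : Integrable F' := by
    have := (i1.add i2).sub (i3.const_mul (1 / 2))
    refine this.congr (Eventually.of_forall fun t => ?_)
    simp only [hF', Pi.add_apply, Pi.sub_apply]
    ring
  have iF : Integrable F := by
    have := i4.sub (i5.const_mul (1 / 2))
    refine this.congr (Eventually.of_forall fun t => ?_)
    simp only [hF, Pi.sub_apply]
    ring
  have hint0 : ∫ t, F' t = 0 := integral_eq_zero_of_hasDerivAt_of_integrable hFd iF' iF
  have hEn : En W Z a κ = ∫ t, W t * KK Z a κ t * KK Z a κ t := by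
    unfold En
    refine integral_congr_ae (Eventually.of_forall fun t => ?_)
    simp only
    ring
  have hmain : 2 * ∫ t, W t * KK Z a κ t * (KK2 Z a κ t + 2 * κ * KK Z a κ t) ≤
      ∫ t, (F' t + (2 * κ + B / 2) * (W t * KK Z a κ t * KK Z a κ t)) := by
    rw [← integral_const_mul]
    refine integral_mono ?_ (iF'.add (i6.const_mul _)) fun t => ?_
    · have := (i2.add (i6.const_mul (2 * κ))).const_mul 2
      refine this.congr (Eventually.of_forall fun t => ?_)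
      simp only [Pi.add_apply]
      ring
    · simp only [hF']
      have hL := laguerre_gauss Z hκ hβ t
      rw [← ha] at hL
      have hw := hpos t
      have hw2 := (h4 t).2.2
      have e1 : W t * (KK Z a κ t * KK2 Z a κ t) ≤ W t * (KK1 Z a κ t ^ 2 - 2 * κ * KK Z a κ t ^ 2) :=
        mul_le_mul_of_nonneg_left hL hw.le
      have e2 : W2 t * KK Z a κ t ^ 2 ≤ B * W t * KK Z a κ t ^ 2 :=
        mul_le_mul_of_nonneg_right ((le_abs_self _).trans hw2) (sq_nonneg _)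
      nlinarith
  rw [integral_add iF' (i6.const_mul _), hint0, zero_add, integral_const_mul, ← hEn] at hmain
  exact hmain

end Pool.Agent.J6H39.ML
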