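import Pool.Agent.H370R2.Digamma
import Pool.Agent.J6H39.ML.Heat

/-! Project ML: the archimedean factor `h(s) = (s-1)/2 · π^{-s/2} Γ(s/2)` on the critical line. -/

set_option autoImplicit false

open Complex Filter Topology Set MeasureTheory H370.DG

namespace Pool.Agent.J6H39.ML

/-- the point `1/2 + i t` -/
noncomputable def pt (t : ℝ) : ℂ := 1 / 2 + I * t

/-- `h(s) = (s-1)/2 · π^{-s/2} Γ(s/2)` -/
noncomputable def hf (s : ℂ) : ℂ := (s - 1) / 2 * Gammaℝ s

/-- `h` on the critical line -/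
noncomputable def ht (t : ℝ) : ℂ := hf (pt t)

/-- the derivative of the digamma function -/
noncomputable def psi1 (z : ℂ) : ℂ := 1 / z ^ 2 + 1 / (z + 1) ^ 2 + ∑' n : ℕ, 1 / (z + (n + 2)) ^ 2

/-- the digamma function on the right half plane -/
noncomputable def psi (z : ℂ) : ℂ := -(1 / z) - 1 / (z + 1) + ∑' n, gd n z

lemma norm_term_le {z : ℂ} (hz : 0 < z.re) (n : ℕ) :
    ‖1 / (z + ((n : ℂ) + 2)) ^ 2‖ ≤ 1 / ((n : ℝ) + 1) ^ 2 := by
  have hn : (0 : ℝ) ≤ n := Nat.cast_nonneg n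
  rw [norm_div, norm_one, norm_pow]
  have h1 : (n : ℝ) + 1 ≤ ‖z + ((n : ℂ) + 2)‖ := by
    refine le_trans ?_ (re_le_norm _)
    simp only [add_re, natCast_re, re_ofNat]
    linarith
  gcongr

lemma hasDerivAt_gd (n : ℕ) {s : ℂ} (hs : 0 < s.re) :
    HasDerivAt (gd n) (1 / (s + (n + 2)) ^ 2) s := by
  have hne : s + ((n : ℂ) + 2) ≠ 0 := by
    intro h
    have := congrArg re h
    simp only [add_re, natCast_re, re_ofNat, zero_re] at this
    have hn : (0 : ℝ) ≤ n := Nat.cast_nonneg n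
    linarith
  have h1 : HasDerivAt (fun z : ℂ => z + ((n : ℂ) + 2)) 1 s := (hasDerivAt_id s).add_const _
  have h2 := h1.inv hne
  have h3 : HasDerivAt (fun z : ℂ => (Real.log ((n + 2 : ℝ) / (n + 1)) : ℂ) -
      (z + ((n : ℂ) + 2))⁻¹) (-(-1 / (s + ((n : ℂ) + 2)) ^ 2)) s := by
    have := h2.const_sub (Real.log ((n + 2 : ℝ) / (n + 1)) : ℂ)
    exact this
  refine (h3.congr_of_eventuallyEq ?_).congr_deriv (by ring)
  refine Eventually.of_forall fun z => ?_
  unfold gd
  rw [one_div]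

lemma hasDerivAt_psi {s : ℂ} (hs : 0 < s.re) : HasDerivAt psi (psi1 s) s := by
  have hs0 : s ≠ 0 := by intro h; rw [h] at hs; simp at hs
  have hs1 : s + 1 ≠ 0 := by
    intro h
    have := congrArg re h
    simp at this
    linarith
  have h1 : HasDerivAt (fun z => ∑' n, gd n z) (∑' n : ℕ, 1 / (s + (n + 2)) ^ 2) s := by
    refine hasDerivAt_tsum_of_isPreconnected (g := gd) (g' := fun n z => 1 / (z + (n + 2)) ^ 2)
      summable_inv_sq (isOpen_lt continuous_const continuous_re)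
      (convex_halfSpace_re_gt 0).isPreconnected
      (fun n y hy => hasDerivAt_gd n hy) (fun n y hy => norm_term_le hy n)
      (y₀ := s) hs (summable_gd (by linarith)) hs
  have h2 : HasDerivAt (fun z : ℂ => z⁻¹) (-(s ^ 2)⁻¹) s := hasDerivAt_inv hs0
  have h3 : HasDerivAt (fun z : ℂ => (z + 1)⁻¹) (-1 / (s + 1) ^ 2) s :=
    ((hasDerivAt_id s).add_const 1).inv hs1
  have h4 := ((h2.neg).sub h3).add h1
  unfold psi psi1
  refine (h4.congr_of_eventuallyEq ?_).congr_deriv ?_
  · refine Eventually.of_forall fun z => ?_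
    simp only [one_div, Pi.add_apply, Pi.sub_apply, Pi.neg_apply]
  · field_simp
    ring

lemma hasDerivAt_Gamma {s : ℂ} (hs : 0 < s.re) : HasDerivAt Gamma (Gamma s * psi s) s := by
  have h1 : HasDerivAt (fun z => cexp (lG z)) (cexp (lG s) * psi s) s := (hasDerivAt_lG hs).cexp
  have h2 : Gamma =ᶠ[𝓝 s] fun z => cexp (lG z) := by
    have : {z : ℂ | 0 < z.re} ∈ 𝓝 s := (isOpen_lt continuous_const continuous_re).mem_nhds hs
    filter_upwards [this] with z hz
    exact (exp_lG hz).symm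
  rw [exp_lG hs] at h1
  exact h1.congr_of_eventuallyEq h2

/-- the logarithmic derivative of `h` -/
noncomputable def lh (s : ℂ) : ℂ := 1 / (s - 1) - Real.log Real.pi / 2 + psi (s / 2) / 2

lemma hasDerivAt_hf {s : ℂ} (hs : 0 < s.re) (hs1 : s ≠ 1) : HasDerivAt hf (hf s * lh s) s := by
  have hre : 0 < (s / 2).re := by simp; linarith
  have hs1' : s - 1 ≠ 0 := sub_ne_zero.2 hs1
  have h1 : HasDerivAt (fun z : ℂ => Gamma (z / 2)) (Gamma (s / 2) * psi (s / 2) * (1 / 2)) s :=
    (hasDerivAt_Gamma hre).comp s ((hasDerivAt_id s).div_const 2)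
  have hpi : (Real.pi : ℂ) ≠ 0 := by exact_mod_cast Real.pi_ne_zero
  have h2 : HasDerivAt (fun z : ℂ => (Real.pi : ℂ) ^ (-z / 2))
      ((Real.pi : ℂ) ^ (-s / 2) * log (Real.pi : ℂ) * (-1 / 2)) s := by
    have h3 : HasDerivAt (fun z : ℂ => -z / 2) (-1 / 2) s := (hasDerivAt_id s).neg.div_const 2
    exact h3.const_cpow (Or.inl hpi)
  have h4 := (((hasDerivAt_id s).sub_const 1).div_const 2).mul (h2.mul h1)
  have h5 : (fun z => hf z) = fun z => (z - 1) / 2 * ((Real.pi : ℂ) ^ (-z / 2) * Gamma (z / 2)) := by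
    funext z
    unfold hf Gammaℝ
    rfl
  have h6 : HasDerivAt (fun z => hf z) (hf s * lh s) s := by
    rw [h5]
    refine h4.congr_deriv ?_
    unfold hf Gammaℝ lh
    rw [← Complex.ofReal_log Real.pi_pos.le]
    simp only [Pi.mul_apply, id]
    field_simp
    ring
  exact h6

lemma pt_re (t : ℝ) : (pt t).re = 1 / 2 := by
  unfold pt
  simp

lemma pt_im (t : ℝ) : (pt t).im = t := by
  unfold pt
  simp

lemma pt_ne (t : ℝ) : pt t ≠ 1 := by
  intro h
  have := congrArg re h
  rw [pt_re] at this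
  norm_num at this

/-- the logarithmic derivative on the line -/
noncomputable def La (t : ℝ) : ℂ := lh (pt t)

/-- the derivative of `La` -/
noncomputable def La1 (t : ℝ) : ℂ := I * (-(1 / (pt t - 1) ^ 2) + psi1 (pt t / 2) / 4)

lemma hasDerivAt_pt (t : ℝ) : HasDerivAt pt I t := by
  unfold pt
  have h1 : HasDerivAt (fun t : ℝ => (t : ℂ)) 1 t := ofRealCLM.hasDerivAt
  have := (h1.const_mul I).const_add (1 / 2 : ℂ)
  simpa using this

lemma hasDerivAt_ht (t : ℝ) : HasDerivAt ht (I * La t * ht t) t := by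
  have h1 := (hasDerivAt_hf (s := pt t) (by rw [pt_re]; norm_num) (pt_ne t)).comp t
    (hasDerivAt_pt t)
  refine h1.congr_deriv ?_
  unfold La ht
  ring

lemma hasDerivAt_La (t : ℝ) : HasDerivAt La (La1 t) t := by
  have hne : pt t - 1 ≠ 0 := sub_ne_zero.2 (pt_ne t)
  have hre : 0 < (pt t / 2).re := by
    have := pt_re t
    simp only [div_ofNat_re, this]
    norm_num
  have h1 : HasDerivAt (fun z : ℂ => (z - 1)⁻¹) (-1 / (pt t - 1) ^ 2) (pt t) :=
    ((hasDerivAt_id _).sub_const 1).inv hne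
  have h2 : HasDerivAt (fun z : ℂ => psi (z / 2)) (psi1 (pt t / 2) * (1 / 2)) (pt t) :=
    HasDerivAt.comp (h := fun z : ℂ => z / 2) (pt t) (hasDerivAt_psi hre)
      ((hasDerivAt_id (pt t)).div_const 2)
  have h3 := (h1.sub_const (Real.log Real.pi / 2 : ℂ)).add (h2.div_const 2)
  have h4 : HasDerivAt lh (-(1 / (pt t - 1) ^ 2) + psi1 (pt t / 2) / 4) (pt t) := by
    have h5 : lh = fun z : ℂ => (z - 1)⁻¹ - (Real.log Real.pi / 2 : ℂ) + psi (z / 2) / 2 := by
      funext z
      unfold lh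
      rw [one_div]
    rw [h5]
    refine h3.congr_deriv ?_
    field_simp
    ring
  have h5 := h4.comp t (hasDerivAt_pt t)
  refine h5.congr_deriv ?_
  unfold La1
  ring

lemma ht_ne (t : ℝ) : ht t ≠ 0 := by
  unfold ht hf
  refine mul_ne_zero (div_ne_zero (sub_ne_zero.2 (pt_ne t)) (by norm_num)) ?_
  refine Gammaℝ_ne_zero_of_re_pos ?_
  rw [pt_re]
  norm_num

/-! ### bounds -/

lemma tele (y : ℝ) (hy : 0 ≤ y) : ∀ N : ℕ, ∑ n ∈ Finset.range N, 2 / ((n : ℝ) + 2 + y) ^ 2 ≤
    2 / (1 + y) - 2 / ((N : ℝ) + 1 + y) := by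
  intro N
  induction N with
  | zero => simp
  | succ N ih =>
    rw [Finset.sum_range_succ]
    push_cast
    have hN : (0 : ℝ) ≤ N := Nat.cast_nonneg N
    have h1 : 2 / ((N : ℝ) + 2 + y) ^ 2 ≤ 2 / ((N : ℝ) + 1 + y) - 2 / ((N : ℝ) + 1 + 1 + y) := by
      have e : 2 / ((N : ℝ) + 1 + y) - 2 / ((N : ℝ) + 1 + 1 + y) =
          2 / (((N : ℝ) + 1 + y) * ((N : ℝ) + 2 + y)) := by
        field_simp
        ring
      rw [e]
      gcongr
      nlinarith
    linarith

lemma tsum_bound (t : ℝ) : ‖∑' n : ℕ, 1 / (pt t / 2 + (n + 2)) ^ 2‖ ≤ 4 / (1 + |t|) := by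
  have ht := abs_nonneg t
  have hterm : ∀ n : ℕ, ‖1 / (pt t / 2 + ((n : ℂ) + 2)) ^ 2‖ ≤ 2 / ((n : ℝ) + 2 + |t| / 2) ^ 2 := by
    intro n
    have hn : (0 : ℝ) ≤ n := Nat.cast_nonneg n
    rw [norm_div, norm_one, norm_pow, div_le_div_iff₀ (by
      have : pt t / 2 + ((n : ℂ) + 2) ≠ 0 := by
        intro h
        have := congrArg re h
        simp only [add_re, natCast_re, re_ofNat, zero_re, div_ofNat_re, pt_re] at this
        linarith
      positivity) (by positivity)]
    have hre : (pt t / 2 + ((n : ℂ) + 2)).re = 1 / 4 + (n + 2) := by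
      simp only [add_re, natCast_re, re_ofNat, div_ofNat_re, pt_re]
      norm_num
    have him : (pt t / 2 + ((n : ℂ) + 2)).im = t / 2 := by
      simp only [add_im, natCast_im, im_ofNat, div_ofNat_im, pt_im]
      ring
    have hnorm : ‖pt t / 2 + ((n : ℂ) + 2)‖ ^ 2 = (1 / 4 + (n + 2)) ^ 2 + (t / 2) ^ 2 := by
      rw [← Complex.normSq_eq_norm_sq, Complex.normSq_apply, hre, him]
      ring
    rw [hnorm]
    have h2 : |t| ^ 2 = t ^ 2 := sq_abs t
    nlinarith [sq_nonneg ((n : ℝ) + 2 - |t| / 2)]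
  have hs : ∀ N : ℕ, ∑ n ∈ Finset.range N, 2 / ((n : ℝ) + 2 + |t| / 2) ^ 2 ≤ 4 / (1 + |t|) := by
    intro N
    refine (tele (|t| / 2) (by positivity) N).trans ?_
    have h1 : 0 ≤ 2 / ((N : ℝ) + 1 + |t| / 2) := by positivity
    have h2 : 2 / (1 + |t| / 2) ≤ 4 / (1 + |t|) := by
      rw [div_le_div_iff₀ (by positivity) (by positivity)]
      linarith
    linarith
  have hsum : Summable (fun n : ℕ => 2 / ((n : ℝ) + 2 + |t| / 2) ^ 2) :=
    summable_of_sum_range_le (fun n => by positivity) hs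
  refine (tsum_of_norm_bounded hsum.hasSum hterm).trans ?_
  exact hsum.tsum_le_of_sum_range_le hs

lemma inv_sq_bound {z : ℂ} {c t : ℝ} (hc : 0 < c) (hc1 : c ≤ 1 / 2) (h1 : c ≤ |z.re|)
    (h2 : |z.im| = |t| / 2 ∨ |z.im| = |t|) : ‖1 / z ^ 2‖ ≤ (8 / c ^ 2) / (1 + |t|) := by
  have ht := abs_nonneg t
  have hz : z ≠ 0 := by
    intro h
    rw [h] at h1
    simp at h1
    linarith
  have hn : 0 < ‖z‖ := norm_pos_iff.2 hz
  have hnorm : c ^ 2 + (|t| / 2) ^ 2 ≤ ‖z‖ ^ 2 := by
    rw [← Complex.normSq_eq_norm_sq, Complex.normSq_apply]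
    have e1 : c ^ 2 ≤ z.re * z.re := by
      rw [← abs_mul_abs_self z.re, ← sq]
      exact pow_le_pow_left₀ hc.le h1 2
    have e2 : (|t| / 2) ^ 2 ≤ z.im * z.im := by
      rw [← abs_mul_abs_self z.im, ← sq]
      refine pow_le_pow_left₀ (by positivity) ?_ 2
      rcases h2 with h | h
      · rw [h]
      · rw [h]; linarith
    linarith
  rw [norm_div, norm_one, norm_pow, div_le_div_iff₀ (by positivity) (by positivity), one_mul]
  have h3 : 1 + |t| ≤ 8 / c ^ 2 * (c ^ 2 + (|t| / 2) ^ 2) := by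
    have e1 : 8 / c ^ 2 * (c ^ 2 + (|t| / 2) ^ 2) = 8 + 2 * |t| ^ 2 / c ^ 2 := by
      field_simp
      ring
    rw [e1]
    have e2 : 2 * |t| ^ 2 ≤ 2 * |t| ^ 2 / c ^ 2 := by
      rw [le_div_iff₀ (by positivity)]
      have : c ^ 2 ≤ 1 := by nlinarith
      nlinarith [sq_nonneg (|t|)]
    nlinarith [sq_nonneg (|t| - 1)]
  calc 1 + |t| ≤ 8 / c ^ 2 * (c ^ 2 + (|t| / 2) ^ 2) := h3
    _ ≤ 8 / c ^ 2 * ‖z‖ ^ 2 := by gcongr

lemma La1_bound : ∃ C : ℝ, 1 ≤ C ∧ ∀ t : ℝ, ‖La1 t‖ ≤ C / (1 + |t|) := by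
  refine ⟨200, by norm_num, fun t => ?_⟩
  have ht := abs_nonneg t
  have hpos : 0 < 1 + |t| := by positivity
  unfold La1 psi1
  rw [norm_mul, norm_I, one_mul]
  have b1 : ‖1 / (pt t - 1) ^ 2‖ ≤ 32 / (1 + |t|) := by
    have := inv_sq_bound (z := pt t - 1) (c := 1 / 2) (t := t) (by norm_num) (by norm_num) (by
      rw [sub_re, pt_re, one_re]; norm_num) (Or.inr (by rw [sub_im, pt_im, one_im, sub_zero]))
    norm_num at this ⊢
    exact this
  have b2 : ‖1 / (pt t / 2) ^ 2‖ ≤ 128 / (1 + |t|) := by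
    have := inv_sq_bound (z := pt t / 2) (c := 1 / 4) (t := t) (by norm_num) (by norm_num) (by
      rw [div_ofNat_re, pt_re]; norm_num) (Or.inl (by
        rw [div_ofNat_im, pt_im, abs_div]; norm_num))
    norm_num at this ⊢
    exact this
  have b3 : ‖1 / (pt t / 2 + 1) ^ 2‖ ≤ 32 / (1 + |t|) := by
    have := inv_sq_bound (z := pt t / 2 + 1) (c := 1 / 2) (t := t) (by norm_num) (by norm_num) (by
      rw [add_re, div_ofNat_re, pt_re, one_re]; norm_num) (Or.inl (by
        rw [add_im, div_ofNat_im, pt_im, one_im, add_zero, abs_div]; norm_num))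
    norm_num at this ⊢
    exact this
  have b4 := tsum_bound t
  refine (norm_add_le _ _).trans ?_
  rw [norm_neg, norm_div (_ + _ + _) (4 : ℂ)]
  have h4 : ‖(4 : ℂ)‖ = 4 := by norm_num
  rw [h4]
  have b5 : ‖1 / (pt t / 2) ^ 2 + 1 / (pt t / 2 + 1) ^ 2 + ∑' n : ℕ, 1 / (pt t / 2 + (n + 2)) ^ 2‖ ≤
      128 / (1 + |t|) + 32 / (1 + |t|) + 4 / (1 + |t|) :=
    (norm_add_le _ _).trans (add_le_add ((norm_add_le _ _).trans (add_le_add b2 b3)) b4)
  calc ‖1 / (pt t - 1) ^ 2‖ + ‖1 / (pt t / 2) ^ 2 + 1 / (pt t / 2 + 1) ^ 2 +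
        ∑' n : ℕ, 1 / (pt t / 2 + (n + 2)) ^ 2‖ / 4
      ≤ 32 / (1 + |t|) + (128 / (1 + |t|) + 32 / (1 + |t|) + 4 / (1 + |t|)) / 4 := by
        gcongr
    _ ≤ 200 / (1 + |t|) := by
        rw [← add_div, ← add_div, div_div, ← sub_nonneg]
        have : 200 / (1 + |t|) - (32 / (1 + |t|) + (128 + 32 + 4) / ((1 + |t|) * 4)) =
          127 / (1 + |t|) := by
          field_simp
          ring
        rw [this]
        positivity

lemma psi_eq {z : ℂ} (hz : 0 < z.re) :
    psi z = log (z + 2) - 1 / z - 1 / (z + 1) + ∑' n, er n z := by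
  unfold psi
  rw [tsum_gd hz]
  ring

/-- the sum of the inverse squares -/
noncomputable def Zz : ℝ := ∑' n : ℕ, 1 / ((n : ℝ) + 1) ^ 2

lemma Zz_nonneg : 0 ≤ Zz := tsum_nonneg fun n => by positivity

lemma psi_bounds (t : ℝ) : ‖psi (pt t / 2) - log (pt t / 2 + 2)‖ ≤ 5 + Zz := by
  have hre : (pt t / 2).re = 1 / 4 := by rw [div_ofNat_re, pt_re]; norm_num
  rw [psi_eq (by rw [hre]; norm_num)]
  have e : log (pt t / 2 + 2) - 1 / (pt t / 2) - 1 / (pt t / 2 + 1) + ∑' n, er n (pt t / 2) -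
      log (pt t / 2 + 2) = -(1 / (pt t / 2)) + -(1 / (pt t / 2 + 1)) + ∑' n, er n (pt t / 2) := by
    ring
  rw [e]
  have b1 : ‖-(1 / (pt t / 2))‖ ≤ 4 := by
    rw [norm_neg, norm_div, norm_one]
    have : 1 / 4 ≤ ‖pt t / 2‖ := by
      refine le_trans ?_ (re_le_norm _)
      rw [hre]
    rw [div_le_iff₀ (by linarith)]
    linarith
  have b2 : ‖-(1 / (pt t / 2 + 1))‖ ≤ 1 := by
    rw [norm_neg, norm_div, norm_one]
    have : 1 ≤ ‖pt t / 2 + 1‖ := by
      refine le_trans ?_ (re_le_norm _)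
      rw [add_re, hre, one_re]
      norm_num
    rw [div_le_iff₀ (by linarith)]
    linarith
  have b3 : ‖∑' n, er n (pt t / 2)‖ ≤ Zz := norm_tsum_er (by rw [hre]; norm_num)
  calc _ ≤ ‖-(1 / (pt t / 2))‖ + ‖-(1 / (pt t / 2 + 1))‖ + ‖∑' n, er n (pt t / 2)‖ :=
        norm_add₃_le
    _ ≤ 4 + 1 + Zz := by gcongr
    _ = _ := by ring

/-- bounds for `La` -/
lemma La_bound : ∃ C : ℝ, 1 ≤ C ∧ ∀ t : ℝ, |(La t).im| ≤ C ∧
    ‖La t‖ ≤ C + Real.log (4 + t ^ 2) := by
  have hZ := Zz_nonneg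
  have hpi := Real.pi_pos
  have hlp : 0 ≤ Real.log Real.pi := Real.log_nonneg (by linarith [Real.pi_gt_three])
  refine ⟨2 + Real.log Real.pi / 2 + (5 + Zz) + Real.pi, by linarith, fun t => ?_⟩
  have hpt : ‖1 / (pt t - 1)‖ ≤ 2 := by
    rw [norm_div, norm_one]
    have : 1 / 2 ≤ ‖pt t - 1‖ := by
      have h1 := abs_re_le_norm (pt t - 1)
      rw [sub_re, pt_re, one_re] at h1
      norm_num at h1
      linarith
    rw [div_le_iff₀ (by linarith)]
    linarith
  have hre : (pt t / 2 + 2).re = 9 / 4 := by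
    rw [add_re, div_ofNat_re, pt_re, re_ofNat]; norm_num
  have him : (pt t / 2 + 2).im = t / 2 := by
    rw [add_im, div_ofNat_im, pt_im, im_ofNat, add_zero]
  -- the decomposition
  obtain ⟨E, hE, hEb⟩ : ∃ E : ℂ, La t = E + log (pt t / 2 + 2) / 2 ∧
      ‖E‖ ≤ 2 + Real.log Real.pi / 2 + (5 + Zz) / 2 := by
    refine ⟨1 / (pt t - 1) - Real.log Real.pi / 2 + (psi (pt t / 2) - log (pt t / 2 + 2)) / 2,
      ?_, ?_⟩
    · unfold La lh
      ring
    · refine (norm_add_le _ _).trans (add_le_add ((norm_sub_le _ _).trans (add_le_add hpt ?_)) ?_)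
      · rw [norm_div, norm_real, Real.norm_eq_abs, abs_of_nonneg hlp]
        norm_num
      · rw [norm_div]
        have h2 : ‖(2 : ℂ)‖ = 2 := by norm_num
        rw [h2]
        gcongr
        exact psi_bounds t
  have hlog_im : |(log (pt t / 2 + 2)).im| ≤ Real.pi := by
    rw [log_im]
    exact abs_arg_le_pi _
  have hn1 : 1 ≤ ‖pt t / 2 + 2‖ := by
    refine le_trans ?_ (re_le_norm _)
    rw [hre]; norm_num
  have hn2 : ‖pt t / 2 + 2‖ ≤ 4 + t ^ 2 := by
    refine (norm_le_abs_re_add_abs_im _).trans ?_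
    rw [hre, him, abs_of_pos (by norm_num : (0 : ℝ) < 9 / 4), abs_div,
      abs_of_pos (by norm_num : (0 : ℝ) < 2), ← sq_abs t]
    nlinarith [sq_nonneg (|t| - 1)]
  have hlog_re : |(log (pt t / 2 + 2)).re| ≤ Real.log (4 + t ^ 2) := by
    rw [log_re, abs_of_nonneg (Real.log_nonneg hn1)]
    exact Real.log_le_log (by linarith) hn2
  have hL0 : 0 ≤ Real.log (4 + t ^ 2) := (abs_nonneg _).trans hlog_re
  constructor
  · rw [hE, add_im, div_ofNat_im]
    have h1 := abs_add_le E.im ((log (pt t / 2 + 2)).im / 2)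
    have h2 := abs_im_le_norm E
    have h3 : |(log (pt t / 2 + 2)).im / 2| ≤ Real.pi := by
      rw [abs_div, abs_of_pos (by norm_num : (0 : ℝ) < 2)]
      linarith
    linarith
  · rw [hE]
    refine (norm_add_le _ _).trans ?_
    rw [norm_div]
    have h2 : ‖(2 : ℂ)‖ = 2 := by norm_num
    rw [h2]
    have h3 := norm_le_abs_re_add_abs_im (log (pt t / 2 + 2))
    linarith

lemma La1_cont : Continuous La1 := by
  have hpt : Continuous pt := by unfold pt; fun_prop
  have h1 : Continuous (fun t : ℝ => ∑' n : ℕ, 1 / (pt t / 2 + (n + 2)) ^ 2) := by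
    refine continuous_tsum (fun n => ?_) summable_inv_sq (fun n t => ?_)
    · refine Continuous.div continuous_const (by fun_prop) fun t => ?_
      refine pow_ne_zero 2 fun h => ?_
      have := congrArg re h
      simp only [add_re, natCast_re, re_ofNat, zero_re, div_ofNat_re, pt_re] at this
      have hn : (0 : ℝ) ≤ n := Nat.cast_nonneg n
      linarith
    · refine norm_term_le ?_ n
      rw [div_ofNat_re, pt_re]; norm_num
  unfold La1 psi1
  refine Continuous.mul continuous_const (Continuous.add (Continuous.neg ?_)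
    (Continuous.div_const (Continuous.add (Continuous.add ?_ ?_) h1) _))
  · refine Continuous.div continuous_const (by fun_prop) fun t => ?_
    exact pow_ne_zero 2 (sub_ne_zero.2 (pt_ne t))
  · refine Continuous.div continuous_const (by fun_prop) fun t => ?_
    refine pow_ne_zero 2 fun h => ?_
    have := congrArg re h
    simp only [zero_re, div_ofNat_re, pt_re] at this
    norm_num at this
  · refine Continuous.div continuous_const (by fun_prop) fun t => ?_
    refine pow_ne_zero 2 fun h => ?_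
    have := congrArg re h
    simp only [add_re, one_re, zero_re, div_ofNat_re, pt_re] at this
    norm_num at this

/-- the weight `|h|²` is slowly varying -/
lemma isW_ht : ∃ B : ℝ, IsW B (fun t => ‖ht t‖ ^ 2) := by
  obtain ⟨C, hC1, hC⟩ := La1_bound
  obtain ⟨D, hD1, hD⟩ := La_bound
  have hnsq : ∀ t, ‖ht t‖ ^ 2 = (ht t).re ^ 2 + (ht t).im ^ 2 := by
    intro t
    rw [← Complex.normSq_eq_norm_sq, Complex.normSq_apply]
    ring
  have hd1 : ∀ t, HasDerivAt (fun t => ‖ht t‖ ^ 2) (-2 * (La t).im * ‖ht t‖ ^ 2) t := by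
    intro t
    have h0 := hasDerivAt_ht t
    have hr : HasDerivAt (fun t => (ht t).re) (I * La t * ht t).re t := by
      have := (reCLM.hasFDerivAt (x := ht t)).comp_hasDerivAt t h0
      exact this
    have hi : HasDerivAt (fun t => (ht t).im) (I * La t * ht t).im t := by
      have := (imCLM.hasFDerivAt (x := ht t)).comp_hasDerivAt t h0
      exact this
    have h2 := (hr.pow 2).add (hi.pow 2)
    have e : (fun t => ‖ht t‖ ^ 2) = fun t => (ht t).re ^ 2 + (ht t).im ^ 2 := funext hnsq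
    rw [e, hnsq]
    refine h2.congr_deriv ?_
    simp only [mul_re, mul_im, I_re, I_im]
    push_cast
    ring
  have hdim : ∀ t, HasDerivAt (fun t => (La t).im) (La1 t).im t := by
    intro t
    exact (imCLM.hasFDerivAt (x := La t)).comp_hasDerivAt t (hasDerivAt_La t)
  refine ⟨2 * C + 2 * D + 4 * D ^ 2, by positivity, fun t => -2 * (La t).im * ‖ht t‖ ^ 2,
    fun t => (-2 * (La1 t).im + 4 * (La t).im ^ 2) * ‖ht t‖ ^ 2, hd1, fun t => ?_, ?_,
    fun t => ?_⟩
  · have h1 := ((hdim t).const_mul (-2)).mul (hd1 t)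
    refine h1.congr_deriv ?_
    ring
  · have c1 : Continuous ht := continuous_iff_continuousAt.2 fun t => (hasDerivAt_ht t).continuousAt
    have c2 : Continuous La := continuous_iff_continuousAt.2 fun t => (hasDerivAt_La t).continuousAt
    have c3 := La1_cont
    have c4 : Continuous (fun t => (La1 t).im) := continuous_im.comp c3
    have c5 : Continuous (fun t => (La t).im) := continuous_im.comp c2
    fun_prop
  · have hp : 0 < ‖ht t‖ ^ 2 := by
      have := norm_pos_iff.2 (ht_ne t)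
      positivity
    have h1 : |(La t).im| ≤ D := (hD t).1
    have h2 : |(La1 t).im| ≤ C := by
      refine (abs_im_le_norm _).trans ((hC t).trans ?_)
      refine div_le_self (by linarith) ?_
      linarith [abs_nonneg t]
    refine ⟨hp, ?_, ?_⟩
    · rw [abs_mul, abs_of_pos hp]
      gcongr
      rw [abs_mul]
      norm_num
      nlinarith [sq_nonneg D]
    · rw [abs_mul, abs_of_pos hp]
      gcongr
      refine (abs_add_le _ _).trans ?_
      rw [abs_mul, abs_mul, abs_pow]
      norm_num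
      have : |(La t).im| ^ 2 ≤ D ^ 2 := by gcongr
      rw [sq_abs] at this
      nlinarith [sq_nonneg D]

/-- comparison of `h(1/2+iγ)` and `h(1/2+it)` -/
lemma ht_compare : ∃ C : ℝ, 1 ≤ C ∧ ∀ t g : ℝ,
    ‖ht g - ht t * cexp (I * (g - t) * La t)‖ ≤
      ‖ht g‖ * (C * (g - t) ^ 2 * (1 + |g - t|) / (1 + |t|) * Real.exp (C * (g - t) ^ 2)) := by
  obtain ⟨C, hC1, hC⟩ := La1_bound
  have hC0 : 0 ≤ C := by linarith
  refine ⟨C, hC1, fun t g => ?_⟩
  have cLa : Continuous La := continuous_iff_continuousAt.2 fun t => (hasDerivAt_La t).continuousAt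
  -- the difference of La
  have hdiff : ∀ y ∈ uIcc t g, ‖La y - La t‖ ≤ C * |g - t| * (1 + |g - t|) / (1 + |t|) ∧
      ‖La y - La t‖ ≤ C * |g - t| := by
    intro y hy
    have hyt : |y - t| ≤ |g - t| := abs_sub_left_of_mem_uIcc hy
    have hb : ∀ x ∈ uIcc t y, ‖La1 x‖ ≤ C * (1 + |g - t|) / (1 + |t|) ∧ ‖La1 x‖ ≤ C := by
      intro x hx
      have hxt : |x - t| ≤ |y - t| := abs_sub_left_of_mem_uIcc hx
      have h1 := hC x
      have h2 : |t| ≤ |x| + |x - t| := by
        have := abs_sub_abs_le_abs_sub t x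
        rw [abs_sub_comm t x] at this
        linarith
      have hx0 := abs_nonneg x
      have ht0 := abs_nonneg t
      have hg0 := abs_nonneg (g - t)
      constructor
      · refine h1.trans ?_
        rw [div_le_div_iff₀ (by positivity) (by positivity)]
        rw [mul_assoc]
        refine mul_le_mul_of_nonneg_left ?_ hC0
        nlinarith
      · exact h1.trans (div_le_self hC0 (by linarith))
    have hconv : Convex ℝ (uIcc t y) := convex_uIcc t y
    have m1 := hconv.norm_image_sub_le_of_norm_hasDerivWithin_le (f := La) (f' := La1)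
      (C := C * (1 + |g - t|) / (1 + |t|))
      (fun x _ => (hasDerivAt_La x).hasDerivWithinAt) (fun x hx => (hb x hx).1)
      left_mem_uIcc right_mem_uIcc
    have m2 := hconv.norm_image_sub_le_of_norm_hasDerivWithin_le (f := La) (f' := La1)
      (C := C)
      (fun x _ => (hasDerivAt_La x).hasDerivWithinAt) (fun x hx => (hb x hx).2)
      left_mem_uIcc right_mem_uIcc
    rw [Real.norm_eq_abs] at m1 m2
    have ht0 := abs_nonneg t
    have hg0 := abs_nonneg (g - t)
    constructor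
    · refine m1.trans ?_
      calc C * (1 + |g - t|) / (1 + |t|) * |y - t| ≤ C * (1 + |g - t|) / (1 + |t|) * |g - t| := by
            gcongr
        _ = _ := by ring
    · exact m2.trans (by gcongr)
  -- the exponent
  set R : ℂ := -(I * ∫ y in t..g, (La y - La t)) with hR
  have hR1 : ‖R‖ ≤ C * (g - t) ^ 2 * (1 + |g - t|) / (1 + |t|) := by
    rw [hR, norm_neg, norm_mul, norm_I, one_mul]
    refine (intervalIntegral.norm_integral_le_of_norm_le_const (fun y hy =>
      (hdiff y (uIoc_subset_uIcc hy)).1)).trans (le_of_eq ?_)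
    rw [← sq_abs (g - t)]
    ring
  have hR2 : ‖R‖ ≤ C * (g - t) ^ 2 := by
    rw [hR, norm_neg, norm_mul, norm_I, one_mul]
    refine (intervalIntegral.norm_integral_le_of_norm_le_const (fun y hy =>
      (hdiff y (uIoc_subset_uIcc hy)).2)).trans (le_of_eq ?_)
    rw [← sq_abs (g - t)]
    ring
  -- the exact formula
  have hexact : ht t * cexp (I * (g - t) * La t) = ht g * cexp R := by
    have hconst : ∀ y, ht y * cexp (-(I * ∫ u in t..y, La u)) = ht t := by
      have hder : ∀ y, HasDerivAt (fun y => ht y * cexp (-(I * ∫ u in t..y, La u))) 0 y := by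
        intro y
        have h1 : HasDerivAt (fun y => ∫ u in t..y, La u) (La y) y :=
          intervalIntegral.integral_hasDerivAt_right (cLa.intervalIntegrable _ _)
            (cLa.stronglyMeasurableAtFilter _ _) cLa.continuousAt
        have h2 := ((h1.const_mul I).neg).cexp
        have h3 := (hasDerivAt_ht y).mul h2
        refine h3.congr_deriv ?_
        ring
      intro y
      have := is_const_of_deriv_eq_zero (fun y => (hder y).differentiableAt)
        (fun y => (hder y).deriv) y t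
      rw [this]
      simp
    have h1 := hconst g
    have h2 : ∫ y in t..g, (La y - La t) = (∫ y in t..g, La y) - (g - t) * La t := by
      rw [intervalIntegral.integral_sub (cLa.intervalIntegrable _ _)
        (continuous_const.intervalIntegrable _ _), intervalIntegral.integral_const]
      simp
    rw [← h1, hR, h2, mul_assoc, ← Complex.exp_add]
    congr 2
    ring
  rw [hexact]
  have e1 : ht g - ht g * cexp R = -(ht g * (cexp R - 1)) := by ring
  rw [e1, norm_neg, norm_mul]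
  refine mul_le_mul_of_nonneg_left ?_ (norm_nonneg _)
  have h1 : ‖cexp R - 1‖ ≤ ‖R‖ * Real.exp ‖R‖ := by
    have h2 := Complex.norm_exp_sub_sum_le_norm_mul_exp R 1
    simpa using h2
  refine h1.trans ?_
  gcongr

end Pool.Agent.J6H39.ML
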