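import Pool.Agent.J6H39.ML.Lvl
import Pool.Agent.H388LH.ZG

/-! Project ML: Hadamard's product for Riemann's `ξ` under the Riemann Hypothesis and simplicity of
the zeros. -/

set_option autoImplicit false

open Complex Filter Topology Set Metric

namespace Pool.Agent.J6H39.ML

/-! ### growth -/

theorem norm_Gamma_le {z : ℂ} (hz : 0 < z.re) : ‖Complex.Gamma z‖ ≤ Real.Gamma z.re := by
  rw [Complex.Gamma_eq_integral hz, Real.Gamma_eq_integral hz]
  unfold Complex.GammaIntegral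
  refine (MeasureTheory.norm_integral_le_integral_norm _).trans (le_of_eq ?_)
  refine MeasureTheory.setIntegral_congr_fun measurableSet_Ioi (fun t ht => ?_)
  have ht' : (0 : ℝ) < t := ht
  simp only [norm_mul]
  rw [Complex.norm_cpow_eq_rpow_re_of_pos ht', Complex.norm_real, Real.norm_eq_abs,
    abs_of_pos (Real.exp_pos _)]
  simp

theorem Gamma_bound {x : ℝ} (hx : 1 / 4 ≤ x) :
    Real.Gamma x ≤ 16 / 5 * Real.exp (2 * ((x + 2) * Real.sqrt (x + 2))) := by
  have hx0 : 0 < x := by linarith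
  have h1 : Real.Gamma (x + 2) = (x + 1) * (x * Real.Gamma x) := by
    rw [show x + 2 = (x + 1) + 1 by ring, Real.Gamma_add_one (by linarith),
      Real.Gamma_add_one (by linarith)]
  set m : ℕ := ⌈x⌉₊ + 1 with hm
  have hm1 : x + 1 ≤ m := by
    rw [hm]; push_cast
    linarith [Nat.le_ceil x]
  have hm2 : (m : ℝ) ≤ x + 2 := by
    rw [hm]; push_cast
    linarith [Nat.ceil_lt_add_one hx0.le]
  have hmp : (0 : ℝ) < m := by linarith
  have h2 : Real.Gamma (x + 2) ≤ Real.Gamma (m + 1) :=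
    Real.Gamma_strictMonoOn_Ici.monotoneOn (by simp only [Set.mem_Ici]; linarith)
      (by simp only [Set.mem_Ici]; linarith) (by linarith)
  rw [Real.Gamma_nat_eq_factorial] at h2
  have hfac : (m.factorial : ℝ) ≤ (m : ℝ) ^ m := by exact_mod_cast Nat.factorial_le_pow m
  have h3 : ((m : ℝ) ^ m) = Real.exp (m * Real.log m) := by
    rw [Real.exp_nat_mul, Real.exp_log hmp]
  have hs : 0 < Real.sqrt (x + 2) := Real.sqrt_pos.2 (by linarith)
  have h4 : Real.log m ≤ 2 * Real.sqrt (x + 2) := by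
    have e1 : Real.log m ≤ Real.log (x + 2) := Real.log_le_log hmp hm2
    have e2 : Real.log (x + 2) = 2 * Real.log (Real.sqrt (x + 2)) := by
      rw [Real.log_sqrt (by linarith)]; ring
    have e3 := Real.log_le_sub_one_of_pos hs
    linarith
  have h5 : (m : ℝ) * Real.log m ≤ 2 * ((x + 2) * Real.sqrt (x + 2)) := by
    have hl : 0 ≤ Real.log m := Real.log_nonneg (by linarith)
    calc (m : ℝ) * Real.log m ≤ (x + 2) * (2 * Real.sqrt (x + 2)) := by gcongr
      _ = _ := by ring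
  have h6 : Real.Gamma (x + 2) ≤ Real.exp (2 * ((x + 2) * Real.sqrt (x + 2))) :=
    h2.trans (hfac.trans (h3.le.trans (Real.exp_le_exp.2 h5)))
  have hG := Real.Gamma_pos_of_pos hx0
  have h7 : 5 / 16 * Real.Gamma x ≤ Real.Gamma (x + 2) := by
    rw [h1]
    nlinarith [mul_pos hx0 hG]
  linarith

theorem zeta_mul_bound {s : ℂ} (hs : 1 / 2 ≤ s.re) (hs1 : s ≠ 1) :
    ‖(s - 1) * riemannZeta s‖ ≤ 4 * (1 + ‖s‖) ^ 2 := by
  have hs0 : 0 < s.re := by linarith
  have h1 := H388LH.fract_int_bound hs0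
  rw [H388LH.zeta_eq hs0 hs1]
  set J := ∫ u in Ioi (1 : ℝ), ((Int.fract u : ℝ) : ℂ) * (u : ℂ) ^ (-s - 1) with hJ
  have hne : s - 1 ≠ 0 := sub_ne_zero.2 hs1
  have e : (s - 1) * (1 + 1 / (s - 1) - s * J) = (s - 1) + 1 - s * (s - 1) * J := by
    field_simp
  rw [e]
  have hJ2 : ‖J‖ ≤ 2 := by
    refine h1.trans ?_
    rw [div_le_iff₀ hs0]
    linarith
  have hn : ‖s - 1‖ ≤ 1 + ‖s‖ := by
    have := norm_sub_le s 1
    rw [norm_one] at this
    linarith
  have hs' := norm_nonneg s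
  calc ‖(s - 1) + 1 - s * (s - 1) * J‖ ≤ ‖s - 1‖ + ‖(1 : ℂ)‖ + ‖s * (s - 1) * J‖ :=
        (norm_sub_le _ _).trans (add_le_add_left (norm_add_le _ _) _)
    _ ≤ (1 + ‖s‖) + 1 + ‖s‖ * (1 + ‖s‖) * 2 := by
        rw [norm_one, norm_mul, norm_mul]
        gcongr
    _ ≤ _ := by nlinarith

/-- the growth function -/
noncomputable def gy (y : ℝ) : ℝ := y * Real.sqrt y

theorem gy_mono {a b : ℝ} (ha : 0 ≤ a) (hab : a ≤ b) : gy a ≤ gy b := by
  unfold gy
  have := Real.sqrt_le_sqrt hab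
  have h2 := Real.sqrt_nonneg a
  have h3 := Real.sqrt_nonneg b
  nlinarith

theorem gy_ge {y : ℝ} (hy : 1 ≤ y) : y ≤ gy y := by
  unfold gy
  have : 1 ≤ Real.sqrt y := Real.one_le_sqrt.2 hy
  nlinarith

theorem xi_one_sub (s : ℂ) : xi (1 - s) = xi s := by
  unfold xi
  rw [completedRiemannZeta₀_one_sub]
  ring

theorem xi_one : xi 1 = 1 / 2 := by
  unfold xi
  ring

theorem xi_growth (s : ℂ) : ‖xi s‖ ≤ Real.exp (13 * gy (2 + ‖s‖)) := by
  have main : ∀ s : ℂ, 1 / 2 ≤ s.re → ‖xi s‖ ≤ Real.exp (13 * gy (1 + ‖s‖)) := by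
    intro s hs
    have hn := norm_nonneg s
    set y := 1 + ‖s‖ with hy
    have hy1 : 1 ≤ y := by linarith
    have hg := gy_ge hy1
    by_cases hs1 : s = 1
    · rw [hs1, xi_one]
      have : ‖(1 / 2 : ℂ)‖ = 1 / 2 := by norm_num
      rw [this]
      have := Real.one_le_exp (show 0 ≤ 13 * gy y by linarith)
      linarith
    · have hs0 : s ≠ 0 := by
        intro h
        rw [h] at hs
        norm_num at hs
      have hre : 0 < s.re := by linarith
      have e1 : xi s = s / 2 * Gammaℝ s * ((s - 1) * riemannZeta s) := by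
        rw [xi_eq hs0 hs1 hre]
        unfold hf
        ring
      have hG : ‖Gammaℝ s‖ ≤ 16 / 5 * Real.exp (8 * gy y) := by
        unfold Gammaℝ
        rw [norm_mul, Complex.norm_cpow_eq_rpow_re_of_pos Real.pi_pos]
        have h1 : Real.pi ^ (-s / 2).re ≤ 1 := by
          refine Real.rpow_le_one_of_one_le_of_nonpos (by linarith [Real.pi_gt_three]) ?_
          have : (-s / 2).re = -s.re / 2 := by simp
          rw [this]
          linarith
        have h2 : (s / 2).re = s.re / 2 := by simp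
        have h3 := norm_Gamma_le (z := s / 2) (by rw [h2]; linarith)
        rw [h2] at h3
        have h4 := Gamma_bound (x := s.re / 2) (by linarith)
        have h5 : s.re ≤ ‖s‖ := re_le_norm s
        have h6 : 2 * ((s.re / 2 + 2) * Real.sqrt (s.re / 2 + 2)) ≤ 8 * gy y := by
          have e2 : s.re / 2 + 2 ≤ 2 * y := by linarith
          have e3 : Real.sqrt (s.re / 2 + 2) ≤ 2 * Real.sqrt y := by
            calc Real.sqrt (s.re / 2 + 2) ≤ Real.sqrt (4 * y) := Real.sqrt_le_sqrt (by linarith)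
              _ = 2 * Real.sqrt y := by
                  rw [Real.sqrt_mul (by norm_num), show (4 : ℝ) = 2 ^ 2 by norm_num,
                    Real.sqrt_sq (by norm_num)]
          have e4 := Real.sqrt_nonneg (s.re / 2 + 2)
          unfold gy
          calc 2 * ((s.re / 2 + 2) * Real.sqrt (s.re / 2 + 2)) ≤ 2 * ((2 * y) * (2 * Real.sqrt y)) := by
                gcongr
            _ = _ := by ring
        have h7 : Real.exp (2 * ((s.re / 2 + 2) * Real.sqrt (s.re / 2 + 2))) ≤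
            Real.exp (8 * gy y) := Real.exp_le_exp.2 h6
        calc Real.pi ^ (-s / 2).re * ‖Gamma (s / 2)‖ ≤ 1 * Real.Gamma (s.re / 2) := by
              gcongr
          _ ≤ _ := by rw [one_mul]; exact h4.trans (by gcongr)
      have hz := zeta_mul_bound hs hs1
      rw [← hy] at hz
      rw [e1, norm_mul, norm_mul]
      have hs2 : ‖s / 2‖ ≤ y / 2 := by
        rw [norm_div]
        have : ‖(2 : ℂ)‖ = 2 := by norm_num
        rw [this]
        gcongr
        linarith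
      have hE : 0 < Real.exp (8 * gy y) := Real.exp_pos _
      calc ‖s / 2‖ * ‖Gammaℝ s‖ * ‖(s - 1) * riemannZeta s‖
          ≤ (y / 2) * (16 / 5 * Real.exp (8 * gy y)) * (4 * y ^ 2) := by gcongr
        _ = 32 / 5 * y ^ 3 * Real.exp (8 * gy y) := by ring
        _ ≤ Real.exp 2 * Real.exp (3 * gy y) * Real.exp (8 * gy y) := by
            have f1 : (32 / 5 : ℝ) ≤ Real.exp 2 := by
              have h6 := Real.exp_one_gt_d9
              have h7 : Real.exp 2 = Real.exp 1 * Real.exp 1 := by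
                rw [← Real.exp_add]; norm_num
              rw [h7]
              nlinarith
            have f2 : y ^ 3 ≤ Real.exp (3 * gy y) := by
              have e3 : Real.exp (3 * gy y) = Real.exp (gy y) ^ 3 := by
                rw [← Real.exp_nat_mul]; norm_num
              rw [e3]
              have := Real.add_one_le_exp (gy y)
              gcongr
              linarith
            gcongr
        _ = Real.exp (2 + 3 * gy y + 8 * gy y) := by
            rw [Real.exp_add, Real.exp_add]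
        _ ≤ Real.exp (13 * gy y) := by
            apply Real.exp_le_exp.2
            linarith
  rcases le_or_gt (1 / 2) s.re with h | h
  · refine (main s h).trans (Real.exp_le_exp.2 ?_)
    have := gy_mono (a := 1 + ‖s‖) (b := 2 + ‖s‖) (by positivity) (by linarith)
    linarith
  · have h1 := main (1 - s) (by rw [sub_re, one_re]; linarith)
    rw [xi_one_sub] at h1
    refine h1.trans (Real.exp_le_exp.2 ?_)
    have h2 : ‖1 - s‖ ≤ 1 + ‖s‖ := by
      have := norm_sub_le 1 s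
      rwa [norm_one] at this
    have := gy_mono (a := 1 + ‖1 - s‖) (b := 2 + ‖s‖) (by positivity) (by linarith)
    linarith

/-! ### the entire function `F` -/

/-- `ξ(1/2 + i z)` -/
noncomputable def Fx (z : ℂ) : ℂ := xi (1 / 2 + I * z)

theorem Fx_diff : Differentiable ℂ Fx := by
  unfold Fx
  have := xi_diff
  fun_prop

theorem Fx_even (z : ℂ) : Fx (-z) = Fx z := by
  unfold Fx
  rw [← xi_one_sub]
  congr 1
  ring

theorem Fx_growth (z : ℂ) : ‖Fx z‖ ≤ Real.exp (13 * gy (3 + ‖z‖)) := by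
  unfold Fx
  refine (xi_growth _).trans (Real.exp_le_exp.2 ?_)
  have h1 : ‖1 / 2 + I * z‖ ≤ 1 / 2 + ‖z‖ := by
    refine (norm_add_le _ _).trans ?_
    rw [norm_mul, norm_I, one_mul]
    have : ‖(1 / 2 : ℂ)‖ = 1 / 2 := by norm_num
    rw [this]
  have := gy_mono (a := 2 + ‖1 / 2 + I * z‖) (b := 3 + ‖z‖) (by positivity) (by linarith)
  linarith

theorem even_deriv {f : ℂ → ℂ} (hf : ∀ z, f (-z) = f z) : deriv f 0 = 0 := by
  have h1 : deriv (fun z => f (-z)) 0 = -deriv f (-0) := deriv_comp_neg f 0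
  have h2 : (fun z => f (-z)) = f := funext hf
  rw [h2, neg_zero] at h1
  have h3 : 2 * deriv f 0 = 0 := by linear_combination h1
  simpa using h3

theorem hasDerivAt_xi {γ : ℝ} (hγ : γ ∈ Od) :
    HasDerivAt xi (pt γ * ht γ * deriv riemannZeta (pt γ)) (pt γ) := by
  have hre : (0 : ℝ) < (pt γ).re := by rw [pt_re]; norm_num
  have hz : HasDerivAt riemannZeta (deriv riemannZeta (pt γ)) (pt γ) :=
    (differentiableAt_riemannZeta (pt_ne γ)).hasDerivAt
  have hh := hasDerivAt_hf hre (pt_ne γ)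
  have h2 := ((hasDerivAt_id (pt γ)).mul hh).mul hz
  have h3 : xi =ᶠ[𝓝 (pt γ)] fun s => id s * hf s * riemannZeta s := by
    have e1 : {z : ℂ | 0 < z.re} ∈ 𝓝 (pt γ) :=
      (isOpen_lt continuous_const continuous_re).mem_nhds hre
    have e2 : {z : ℂ | z ≠ 0} ∈ 𝓝 (pt γ) := isOpen_ne.mem_nhds (pt_ne0 γ)
    have e3 : {z : ℂ | z ≠ 1} ∈ 𝓝 (pt γ) := isOpen_ne.mem_nhds (pt_ne γ)
    filter_upwards [e1, e2, e3] with s h1 h2 h3
    exact xi_eq h2 h3 h1
  refine (h2.congr_of_eventuallyEq h3).congr_deriv ?_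
  have hz0 : riemannZeta (pt γ) = 0 := hγ
  rw [hz0, mul_zero, zero_add]
  rfl

theorem hasDerivAt_Fx {γ : ℝ} (hγ : γ ∈ Od) :
    HasDerivAt Fx (pt γ * ht γ * deriv riemannZeta (pt γ) * I) (γ : ℂ) := by
  have h2 : HasDerivAt (fun z : ℂ => 1 / 2 + I * z) I (γ : ℂ) := by
    have := ((hasDerivAt_id (γ : ℂ)).const_mul I).const_add (1 / 2)
    simpa using this
  exact HasDerivAt.comp (h := fun z : ℂ => 1 / 2 + I * z) (γ : ℂ) (hasDerivAt_xi hγ) h2

theorem Fx_deriv_ne (hR : RHS) {γ : ℝ} (hγ : γ ∈ Od) : deriv Fx γ ≠ 0 := by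
  rw [(hasDerivAt_Fx hγ).deriv]
  exact mul_ne_zero (mul_ne_zero (mul_ne_zero (pt_ne0 γ) (ht_ne γ)) (hR _ (mem_Od.1 hγ)).2) I_ne_zero

theorem xi_zero_strip {s : ℂ} (h : xi s = 0) : s ∈ NT := by
  have aux : ∀ s : ℂ, xi s = 0 → s.re < 1 := by
    intro s h
    by_contra hcon
    push Not at hcon
    have h1 : s ≠ 1 := by
      rintro rfl
      rw [xi_one] at h
      norm_num at h
    have h0 : s ≠ 0 := by
      rintro rfl
      norm_num at hcon
    rw [xi_eq h0 h1 (by linarith)] at h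
    have h2 := riemannZeta_ne_zero_of_one_le_re hcon
    have h3 : hf s ≠ 0 := mul_ne_zero (div_ne_zero (sub_ne_zero.2 h1) (by norm_num))
      (Gammaℝ_ne_zero_of_re_pos (by linarith))
    exact mul_ne_zero (mul_ne_zero h0 h3) h2 h
  have h1 := aux s h
  have h2 := aux (1 - s) (by rw [xi_one_sub]; exact h)
  rw [sub_re, one_re] at h2
  have h3 : 0 < s.re := by linarith
  have h4 : s ≠ 1 := by
    rintro rfl
    norm_num at h1
  have h5 : s ≠ 0 := by
    rintro rfl
    norm_num at h3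
  rw [xi_eq h5 h4 h3] at h
  have h6 : hf s ≠ 0 := mul_ne_zero (div_ne_zero (sub_ne_zero.2 h4) (by norm_num))
    (Gammaℝ_ne_zero_of_re_pos h3)
  exact ⟨(mul_eq_zero.1 h).resolve_left (mul_ne_zero h5 h6), h3, h1⟩

theorem Fx_zero (hR : RHS) {z : ℂ} (h : Fx z = 0) : ∃ γ : ℝ, z = γ ∧ γ ∈ Od := by
  have h1 := xi_zero_strip h
  have h2 := (hR _ h1).1
  have h3 : z.im = 0 := by
    rw [add_re, I_mul_re] at h2
    have : (1 / 2 : ℂ).re = 1 / 2 := by norm_num
    rw [this] at h2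
    linarith
  have h4 : z = ((z.re : ℝ) : ℂ) := by
    apply Complex.ext
    · simp
    · simp [h3]
  refine ⟨z.re, h4, ?_⟩
  have h5 : pt z.re = 1 / 2 + I * z := by
    unfold pt
    rw [← h4]
  rw [mem_Od, h5]
  exact h1

theorem Fx_Od {γ : ℝ} (hγ : γ ∈ Od) : Fx γ = 0 := by
  have h1 := xi_eq (pt_ne0 γ) (pt_ne γ) (by rw [pt_re]; norm_num)
  have h2 : riemannZeta (pt γ) = 0 := hγ
  rw [h2, mul_zero] at h1
  exact h1

theorem zero_notMem (hR : RHS) : (0 : ℝ) ∉ Od := by
  intro h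
  have h1 := Fx_deriv_ne hR h
  rw [ofReal_zero] at h1
  exact h1 (even_deriv Fx_even)

theorem xi_half_ne (hR : RHS) : xi (1 / 2) ≠ 0 := by
  intro h
  have h1 : Fx 0 = 0 := by
    unfold Fx
    rw [mul_zero, add_zero]
    exact h
  obtain ⟨γ, h2, h3⟩ := Fx_zero hR h1
  have h4 : γ = 0 := by
    have : (γ : ℂ) = 0 := h2.symm
    exact_mod_cast this
  exact zero_notMem hR (h4 ▸ h3)

/-! ### division by finitely many zeros -/

theorem factor_entire (S : Finset ℂ) {F : ℂ → ℂ} (hF : Differentiable ℂ F) :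
    (∀ a ∈ S, F a = 0) → ∃ G : ℂ → ℂ, Differentiable ℂ G ∧ ∀ z, F z = (∏ a ∈ S, (z - a)) * G z := by
  classical
  induction S using Finset.induction_on with
  | empty => intro _; exact ⟨F, hF, fun z => by simp⟩
  | insert a S ha ih =>
    intro hz
    obtain ⟨G, hG, hG'⟩ := ih (fun b hb => hz b (Finset.mem_insert_of_mem hb))
    have h1 : G a = 0 := by
      have h2 := hz a (Finset.mem_insert_self _ _)
      rw [hG'] at h2
      refine (mul_eq_zero.1 h2).resolve_left ?_
      refine Finset.prod_ne_zero_iff.2 fun b hb => ?_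
      rw [sub_ne_zero]
      rintro rfl
      exact ha hb
    refine ⟨dslope G a, ?_, fun z => ?_⟩
    · rw [← differentiableOn_univ]
      exact (Complex.differentiableOn_dslope univ_mem).2 hG.differentiableOn
    · have h3 := sub_smul_dslope G a z
      rw [smul_eq_mul, h1, sub_zero] at h3
      rw [hG', Finset.prod_insert ha, ← h3]
      ring

/-- a second order Schwarz lemma -/
theorem schwarz2 {g : ℂ → ℂ} {r M : ℝ} (hr : 0 < r) (hg : DifferentiableOn ℂ g (ball 0 r))
    (hM : ∀ z ∈ ball (0 : ℂ) r, ‖g z‖ ≤ M) (h0 : g 0 = 0) (h1 : deriv g 0 = 0) {z : ℂ}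
    (hz : z ∈ ball (0 : ℂ) r) : ‖g z‖ ≤ M * ‖z‖ ^ 2 / r ^ 2 := by
  have b1 : ∀ z ∈ ball (0 : ℂ) r, ‖dslope g 0 z‖ ≤ M / r := fun z hz =>
    Complex.norm_dslope_le_div_of_mapsTo_ball hg (fun w hw => by
      rw [h0, mem_closedBall_zero_iff]; exact hM w hw) hz
  have hnb : ball (0 : ℂ) r ∈ 𝓝 (0 : ℂ) := ball_mem_nhds _ hr
  have hg1 : DifferentiableOn ℂ (dslope g 0) (ball 0 r) :=
    (Complex.differentiableOn_dslope hnb).2 hg
  have e0 : dslope g 0 0 = 0 := by rw [dslope_same, h1]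
  have b2 : ‖dslope (dslope g 0) 0 z‖ ≤ (M / r) / r :=
    Complex.norm_dslope_le_div_of_mapsTo_ball hg1 (fun w hw => by
      rw [e0, mem_closedBall_zero_iff]; exact b1 w hw) hz
  have h3 := sub_smul_dslope g 0 z
  have h4 := sub_smul_dslope (dslope g 0) 0 z
  rw [smul_eq_mul, h0, sub_zero, sub_zero] at h3
  rw [smul_eq_mul, e0, sub_zero, sub_zero] at h4
  rw [← h3, ← h4, norm_mul, norm_mul]
  calc ‖z‖ * (‖z‖ * ‖dslope (dslope g 0) 0 z‖) ≤ ‖z‖ * (‖z‖ * ((M / r) / r)) := by gcongr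
    _ = _ := by
        field_simp

/-- the constant in the bound for the logarithm -/
noncomputable def BN (N : ℕ) : ℝ := 13 * gy (3 + 2 * N) + |Real.log ‖Fx 0‖| + 1

theorem Fx0_ne (hR : RHS) : Fx 0 ≠ 0 := by
  unfold Fx
  rw [mul_zero, add_zero]
  exact xi_half_ne hR

/-- **finite-level Hadamard factorisation** -/
theorem level_fact (hR : RHS) {N : ℕ} (hN : 1 ≤ N) : ∃ g : ℂ → ℂ,
    ∀ z ∈ ball (0 : ℂ) ((N : ℝ) / 2), Fx z = Fx 0 * QN N z * cexp (g z) ∧
      ‖g z‖ ≤ 2 * BN N * ‖z‖ ^ 2 / ((N : ℝ) / 2) ^ 2 := by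
  classical
  have h0 := zero_notMem hR
  have hF0 := Fx0_ne hR
  have hNp : (0 : ℝ) < N := by exact_mod_cast hN
  -- the factorisation
  obtain ⟨G, hG, hFG⟩ := factor_entire ((ZN N).image (fun x : ℝ => (x : ℂ))) Fx_diff (by
    intro a ha
    obtain ⟨γ, hγ, rfl⟩ := Finset.mem_image.1 ha
    exact Fx_Od (mem_ZN.1 hγ).1)
  have hprod : ∀ z : ℂ, ∏ a ∈ (ZN N).image (fun x : ℝ => (x : ℂ)), (z - a) =
      ∏ δ ∈ ZN N, (z - (δ : ℂ)) := fun z =>
    Finset.prod_image (fun a _ b _ h => by exact_mod_cast h)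
  simp only [hprod] at hFG
  set q : ℂ := ∏ δ ∈ ZN N, (-(δ : ℂ)) with hq
  have hq0 : q ≠ 0 := by
    rw [hq, Finset.prod_ne_zero_iff]
    intro δ hδ
    rw [neg_ne_zero]
    exact_mod_cast ZN_ne0 h0 hδ
  have hQ : ∀ z : ℂ, q * QN N z = ∏ δ ∈ ZN N, (z - (δ : ℂ)) := by
    intro z
    rw [QN_ZN h0, hq, ← Finset.prod_mul_distrib]
    refine Finset.prod_congr rfl fun δ hδ => ?_
    have : (δ : ℂ) ≠ 0 := by exact_mod_cast ZN_ne0 h0 hδ
    field_simp
    ring
  set H : ℂ → ℂ := fun z => q / Fx 0 * G z with hH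
  have hHd : Differentiable ℂ H := by rw [hH]; fun_prop
  have hFH : ∀ z, Fx z = Fx 0 * QN N z * H z := by
    intro z
    rw [hFG, ← hQ, hH]
    field_simp
  have hQN0 : QN N 0 = 1 := by
    rw [QN_prod]
    refine Finset.prod_eq_one fun γ _ => ?_
    simp
  have hQNe : ∀ z, QN N (-z) = QN N z := by
    intro z
    rw [QN_prod, QN_prod]
    refine Finset.prod_congr rfl fun γ _ => ?_
    rw [neg_sq]
  have hQNd : Differentiable ℂ (QN N) := by
    have : QN N = fun z => ∏ γ' ∈ PN N, (1 - z ^ 2 / (γ' : ℂ) ^ 2) := funext fun z => QN_prod N z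
    rw [this]
    fun_prop
  have hH0 : H 0 = 1 := by
    have := hFH 0
    rw [hQN0, mul_one] at this
    have h1 : Fx 0 * H 0 = Fx 0 * 1 := by rw [mul_one]; exact this.symm
    exact mul_left_cancel₀ hF0 h1
  have hH'0 : deriv H 0 = 0 := by
    have e1 : Fx = fun z => Fx 0 * QN N z * H z := funext hFH
    have e2 := even_deriv Fx_even
    have e3 := even_deriv hQNe
    have e4 : HasDerivAt (fun z => Fx 0 * QN N z * H z)
        (Fx 0 * deriv (QN N) 0 * H 0 + Fx 0 * QN N 0 * deriv H 0) 0 :=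
      ((hQNd 0).hasDerivAt.const_mul (Fx 0)).mul (hHd 0).hasDerivAt
    have e5 : deriv Fx 0 = Fx 0 * deriv (QN N) 0 * H 0 + Fx 0 * QN N 0 * deriv H 0 := by
      conv_lhs => rw [e1]
      exact e4.deriv
    rw [e2, e3, hQN0] at e5
    have e6 : Fx 0 * deriv H 0 = 0 := by linear_combination -e5
    exact (mul_eq_zero.1 e6).resolve_left hF0
  -- nonvanishing
  have hHne : ∀ z ∈ ball (0 : ℂ) N, H z ≠ 0 := by
    intro z hz hHz
    rw [mem_ball_zero_iff] at hz
    have h1 : Fx z = 0 := by rw [hFH, hHz, mul_zero]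
    obtain ⟨γ, rfl, hγ⟩ := Fx_zero hR h1
    rw [norm_real, Real.norm_eq_abs] at hz
    have hγN : γ ∈ ZN N := mem_ZN.2 ⟨hγ, hz.le⟩
    have h2 : QN N γ = 0 := by
      rw [QN_ZN h0]
      refine Finset.prod_eq_zero hγN ?_
      have : (γ : ℂ) ≠ 0 := by exact_mod_cast ZN_ne0 h0 hγN
      field_simp
      ring
    have e1 : Fx = fun z => Fx 0 * QN N z * H z := funext hFH
    have e4 : HasDerivAt (fun z => Fx 0 * QN N z * H z)
        (Fx 0 * deriv (QN N) γ * H γ + Fx 0 * QN N γ * deriv H γ) γ :=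
      ((hQNd γ).hasDerivAt.const_mul (Fx 0)).mul (hHd γ).hasDerivAt
    have e5 : deriv Fx γ = Fx 0 * deriv (QN N) γ * H γ + Fx 0 * QN N γ * deriv H γ := by
      conv_lhs => rw [e1]
      exact e4.deriv
    rw [hHz, h2] at e5
    simp only [mul_zero, zero_mul, add_zero] at e5
    exact Fx_deriv_ne hR hγ e5
  -- the bound on the circle of radius 2N
  have hHb : ∀ z ∈ closedBall (0 : ℂ) (2 * N), ‖H z‖ ≤ Real.exp (BN N - 1) := by
    intro z hz
    have hcl : closure (ball (0 : ℂ) (2 * N)) = closedBall 0 (2 * N) :=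
      closure_ball _ (by positivity)
    refine Complex.norm_le_of_forall_mem_frontier_norm_le (U := ball (0 : ℂ) (2 * N))
      isBounded_ball hHd.diffContOnCl (fun w hw => ?_) (by rw [hcl]; exact hz)
    rw [frontier_ball _ (by positivity), mem_sphere_zero_iff_norm] at hw
    have h1 : 1 ≤ ‖QN N w‖ := by
      rw [QN_prod, norm_prod]
      have hone : (1 : ℝ) = ∏ γ ∈ PN N, (1 : ℝ) := by rw [Finset.prod_const_one]
      rw [hone]
      refine Finset.prod_le_prod (fun _ _ => zero_le_one) fun γ hγ => ?_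
      rw [mem_PN] at hγ
      have h2 : ‖w ^ 2 / (γ : ℂ) ^ 2‖ ≥ 4 := by
        rw [norm_div, norm_pow, norm_pow, hw, norm_real, Real.norm_eq_abs, abs_of_pos hγ.1, ge_iff_le,
          le_div_iff₀ (by have := hγ.1; positivity)]
        have := hγ.1
        have := hγ.2.1
        nlinarith
      have h3 := norm_sub_norm_le (w ^ 2 / (γ : ℂ) ^ 2) 1
      rw [norm_one] at h3
      rw [norm_sub_rev]
      linarith
    have h2 := hFH w
    have h3 : ‖Fx w‖ = ‖Fx 0‖ * ‖QN N w‖ * ‖H w‖ := by rw [h2, norm_mul, norm_mul]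
    have h4 := Fx_growth w
    rw [hw] at h4
    have hF0n : 0 < ‖Fx 0‖ := norm_pos_iff.2 hF0
    have h5 : ‖Fx 0‖ * ‖H w‖ ≤ Real.exp (13 * gy (3 + 2 * N)) := by
      calc ‖Fx 0‖ * ‖H w‖ ≤ ‖Fx 0‖ * ‖QN N w‖ * ‖H w‖ := by
            refine mul_le_mul_of_nonneg_right ?_ (norm_nonneg _)
            nlinarith
        _ = ‖Fx w‖ := h3.symm
        _ ≤ _ := h4
    have h6 : Real.exp (-|Real.log ‖Fx 0‖|) ≤ ‖Fx 0‖ := by
      calc Real.exp (-|Real.log ‖Fx 0‖|) ≤ Real.exp (Real.log ‖Fx 0‖) :=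
            Real.exp_le_exp.2 (neg_abs_le _)
        _ = _ := Real.exp_log hF0n
    have h7 : Real.exp (-|Real.log ‖Fx 0‖|) * ‖H w‖ ≤ Real.exp (13 * gy (3 + 2 * N)) :=
      (mul_le_mul_of_nonneg_right h6 (norm_nonneg _)).trans h5
    have h8 : ‖H w‖ = Real.exp (|Real.log ‖Fx 0‖|) * (Real.exp (-|Real.log ‖Fx 0‖|) * ‖H w‖) := by
      rw [← mul_assoc, ← Real.exp_add, add_neg_cancel, Real.exp_zero, one_mul]
    rw [h8]
    calc Real.exp (|Real.log ‖Fx 0‖|) * (Real.exp (-|Real.log ‖Fx 0‖|) * ‖H w‖)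
        ≤ Real.exp (|Real.log ‖Fx 0‖|) * Real.exp (13 * gy (3 + 2 * N)) := by gcongr
      _ = Real.exp (BN N - 1) := by
          rw [← Real.exp_add]
          unfold BN
          congr 1
          ring
  -- the logarithm
  have hlog : DifferentiableOn ℂ (fun z => deriv H z / H z) (ball 0 N) := by
    have h1 : Differentiable ℂ (deriv H) := fun z =>
      ((hHd.analyticAt z).deriv).differentiableAt
    exact h1.differentiableOn.div hHd.differentiableOn hHne
  obtain ⟨g, hg0, hg⟩ := (hlog.isExactOn_ball).with_val_at 0 0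
  have hexp : ∀ z ∈ ball (0 : ℂ) N, H z = cexp (g z) := by
    intro z hz
    have h1 : ∀ w ∈ ball (0 : ℂ) N, HasDerivAt (fun w => H w * cexp (-g w)) 0 w := by
      intro w hw
      have h2 := (hHd w).hasDerivAt.mul ((hg w hw).neg.cexp)
      refine h2.congr_deriv ?_
      have := hHne w hw
      field_simp
      ring
    have h2 : H z * cexp (-g z) = H 0 * cexp (-g 0) := by
      exact (isOpen_ball).is_const_of_deriv_eq_zero (convex_ball _ _).isPreconnected
        (f := fun w => H w * cexp (-g w))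
        (fun w hw => (h1 w hw).differentiableAt.differentiableWithinAt)
        (fun w hw => (h1 w hw).deriv) hz (mem_ball_self hNp)
    rw [hg0, hH0, neg_zero, Complex.exp_zero, mul_one, Complex.exp_neg] at h2
    have := Complex.exp_ne_zero (g z)
    field_simp at h2
    exact h2
  have hBN : 0 < BN N := by
    unfold BN
    have h1 : 0 ≤ gy (3 + 2 * N) := by unfold gy; positivity
    positivity
  have hgd : DifferentiableOn ℂ g (ball 0 N) := fun z hz => (hg z hz).differentiableAt.differentiableWithinAt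
  have hre : MapsTo g (ball 0 N) {z | z.re ≤ BN N} := by
    intro z hz
    have h1 := hHb z (by
      rw [mem_ball_zero_iff] at hz
      rw [mem_closedBall_zero_iff]
      linarith)
    rw [hexp z hz, Complex.norm_exp] at h1
    have h2 := Real.exp_le_exp.1 h1
    show (g z).re ≤ BN N
    linarith
  have hsub : ball (0 : ℂ) ((N : ℝ) / 2) ⊆ ball 0 N := ball_subset_ball (by linarith)
  have hgb : ∀ z ∈ ball (0 : ℂ) ((N : ℝ) / 2), ‖g z‖ ≤ 2 * BN N := by
    intro z hz
    have h1 := Complex.borelCaratheodory_zero hBN hgd hre hNp (hsub hz) hg0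
    rw [mem_ball_zero_iff] at hz
    refine h1.trans ?_
    have hd : 0 < (N : ℝ) - ‖z‖ := by linarith
    rw [div_le_iff₀ hd]
    nlinarith [norm_nonneg z]
  have hg'0 : deriv g 0 = 0 := by
    rw [(hg 0 (mem_ball_self hNp)).deriv, hH'0, zero_div]
  refine ⟨g, fun z hz => ⟨?_, ?_⟩⟩
  · rw [← hexp z (hsub hz)]
    exact hFH z
  · exact schwarz2 (by positivity) (hgd.mono hsub) hgb hg0 hg'0 hz

theorem BN_small : Tendsto (fun N : ℕ => BN N / (N : ℝ) ^ 2) atTop (𝓝 0) := by
  have h1 : Tendsto (fun N : ℕ => (N : ℝ)) atTop atTop := tendsto_natCast_atTop_atTop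
  have h2 : Tendsto (fun N : ℕ => (13 * 25) / Real.sqrt N + (|Real.log ‖Fx 0‖| + 1) / (N : ℝ) ^ 2)
      atTop (𝓝 (0 + 0)) := by
    refine Tendsto.add ?_ ?_
    · exact tendsto_const_nhds.div_atTop (Real.tendsto_sqrt_atTop.comp h1)
    · exact tendsto_const_nhds.div_atTop ((tendsto_pow_atTop (by norm_num)).comp h1)
  rw [add_zero] at h2
  refine squeeze_zero' (Eventually.of_forall fun N => ?_) ?_ h2
  · unfold BN gy
    positivity
  · filter_upwards [eventually_ge_atTop 1] with N hN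
    have hNp : (1 : ℝ) ≤ N := by exact_mod_cast hN
    have hs : 0 < Real.sqrt N := Real.sqrt_pos.2 (by linarith)
    have hs2 : Real.sqrt N * Real.sqrt N = N := Real.mul_self_sqrt (by linarith)
    have h3 : gy (3 + 2 * N) ≤ 25 * (N * Real.sqrt N) := by
      unfold gy
      have e1 : (3 : ℝ) + 2 * N ≤ 5 * N := by linarith
      have e2 : Real.sqrt (3 + 2 * N) ≤ 5 * Real.sqrt N := by
        calc Real.sqrt (3 + 2 * N) ≤ Real.sqrt (5 ^ 2 * N) := Real.sqrt_le_sqrt (by linarith)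
          _ = 5 * Real.sqrt N := by
              rw [Real.sqrt_mul (by norm_num), Real.sqrt_sq (by norm_num)]
      calc (3 + 2 * (N : ℝ)) * Real.sqrt (3 + 2 * N) ≤ (5 * N) * (5 * Real.sqrt N) := by gcongr
        _ = _ := by ring
    have h4 : BN N ≤ 13 * (25 * (N * Real.sqrt N)) + (|Real.log ‖Fx 0‖| + 1) := by
      unfold BN
      linarith
    have h5 : (13 * (25 * (N * Real.sqrt N)) + (|Real.log ‖Fx 0‖| + 1)) / (N : ℝ) ^ 2 =
        (13 * 25) / Real.sqrt N + (|Real.log ‖Fx 0‖| + 1) / (N : ℝ) ^ 2 := by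
      rw [add_div]
      congr 1
      rw [div_eq_div_iff (by positivity) (by positivity)]
      nlinarith
    rw [← h5]
    gcongr

/-- **Hadamard's product** -/
theorem hadamard : T_HAD := by
  intro hR
  have hF0 := Fx0_ne hR
  refine ⟨fin_PO, xi_half_ne hR, ?_⟩
  rw [tendstoLocallyUniformlyOn_iff_forall_isCompact isOpen_univ]
  intro K _ hK
  obtain ⟨R, hR0, hKR⟩ : ∃ R : ℝ, 0 < R ∧ ∀ z ∈ K, ‖z‖ ≤ R := by
    obtain ⟨R, hR'⟩ := hK.isBounded.exists_norm_le
    exact ⟨max R 1, by positivity, fun z hz => (hR' z hz).trans (le_max_left _ _)⟩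
  have hXf : ∀ z, xi (1 / 2 + I * z) / xi (1 / 2) = Fx z / Fx 0 := by
    intro z
    unfold Fx
    rw [mul_zero, add_zero]
  simp only [hXf]
  set M := Real.exp (13 * gy (3 + R)) / ‖Fx 0‖ with hM
  have hF0n : 0 < ‖Fx 0‖ := norm_pos_iff.2 hF0
  have hMp : 0 < M := by positivity
  have hMb : ∀ z ∈ K, ‖Fx z / Fx 0‖ ≤ M := by
    intro z hz
    rw [norm_div, hM]
    gcongr
    refine (Fx_growth z).trans (Real.exp_le_exp.2 ?_)
    have := gy_mono (a := 3 + ‖z‖) (b := 3 + R) (by positivity) (by linarith [hKR z hz])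
    linarith
  have hlim : Tendsto (fun N : ℕ => M * ((8 * R ^ 2 * (BN N / (N : ℝ) ^ 2)) *
      Real.exp (8 * R ^ 2 * (BN N / (N : ℝ) ^ 2)))) atTop (𝓝 0) := by
    have h1 := BN_small.const_mul (8 * R ^ 2)
    rw [mul_zero] at h1
    have h2 := (h1.mul ((Real.continuous_exp.tendsto _).comp h1)).const_mul M
    simpa using h2
  rw [Metric.tendstoUniformlyOn_iff]
  intro ε hε
  have hev := hlim.eventually (gt_mem_nhds hε)
  obtain ⟨n0, hn0⟩ := exists_nat_gt (2 * R)
  filter_upwards [hev, eventually_ge_atTop n0, eventually_ge_atTop 1] with N hN1 hN2 hN3 z hz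
  obtain ⟨g, hg⟩ := level_fact hR hN3
  have hNR : 2 * R < N := hn0.trans_le (by exact_mod_cast hN2)
  have hzb : z ∈ ball (0 : ℂ) ((N : ℝ) / 2) := by
    rw [mem_ball_zero_iff]
    linarith [hKR z hz]
  obtain ⟨e1, e2⟩ := hg z hzb
  have hNp : (0 : ℝ) < N := by exact_mod_cast hN3
  have hBN0 : 0 ≤ BN N := by
    unfold BN gy
    positivity
  have hgη : ‖g z‖ ≤ 8 * R ^ 2 * (BN N / (N : ℝ) ^ 2) := by
    refine e2.trans ?_
    have h1 : ‖z‖ ^ 2 ≤ R ^ 2 := pow_le_pow_left₀ (norm_nonneg _) (hKR z hz) 2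
    calc 2 * BN N * ‖z‖ ^ 2 / ((N : ℝ) / 2) ^ 2 ≤ 2 * BN N * R ^ 2 / ((N : ℝ) / 2) ^ 2 := by gcongr
      _ = _ := by
          field_simp
          ring
  have hQ : QN N z = Fx z / Fx 0 * cexp (-g z) := by
    rw [e1, Complex.exp_neg]
    have := Complex.exp_ne_zero (g z)
    field_simp
  rw [dist_comm, dist_eq_norm, hQ]
  have e3 : Fx z / Fx 0 * cexp (-g z) - Fx z / Fx 0 = Fx z / Fx 0 * (cexp (-g z) - 1) := by ring
  rw [e3, norm_mul]
  have e4 : ‖cexp (-g z) - 1‖ ≤ ‖g z‖ * Real.exp ‖g z‖ := by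
    have := Complex.norm_exp_sub_sum_le_norm_mul_exp (-g z) 1
    simpa using this
  refine lt_of_le_of_lt ?_ hN1
  have h5 := hMb z hz
  gcongr
  exact e4.trans (by gcongr)

end Pool.Agent.J6H39.ML
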