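import Pool.Agent.J6H39.ML.Lvl

/-! Project ML: uniform bounds at level `N`. -/

set_option autoImplicit false

open Complex Filter Topology Set MeasureTheory

namespace Pool.Agent.J6H39.ML

/-- count of the ordinates -/
theorem row : ∃ Cn : ℝ, 0 ≤ Cn ∧ ∀ (Z : Finset ℝ), (∀ γ ∈ Z, γ ∈ Od) → ∀ t : ℝ,
    ∑ γ ∈ Z, Real.exp (-((γ - t) ^ 2 / 16)) ≤ Cn * Real.log (3 + |t|) := by
  classical
  obtain ⟨C, hC, h⟩ := Pool.Agent.W499.WM.row_bound Pool.Agent.W563.WM.t_cnt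
  refine ⟨C, hC.le, fun Z hZ t => ?_⟩
  have h1 := h (Z.image pt) (by
    intro ρ hρ
    obtain ⟨γ, hγ, rfl⟩ := Finset.mem_image.1 hρ
    exact mem_Od.1 (hZ γ hγ)) t
  rw [Finset.sum_image (fun a _ b _ hab => pt_inj hab)] at h1
  simpa only [pt_im] using h1

theorem FF_smul (Z : Finset ℝ) (b : ℝ → ℂ) (c : ℂ) (κ t : ℝ) :
    FF Z (fun γ => c * b γ) κ t = c * FF Z b κ t := by
  unfold FF
  rw [Finset.mul_sum]
  exact Finset.sum_congr rfl fun γ _ => by ring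

/-- **the level-`N` inequality** -/
theorem lvl (hR : RHS) (hH : T_HAD) : ∃ D κ0 : ℝ, 0 ≤ D ∧ 4 ≤ κ0 ∧ ∀ B : ℝ, 0 ≤ B → ∃ C : ℝ, 0 ≤ C ∧
    ∀ W : ℝ → ℝ, IsW B W → ∀ κ : ℝ, κ0 ≤ κ → ∀ (N : ℕ) (β : ℝ), 0 ≤ β →
    Real.sqrt κ * ∫ t, W t * ‖FF (ZN N) (bN N β) κ t‖ ^ 2 ≤
      C * ∑ γ ∈ ZN N, ‖wc γ‖ ^ 2 * W γ * (Real.exp (-(2 * β * γ ^ 2)) * Vw D (1 / (2 * κ)) γ) := by
  obtain ⟨D, κ0, hD, hκ0, h⟩ := transfer
  obtain ⟨Cn, hCn, hrow⟩ := row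
  refine ⟨D, κ0, hD, hκ0, fun B hB => ?_⟩
  obtain ⟨C, hC, h⟩ := h B Cn hB hCn
  refine ⟨C, hC, fun W hW κ hκ N β hβ => ?_⟩
  have h1 := h W hW κ hκ (ZN N) β hβ (fun t => hrow (ZN N) (fun γ hγ => (mem_ZN.1 hγ).1) t)
  set c : ℂ := (I / xi (1 / 2)) * (qN N : ℂ) with hc
  have hb : bN N β = fun γ => c * (ht γ * (ca (ZN N) β γ : ℂ)) := by
    funext γ
    unfold bN
    rw [hc]
    ring
  have h2 : ∀ t, W t * ‖FF (ZN N) (bN N β) κ t‖ ^ 2 =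
      ‖c‖ ^ 2 * (W t * ‖FF (ZN N) (fun γ => ht γ * (ca (ZN N) β γ : ℂ)) κ t‖ ^ 2) := by
    intro t
    rw [hb, FF_smul, norm_mul, mul_pow]
    ring
  simp_rw [h2]
  rw [integral_const_mul]
  calc Real.sqrt κ * (‖c‖ ^ 2 * ∫ t, W t * ‖FF (ZN N) (fun γ => ht γ * (ca (ZN N) β γ : ℂ)) κ t‖ ^ 2)
      = ‖c‖ ^ 2 * (Real.sqrt κ * ∫ t, W t *
        ‖FF (ZN N) (fun γ => ht γ * (ca (ZN N) β γ : ℂ)) κ t‖ ^ 2) := by ring
    _ ≤ ‖c‖ ^ 2 * (C * ∑ γ ∈ ZN N, (‖ht γ‖ ^ 2 * ca (ZN N) β γ ^ 2) * W γ *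
        Vw D (1 / (2 * κ)) γ) := by gcongr
    _ = C * ∑ γ ∈ ZN N, ‖bN N β γ‖ ^ 2 * W γ * Vw D (1 / (2 * κ)) γ := by
        rw [Finset.mul_sum, Finset.mul_sum, Finset.mul_sum]
        refine Finset.sum_congr rfl fun γ _ => ?_
        rw [hb]
        simp only [norm_mul, norm_real, Real.norm_eq_abs, mul_pow, sq_abs]
        ring
    _ ≤ _ := by
        refine mul_le_mul_of_nonneg_left (Finset.sum_le_sum fun γ hγ => ?_) hC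
        have h3 := (bN_facts hR hH β (mem_ZN.1 hγ).1).2 N hγ
        have h4 : ‖bN N β γ‖ ^ 2 ≤ ‖wc γ‖ ^ 2 * Real.exp (-(2 * β * γ ^ 2)) := by
          calc ‖bN N β γ‖ ^ 2 ≤ (‖wc γ‖ * Real.exp (-(β * γ ^ 2))) ^ 2 := by gcongr
            _ = ‖wc γ‖ ^ 2 * Real.exp (-(2 * β * γ ^ 2)) := by
                rw [mul_pow, ← Real.exp_nat_mul]
                congr 2
                push_cast
                ring
        have h5 := hW.pos γ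
        have h6 : 0 < Vw D (1 / (2 * κ)) γ := Real.exp_pos _
        calc ‖bN N β γ‖ ^ 2 * W γ * Vw D (1 / (2 * κ)) γ
            ≤ (‖wc γ‖ ^ 2 * Real.exp (-(2 * β * γ ^ 2))) * W γ * Vw D (1 / (2 * κ)) γ := by gcongr
          _ = _ := by ring

/-- the smoothing parameter -/
noncomputable def hV (V : ℝ) : ℝ := Real.exp (-(V + 1))

theorem hV_pos (V : ℝ) : 0 < hV V := Real.exp_pos _

theorem hV_le {V : ℝ} (hV0 : 0 ≤ V) : hV V ≤ 1 := Real.exp_le_one_iff.2 (by linarith)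

/-- the smoothing compensates the weight -/
theorem comp_bound {D κ0 V : ℝ} (hD : 0 ≤ D) (hκ0 : 4 ≤ κ0) (hV1 : 1 ≤ V) (γ : ℝ) :
    Real.exp (-(2 * (hV V ^ 2 / 2) * γ ^ 2)) * Vw D (1 / (2 * (κ0 * V ^ 2))) γ ≤
      Real.exp ((D + 4) ^ 2 + 4) := by
  have hVpos : 0 < V := by linarith
  have hh := hV_pos V
  have hh1 := hV_le (by linarith : 0 ≤ V)
  unfold Vw
  rw [← Real.exp_add]
  apply Real.exp_le_exp.2
  set y := hV V * γ with hy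
  have h1 : 4 + γ ^ 2 ≤ (hV V)⁻¹ ^ 2 * (4 + y ^ 2) := by
    have e1 : (hV V)⁻¹ ^ 2 * (4 + y ^ 2) = (hV V)⁻¹ ^ 2 * 4 + γ ^ 2 := by
      rw [hy]
      field_simp
    rw [e1]
    have e2 : 1 ≤ (hV V)⁻¹ := (one_le_inv₀ hh).2 hh1
    nlinarith
  have h2 : Real.log (4 + γ ^ 2) ≤ 2 * (V + 1) + Real.log (4 + y ^ 2) := by
    calc Real.log (4 + γ ^ 2) ≤ Real.log ((hV V)⁻¹ ^ 2 * (4 + y ^ 2)) :=
          Real.log_le_log (by positivity) h1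
      _ = 2 * (V + 1) + Real.log (4 + y ^ 2) := by
          rw [Real.log_mul (by positivity) (by positivity), Real.log_pow, Real.log_inv]
          unfold hV
          rw [Real.log_exp]
          push_cast
          ring
  obtain ⟨l0, l1⟩ := lw_bound hD γ
  have hly : Real.log (4 + y ^ 2) ^ 2 ≤ 4 * (4 + y ^ 2) := by
    have := (lw_bound le_rfl y (C := 0)).2
    unfold lw at this
    norm_num at this
    exact this
  have hly0 : 0 ≤ Real.log (4 + y ^ 2) := Real.log_nonneg (by nlinarith [sq_nonneg y])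
  have h3 : lw D γ ≤ (D + 4) * V + Real.log (4 + y ^ 2) := by
    unfold lw
    nlinarith
  have h4 : lw D γ ^ 2 ≤ 2 * (D + 4) ^ 2 * V ^ 2 + 2 * Real.log (4 + y ^ 2) ^ 2 := by
    calc lw D γ ^ 2 ≤ ((D + 4) * V + Real.log (4 + y ^ 2)) ^ 2 := by gcongr
      _ ≤ _ := by nlinarith [sq_nonneg ((D + 4) * V - Real.log (4 + y ^ 2))]
  have h5 : 1 / (2 * (κ0 * V ^ 2)) * lw D γ ^ 2 ≤ (D + 4) ^ 2 + 4 + y ^ 2 := by
    rw [div_mul_eq_mul_div, one_mul, div_le_iff₀ (by positivity)]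
    have e1 : 1 ≤ V ^ 2 := by nlinarith
    have e2 : 4 * V ^ 2 ≤ κ0 * V ^ 2 := by gcongr
    have e3 : 0 ≤ (D + 4) ^ 2 + 4 + y ^ 2 := by positivity
    calc lw D γ ^ 2 ≤ 2 * (D + 4) ^ 2 * V ^ 2 + 2 * (4 * (4 + y ^ 2)) := by linarith
      _ ≤ ((D + 4) ^ 2 + 4 + y ^ 2) * (2 * (4 * V ^ 2)) := by
          nlinarith [sq_nonneg y, sq_nonneg (D + 4), mul_nonneg (sq_nonneg (D + 4)) (sq_nonneg V),
            mul_nonneg (sq_nonneg y) (by linarith : (0 : ℝ) ≤ V ^ 2 - 1)]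
      _ ≤ ((D + 4) ^ 2 + 4 + y ^ 2) * (2 * (κ0 * V ^ 2)) := by gcongr
  have h6 : 2 * (hV V ^ 2 / 2) * γ ^ 2 = y ^ 2 := by rw [hy]; ring
  rw [h6]
  linarith

/-- bound away from the frequencies -/
theorem FF_away {Z : Finset ℝ} {b : ℝ → ℂ} {κ δ A t : ℝ} (hκ : 0 < κ) (hδ : 0 ≤ δ)
    (hA : ∑ γ ∈ Z, Real.exp (-(κ / 4 * ((t - γ) ^ 2 + (t - γ) ^ 2))) ≤ A)
    (h : ∀ γ ∈ Z, δ ≤ |t - γ|) :
    ‖FF Z b κ t‖ ^ 2 ≤ Real.exp (-(κ * δ ^ 2)) * A *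
      ∑ γ ∈ Z, ‖b γ‖ ^ 2 * Real.exp (-(κ / 4 * ((t - γ) ^ 2 + (t - γ) ^ 2))) := by
  set q : ℝ → ℝ := fun γ => Real.exp (-(κ / 4 * ((t - γ) ^ 2 + (t - γ) ^ 2))) with hq
  have hq0 : ∀ γ, 0 < q γ := fun γ => Real.exp_pos _
  have h1 : ‖FF Z b κ t‖ ≤ Real.exp (-(κ * δ ^ 2 / 2)) * ∑ γ ∈ Z, ‖b γ‖ * q γ := by
    unfold FF
    refine (norm_sum_le _ _).trans ?_
    rw [Finset.mul_sum]
    refine Finset.sum_le_sum fun γ hγ => ?_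
    rw [norm_mul, norm_real, Real.norm_eq_abs, abs_of_pos (Real.exp_pos _)]
    have e1 : Real.exp (-(κ * (t - γ) ^ 2)) ≤ Real.exp (-(κ * δ ^ 2 / 2)) * q γ := by
      rw [hq, ← Real.exp_add]
      apply Real.exp_le_exp.2
      have e2 : δ ^ 2 ≤ (t - γ) ^ 2 := by
        rw [← sq_abs (t - γ)]
        exact pow_le_pow_left₀ hδ (h γ hγ) 2
      nlinarith
    calc ‖b γ‖ * Real.exp (-(κ * (t - γ) ^ 2)) ≤ ‖b γ‖ * (Real.exp (-(κ * δ ^ 2 / 2)) * q γ) := by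
          gcongr
      _ = _ := by ring
  have h3 : (∑ γ ∈ Z, ‖b γ‖ * q γ) ^ 2 ≤ (∑ γ ∈ Z, ‖b γ‖ ^ 2 * q γ) * ∑ γ ∈ Z, q γ := by
    have := Finset.sum_mul_sq_le_sq_mul_sq Z (fun γ => ‖b γ‖ * Real.sqrt (q γ))
      (fun γ => Real.sqrt (q γ))
    have e1 : ∀ γ, ‖b γ‖ * Real.sqrt (q γ) * Real.sqrt (q γ) = ‖b γ‖ * q γ := by
      intro γ
      rw [mul_assoc, Real.mul_self_sqrt (hq0 γ).le]
    have e2 : ∀ γ, (‖b γ‖ * Real.sqrt (q γ)) ^ 2 = ‖b γ‖ ^ 2 * q γ := by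
      intro γ
      rw [mul_pow, Real.sq_sqrt (hq0 γ).le]
    have e3 : ∀ γ, Real.sqrt (q γ) ^ 2 = q γ := fun γ => Real.sq_sqrt (hq0 γ).le
    simp only [e1, e2, e3] at this
    exact this
  have h0 : 0 ≤ ∑ γ ∈ Z, ‖b γ‖ ^ 2 * q γ :=
    Finset.sum_nonneg fun γ _ => mul_nonneg (by positivity) (hq0 γ).le
  have h00 : 0 ≤ ∑ γ ∈ Z, ‖b γ‖ * q γ :=
    Finset.sum_nonneg fun γ _ => mul_nonneg (by positivity) (hq0 γ).le
  calc ‖FF Z b κ t‖ ^ 2 ≤ (Real.exp (-(κ * δ ^ 2 / 2)) * ∑ γ ∈ Z, ‖b γ‖ * q γ) ^ 2 := by gcongr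
    _ = Real.exp (-(κ * δ ^ 2)) * (∑ γ ∈ Z, ‖b γ‖ * q γ) ^ 2 := by
        rw [mul_pow, ← Real.exp_nat_mul]
        congr 2
        push_cast
        ring
    _ ≤ Real.exp (-(κ * δ ^ 2)) * ((∑ γ ∈ Z, ‖b γ‖ ^ 2 * q γ) * A) := by
        gcongr
        exact h3.trans (mul_le_mul_of_nonneg_left hA h0)
    _ = _ := by ring

theorem FF_int (Z : Finset ℝ) (b : ℝ → ℂ) {κ : ℝ} (hκ : 0 < κ) {B : ℝ} {W : ℝ → ℝ} (hW : IsW B W) :
    Integrable (fun t => W t * ‖FF Z b κ t‖ ^ 2) := by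
  have h1 : ∀ t, W t * ‖FF Z b κ t‖ ^ 2 =
      (W t * KK Z (fun γ => (b γ).re) κ t) * KK Z (fun γ => (b γ).re) κ t +
      (W t * KK Z (fun γ => (b γ).im) κ t) * KK Z (fun γ => (b γ).im) κ t := by
    intro t
    have e1 : (FF Z b κ t).re = KK Z (fun γ => (b γ).re) κ t := by
      unfold FF KK
      rw [re_sum]
      refine Finset.sum_congr rfl fun γ _ => ?_
      rw [re_mul_ofReal]
    have e2 : (FF Z b κ t).im = KK Z (fun γ => (b γ).im) κ t := by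
      unfold FF KK
      rw [im_sum]
      refine Finset.sum_congr rfl fun γ _ => ?_
      rw [im_mul_ofReal]
    rw [← Complex.normSq_eq_norm_sq, Complex.normSq_apply, e1, e2]
    ring
  simp_rw [h1]
  have hc := hW.cont
  exact (KK_int Z _ hκ (hW.eg.mul (EG.KK Z _ hκ.le)) (hc.mul (KK_cont Z _ κ))).add
    (KK_int Z _ hκ (hW.eg.mul (EG.KK Z _ hκ.le)) (hc.mul (KK_cont Z _ κ)))

theorem isW_one : IsW 0 (fun _ => 1) := by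
  refine ⟨le_rfl, fun _ => 0, fun _ => 0, fun t => hasDerivAt_const _ _,
    fun t => hasDerivAt_const _ _, continuous_const, fun t => ?_⟩
  norm_num

theorem Xw_half {U t : ℝ} (hU : 0 ≤ U) (h : U ≤ |t|) : 1 / 2 ≤ Xw U t := by
  rw [Xw_eq, div_le_div_iff₀ (by norm_num) (by positivity)]
  have : U ^ 2 ≤ t ^ 2 := by
    rw [← sq_abs t]
    exact pow_le_pow_left₀ hU h 2
  linarith

/-- the tail of the level-`N` sum -/
theorem tail_pt {Z : Finset ℝ} {b : ℝ → ℂ} {κ δ A U : ℝ} (hκ : 0 < κ) (hδ : 0 ≤ δ) (hA0 : 0 ≤ A)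
    (hU : 0 ≤ U) (hgap : ∀ γ ∈ Z, |γ| ≤ U - δ ∨ U + δ ≤ |γ|)
    (hA1 : ∀ t, |t| ≤ U → ∑ γ ∈ Z, Real.exp (-(κ / 4 * ((t - γ) ^ 2 + (t - γ) ^ 2))) ≤ A)
    (hA2 : ((Z.filter (fun γ => |γ| ≤ U)).card : ℝ) ≤ A) (t : ℝ) :
    ‖FF (Z.filter (fun γ => ¬ |γ| ≤ U)) b κ t‖ ^ 2 ≤ 4 * (Xw U t * ‖FF Z b κ t‖ ^ 2) +
      2 * (Real.exp (-(κ * δ ^ 2)) * A) *
        ∑ γ ∈ Z, ‖b γ‖ ^ 2 * Real.exp (-(κ / 4 * ((t - γ) ^ 2 + (t - γ) ^ 2))) := by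
  classical
  set q : ℝ → ℝ := fun γ => Real.exp (-(κ / 4 * ((t - γ) ^ 2 + (t - γ) ^ 2))) with hq
  have hq0 : ∀ γ, 0 < q γ := fun γ => Real.exp_pos _
  have hsub : ∀ p : ℝ → Prop, ∀ [DecidablePred p], ∑ γ ∈ Z.filter p, ‖b γ‖ ^ 2 * q γ ≤
      ∑ γ ∈ Z, ‖b γ‖ ^ 2 * q γ := by
    intro p _
    exact Finset.sum_le_sum_of_subset_of_nonneg (Finset.filter_subset _ _)
      (fun γ _ _ => mul_nonneg (by positivity) (hq0 γ).le)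
  have hS0 : 0 ≤ ∑ γ ∈ Z, ‖b γ‖ ^ 2 * q γ :=
    Finset.sum_nonneg fun γ _ => mul_nonneg (by positivity) (hq0 γ).le
  have hE : 0 ≤ Real.exp (-(κ * δ ^ 2)) * A := mul_nonneg (Real.exp_pos _).le hA0
  have hXp : 0 ≤ Xw U t := (Real.exp_pos _).le
  rcases le_or_gt (|t|) U with ht | ht
  · have h1 := FF_away (Z := Z.filter (fun γ => ¬ |γ| ≤ U)) (b := b) (κ := κ) (δ := δ) (A := A)
      (t := t) hκ hδ (by
        refine le_trans ?_ (hA1 t ht)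
        exact Finset.sum_le_sum_of_subset_of_nonneg (Finset.filter_subset _ _)
          (fun γ _ _ => (hq0 γ).le)) (by
        intro γ hγ
        rw [Finset.mem_filter] at hγ
        have h2 : U + δ ≤ |γ| := by
          rcases hgap γ hγ.1 with h | h
          · exact absurd (by linarith) hγ.2
          · exact h
        have h3 := abs_sub_abs_le_abs_sub γ t
        rw [abs_sub_comm γ t] at h3
        linarith)
    refine h1.trans ?_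
    have h2 := mul_le_mul_of_nonneg_left (hsub (fun γ => ¬ |γ| ≤ U)) hE
    have h3 : 0 ≤ 4 * (Xw U t * ‖FF Z b κ t‖ ^ 2) := by positivity
    have h4 : 0 ≤ (Real.exp (-(κ * δ ^ 2)) * A) * ∑ γ ∈ Z, ‖b γ‖ ^ 2 * q γ := mul_nonneg hE hS0
    linarith
  · have h1 := FF_away (Z := Z.filter (fun γ => |γ| ≤ U)) (b := b) (κ := κ) (δ := δ) (A := A)
      (t := t) hκ hδ (by
        refine le_trans ?_ hA2
        refine (Finset.sum_le_card_nsmul _ _ 1 fun γ _ => ?_).trans ?_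
        · refine Real.exp_le_one_iff.2 ?_
          have : 0 ≤ κ / 4 * ((t - γ) ^ 2 + (t - γ) ^ 2) := by positivity
          linarith
        · simp) (by
        intro γ hγ
        rw [Finset.mem_filter] at hγ
        have h2 : |γ| ≤ U - δ := by
          rcases hgap γ hγ.1 with h | h
          · exact h
          · have := hγ.2
            linarith
        have h3 := abs_sub_abs_le_abs_sub t γ
        linarith)
    have h2 := mul_le_mul_of_nonneg_left (hsub (fun γ => |γ| ≤ U)) hE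
    have hsplit : FF (Z.filter (fun γ => ¬ |γ| ≤ U)) b κ t =
        FF Z b κ t - FF (Z.filter (fun γ => |γ| ≤ U)) b κ t := by
      unfold FF
      rw [← Finset.sum_filter_add_sum_filter_not Z (fun γ => |γ| ≤ U)
        (fun γ => b γ * (Real.exp (-(κ * (t - γ) ^ 2)) : ℂ))]
      ring
    have h3 : ‖FF (Z.filter (fun γ => ¬ |γ| ≤ U)) b κ t‖ ^ 2 ≤
        2 * ‖FF Z b κ t‖ ^ 2 + 2 * ‖FF (Z.filter (fun γ => |γ| ≤ U)) b κ t‖ ^ 2 := by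
      rw [hsplit]
      have e1 := norm_sub_le (FF Z b κ t) (FF (Z.filter (fun γ => |γ| ≤ U)) b κ t)
      have e2 := norm_nonneg (FF Z b κ t - FF (Z.filter (fun γ => |γ| ≤ U)) b κ t)
      nlinarith [sq_nonneg (‖FF Z b κ t‖ - ‖FF (Z.filter (fun γ => |γ| ≤ U)) b κ t‖),
        norm_nonneg (FF Z b κ t), norm_nonneg (FF (Z.filter (fun γ => |γ| ≤ U)) b κ t)]
    have h4 := Xw_half hU ht.le
    have h5 : 2 * ‖FF Z b κ t‖ ^ 2 ≤ 4 * (Xw U t * ‖FF Z b κ t‖ ^ 2) := by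
      nlinarith [sq_nonneg (‖FF Z b κ t‖)]
    have h6 : 2 * ‖FF (Z.filter (fun γ => |γ| ≤ U)) b κ t‖ ^ 2 ≤
        2 * (Real.exp (-(κ * δ ^ 2)) * A) * ∑ γ ∈ Z, ‖b γ‖ ^ 2 * q γ := by
      nlinarith
    linarith

/-- integrated tail bound -/
theorem tail_int {Z : Finset ℝ} {b : ℝ → ℂ} {κ δ A U : ℝ} (hκ : 4 ≤ κ) (hδ : 0 ≤ δ) (hA0 : 0 ≤ A)
    (hU : 0 ≤ U) (hgap : ∀ γ ∈ Z, |γ| ≤ U - δ ∨ U + δ ≤ |γ|)
    (hA1 : ∀ t, |t| ≤ U → ∑ γ ∈ Z, Real.exp (-(κ / 4 * ((t - γ) ^ 2 + (t - γ) ^ 2))) ≤ A)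
    (hA2 : ((Z.filter (fun γ => |γ| ≤ U)).card : ℝ) ≤ A) :
    Real.sqrt κ * ∫ t, ‖FF (Z.filter (fun γ => ¬ |γ| ≤ U)) b κ t‖ ^ 2 ≤
      4 * (Real.sqrt κ * ∫ t, Xw U t * ‖FF Z b κ t‖ ^ 2) +
      4 * CB 0 * (Real.exp (-(κ * δ ^ 2)) * A) * ∑ γ ∈ Z, ‖b γ‖ ^ 2 := by
  classical
  have hκ0 : 0 < κ := by linarith
  have hs : 0 < Real.sqrt κ := Real.sqrt_pos.2 hκ0
  have i1 := FF_int Z b hκ0 (isW_Xw U)
  have i2 : ∀ γ, Integrable (fun t => Real.exp (-(κ / 4 * ((t - γ) ^ 2 + (t - γ) ^ 2)))) := by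
    intro γ
    have := pair_int isW_one.eg isW_one.cont γ γ (κ := κ / 4) (by positivity)
    simpa using this
  have i3 : Integrable (fun t => ∑ γ ∈ Z, ‖b γ‖ ^ 2 *
      Real.exp (-(κ / 4 * ((t - γ) ^ 2 + (t - γ) ^ 2)))) :=
    integrable_finsetSum _ fun γ _ => (i2 γ).const_mul _
  have h1 : ∫ t, ‖FF (Z.filter (fun γ => ¬ |γ| ≤ U)) b κ t‖ ^ 2 ≤
      ∫ t, (4 * (Xw U t * ‖FF Z b κ t‖ ^ 2) + 2 * (Real.exp (-(κ * δ ^ 2)) * A) *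
        ∑ γ ∈ Z, ‖b γ‖ ^ 2 * Real.exp (-(κ / 4 * ((t - γ) ^ 2 + (t - γ) ^ 2)))) :=
    integral_mono_of_nonneg (Eventually.of_forall fun t => sq_nonneg _)
      ((i1.const_mul _).add (i3.const_mul _))
      (Eventually.of_forall fun t => tail_pt hκ0 hδ hA0 hU hgap hA1 hA2 t)
  have e1 := integral_add (i1.const_mul 4) (i3.const_mul (2 * (Real.exp (-(κ * δ ^ 2)) * A)))
  rw [e1, integral_const_mul, integral_const_mul,
    integral_finsetSum _ fun γ _ => (i2 γ).const_mul _] at h1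
  have h2 : ∀ γ ∈ Z, Real.sqrt κ * ∫ t, ‖b γ‖ ^ 2 *
      Real.exp (-(κ / 4 * ((t - γ) ^ 2 + (t - γ) ^ 2))) ≤ 2 * CB 0 * ‖b γ‖ ^ 2 := by
    intro γ _
    rw [integral_const_mul]
    have h3 := pair_bound isW_one γ γ (κ := κ / 4) (by linarith)
    have e2 : Real.sqrt (κ / 4) = Real.sqrt κ / 2 := by
      have h4 : Real.sqrt 4 = 2 := by
        rw [show (4 : ℝ) = 2 ^ 2 by norm_num]
        exact Real.sqrt_sq (by norm_num)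
      rw [Real.sqrt_div hκ0.le, h4]
    rw [e2, sub_self] at h3
    norm_num at h3
    nlinarith [sq_nonneg (‖b γ‖)]
  have hE : 0 ≤ Real.exp (-(κ * δ ^ 2)) * A := mul_nonneg (Real.exp_pos _).le hA0
  calc Real.sqrt κ * ∫ t, ‖FF (Z.filter (fun γ => ¬ |γ| ≤ U)) b κ t‖ ^ 2
      ≤ Real.sqrt κ * (4 * (∫ t, Xw U t * ‖FF Z b κ t‖ ^ 2) +
        2 * (Real.exp (-(κ * δ ^ 2)) * A) * ∑ γ ∈ Z, ∫ t, ‖b γ‖ ^ 2 *
        Real.exp (-(κ / 4 * ((t - γ) ^ 2 + (t - γ) ^ 2)))) := by gcongr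
    _ = 4 * (Real.sqrt κ * ∫ t, Xw U t * ‖FF Z b κ t‖ ^ 2) +
        2 * (Real.exp (-(κ * δ ^ 2)) * A) * ∑ γ ∈ Z, Real.sqrt κ * ∫ t, ‖b γ‖ ^ 2 *
        Real.exp (-(κ / 4 * ((t - γ) ^ 2 + (t - γ) ^ 2))) := by
        rw [← Finset.mul_sum]
        ring
    _ ≤ 4 * (Real.sqrt κ * ∫ t, Xw U t * ‖FF Z b κ t‖ ^ 2) +
        2 * (Real.exp (-(κ * δ ^ 2)) * A) * ∑ γ ∈ Z, 2 * CB 0 * ‖b γ‖ ^ 2 := by
        have := Finset.sum_le_sum h2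
        gcongr
    _ = _ := by
        rw [← Finset.mul_sum]
        ring

end Pool.Agent.J6H39.ML
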