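import Pool.Agent.J6H39.ML.Lim1

/-! Project ML: the limit `N → ∞`. -/

set_option autoImplicit false

open Complex Filter Topology Set MeasureTheory

namespace Pool.Agent.J6H39.ML

theorem finsum_bound : ∃ C : ℝ, 0 ≤ C ∧ ∀ (Z : Finset ℝ), (∀ γ ∈ Z, γ ∈ Od) →
    ∑ γ ∈ Z, 1 / (1 + γ ^ 2) ^ 2 ≤ C := by
  classical
  obtain ⟨Cn, hCn, hrow⟩ := row
  have hK := Pool.Agent.W499.WM.K0_pos
  refine ⟨4 * Real.exp 1 * (Cn * 3 * Pool.Agent.W499.WM.K0), by positivity, fun Z hZ => ?_⟩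
  set J : Finset ℤ := Z.image (fun γ => round γ) with hJ
  have h1 : ∀ n : ℤ, ∑ γ ∈ Z, Real.exp (-((γ - n) ^ 2 / 16)) ≤ Cn * Real.log (3 + |(n : ℝ)|) :=
    fun n => hrow Z hZ n
  have h2 : ∑ n ∈ J, 1 / (1 + (n : ℝ) ^ 2) ^ 2 * ∑ γ ∈ Z, Real.exp (-((γ - n) ^ 2 / 16)) ≤
      Cn * 3 * Pool.Agent.W499.WM.K0 := by
    calc ∑ n ∈ J, 1 / (1 + (n : ℝ) ^ 2) ^ 2 * ∑ γ ∈ Z, Real.exp (-((γ - n) ^ 2 / 16))
        ≤ ∑ n ∈ J, Cn * 3 * (1 / (1 + (n : ℝ) ^ 2)) := by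
          refine Finset.sum_le_sum fun n _ => ?_
          have e1 : Real.log (3 + |(n : ℝ)|) ≤ 3 * (1 + (n : ℝ) ^ 2) := by
            have := Real.log_le_sub_one_of_pos (show 0 < 3 + |(n : ℝ)| by positivity)
            have h3 := abs_nonneg (n : ℝ)
            rw [← sq_abs (n : ℝ)]
            nlinarith [sq_nonneg (|(n : ℝ)| - 1)]
          calc 1 / (1 + (n : ℝ) ^ 2) ^ 2 * ∑ γ ∈ Z, Real.exp (-((γ - n) ^ 2 / 16))
              ≤ 1 / (1 + (n : ℝ) ^ 2) ^ 2 * (Cn * (3 * (1 + (n : ℝ) ^ 2))) := by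
                gcongr
                exact (h1 n).trans (by gcongr)
            _ = Cn * 3 * (1 / (1 + (n : ℝ) ^ 2)) := by
                field_simp
      _ = Cn * 3 * ∑ n ∈ J, (1 / (1 + (n : ℝ) ^ 2)) := by rw [Finset.mul_sum]
      _ ≤ _ := by
          gcongr
          exact Pool.Agent.W499.WM.K0_ge J
  have h3 : ∑ γ ∈ Z, 1 / (1 + (round γ : ℝ) ^ 2) ^ 2 * Real.exp (-(1 : ℝ)) ≤
      ∑ n ∈ J, 1 / (1 + (n : ℝ) ^ 2) ^ 2 * ∑ γ ∈ Z, Real.exp (-((γ - n) ^ 2 / 16)) := by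
    have e1 : ∑ n ∈ J, 1 / (1 + (n : ℝ) ^ 2) ^ 2 * ∑ γ ∈ Z, Real.exp (-((γ - n) ^ 2 / 16)) =
        ∑ γ ∈ Z, ∑ n ∈ J, 1 / (1 + (n : ℝ) ^ 2) ^ 2 * Real.exp (-((γ - n) ^ 2 / 16)) := by
      rw [Finset.sum_comm]
      refine Finset.sum_congr rfl fun n _ => ?_
      rw [Finset.mul_sum]
    rw [e1]
    refine Finset.sum_le_sum fun γ hγ => ?_
    have e2 : round γ ∈ J := Finset.mem_image_of_mem _ hγ
    refine le_trans ?_ (Finset.single_le_sum (f := fun n : ℤ => 1 / (1 + (n : ℝ) ^ 2) ^ 2 *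
      Real.exp (-((γ - n) ^ 2 / 16))) (fun n _ => by positivity) e2)
    gcongr
    have e3 := abs_sub_round γ
    have e4 : (γ - round γ) ^ 2 ≤ (1 / 2) ^ 2 := by
      rw [← sq_abs]
      gcongr
    linarith
  have h4 : ∀ γ : ℝ, 1 / (1 + γ ^ 2) ^ 2 ≤
      4 * Real.exp 1 * (1 / (1 + (round γ : ℝ) ^ 2) ^ 2 * Real.exp (-(1 : ℝ))) := by
    intro γ
    have e0 : 4 * Real.exp 1 * (1 / (1 + (round γ : ℝ) ^ 2) ^ 2 * Real.exp (-(1 : ℝ))) =
        4 / (1 + (round γ : ℝ) ^ 2) ^ 2 := by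
      have : Real.exp 1 * Real.exp (-(1 : ℝ)) = 1 := by
        rw [← Real.exp_add, add_neg_cancel, Real.exp_zero]
      linear_combination (4 / (1 + (round γ : ℝ) ^ 2) ^ 2) * this
    rw [e0, div_le_div_iff₀ (by positivity) (by positivity)]
    have e3 := abs_sub_round γ
    rw [abs_le] at e3
    have e5 : 1 + (round γ : ℝ) ^ 2 ≤ 2 * (1 + γ ^ 2) := by
      nlinarith [sq_nonneg (γ + (round γ - γ)), sq_nonneg (γ - (round γ - γ))]
    calc 1 * (1 + (round γ : ℝ) ^ 2) ^ 2 ≤ 1 * (2 * (1 + γ ^ 2)) ^ 2 := by gcongr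
      _ = _ := by ring
  calc ∑ γ ∈ Z, 1 / (1 + γ ^ 2) ^ 2
      ≤ ∑ γ ∈ Z, 4 * Real.exp 1 * (1 / (1 + (round γ : ℝ) ^ 2) ^ 2 * Real.exp (-(1 : ℝ))) :=
        Finset.sum_le_sum fun γ _ => h4 γ
    _ = 4 * Real.exp 1 * ∑ γ ∈ Z, (1 / (1 + (round γ : ℝ) ^ 2) ^ 2 * Real.exp (-(1 : ℝ))) := by
        rw [Finset.mul_sum]
    _ ≤ _ := by
        gcongr
        exact h3.trans h2

/-- Gaussian sums over the ordinates converge -/
theorem summable_gauss {b : ℝ} (hb : 0 < b) :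
    Summable (Od.indicator fun γ : ℝ => Real.exp (-(b * γ ^ 2))) := by
  classical
  obtain ⟨C, hC, h⟩ := finsum_bound
  have hnn : ∀ γ, 0 ≤ Od.indicator (fun γ : ℝ => Real.exp (-(b * γ ^ 2))) γ := fun γ =>
    indicator_nonneg (fun _ _ => (Real.exp_pos _).le) γ
  refine summable_of_sum_le hnn (c := (2 * (1 + 1 / b) ^ 2) * C) fun Z => ?_
  have e1 : ∀ γ : ℝ, Real.exp (-(b * γ ^ 2)) ≤ (2 * (1 + 1 / b) ^ 2) * (1 / (1 + γ ^ 2) ^ 2) := by
    intro γ
    have h1 := Real.quadratic_le_exp_of_nonneg (show 0 ≤ b * γ ^ 2 by positivity)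
    have h2 : (1 + γ ^ 2) ^ 2 ≤ 2 * (1 + 1 / b) ^ 2 * Real.exp (b * γ ^ 2) := by
      have e2 : (1 + γ ^ 2) ≤ (1 + 1 / b) * (1 + b * γ ^ 2) := by
        have : (1 + 1 / b) * (1 + b * γ ^ 2) = 1 + γ ^ 2 + (1 / b + b * γ ^ 2) := by
          field_simp
          ring
        rw [this]
        have : 0 ≤ 1 / b + b * γ ^ 2 := by positivity
        linarith
      calc (1 + γ ^ 2) ^ 2 ≤ ((1 + 1 / b) * (1 + b * γ ^ 2)) ^ 2 := by gcongr
        _ = (1 + 1 / b) ^ 2 * (1 + b * γ ^ 2) ^ 2 := by ring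
        _ ≤ (1 + 1 / b) ^ 2 * (2 * Real.exp (b * γ ^ 2)) := by
            gcongr
            nlinarith [sq_nonneg (b * γ ^ 2)]
        _ = _ := by ring
    rw [Real.exp_neg, mul_one_div, le_div_iff₀ (by positivity), inv_mul_le_iff₀ (Real.exp_pos _)]
    linarith
  calc ∑ γ ∈ Z, Od.indicator (fun γ : ℝ => Real.exp (-(b * γ ^ 2))) γ
      = ∑ γ ∈ Z.filter (fun γ => γ ∈ Od), Real.exp (-(b * γ ^ 2)) := by
        rw [Finset.sum_filter]
        rfl
    _ ≤ ∑ γ ∈ Z.filter (fun γ => γ ∈ Od), (2 * (1 + 1 / b) ^ 2) * (1 / (1 + γ ^ 2) ^ 2) :=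
        Finset.sum_le_sum fun γ _ => e1 γ
    _ = (2 * (1 + 1 / b) ^ 2) * ∑ γ ∈ Z.filter (fun γ => γ ∈ Od), (1 / (1 + γ ^ 2) ^ 2) := by
        rw [Finset.mul_sum]
    _ ≤ _ := by
        gcongr
        exact h _ fun γ hγ => (Finset.mem_filter.1 hγ).2

/-- the coefficients extended by zero -/
noncomputable def w0 (γ : ℝ) : ℂ := Od.indicator wc γ

theorem w0_mem {γ : ℝ} (h : γ ∈ Od) : w0 γ = wc γ := indicator_of_mem h _

theorem w0_not {γ : ℝ} (h : γ ∉ Od) : w0 γ = 0 := indicator_of_notMem h _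

theorem summable_w0g (hS : Summable fun γ => ‖w0 γ‖ ^ 2) {β : ℝ} (hβ : 0 < β) :
    Summable (fun γ => ‖w0 γ‖ * Real.exp (-(β * γ ^ 2))) := by
  have h1 := summable_gauss (by positivity : 0 < 2 * β)
  refine Summable.of_nonneg_of_le (fun γ => by positivity) (fun γ => ?_) (hS.add h1)
  by_cases hγ : γ ∈ Od
  · rw [indicator_of_mem hγ]
    have e1 : Real.exp (-(2 * β * γ ^ 2)) = Real.exp (-(β * γ ^ 2)) ^ 2 := by
      rw [← Real.exp_nat_mul]
      congr 1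
      push_cast
      ring
    rw [e1]
    nlinarith [sq_nonneg (‖w0 γ‖ - Real.exp (-(β * γ ^ 2))), norm_nonneg (w0 γ),
      Real.exp_pos (-(β * γ ^ 2))]
  · rw [indicator_of_notMem hγ, w0_not hγ]
    simp

/-- the term of the smoothed almost periodic sum -/
noncomputable def tm (β v γ : ℝ) : ℂ := w0 γ * (Real.exp (-(β * γ ^ 2)) : ℂ) * cexp (I * γ * v)

theorem norm_tm (β v γ : ℝ) : ‖tm β v γ‖ = ‖w0 γ‖ * Real.exp (-(β * γ ^ 2)) := by
  unfold tm
  have h1 : ‖cexp (I * γ * v)‖ = 1 := by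
    rw [Complex.norm_exp]
    have : (I * γ * v : ℂ).re = 0 := by simp
    rw [this, Real.exp_zero]
  rw [norm_mul, norm_mul, h1, norm_real, Real.norm_eq_abs, abs_of_pos (Real.exp_pos _), mul_one]

/-- the tail of the smoothed almost periodic sum -/
noncomputable def Pt (U β v : ℝ) : ℂ := ∑' γ : ℝ, {γ : ℝ | ¬ |γ| ≤ U}.indicator (tm β v) γ

theorem Pt_lim (hR : RHS) (hH : T_HAD) (hS : Summable fun γ => ‖w0 γ‖ ^ 2) {β : ℝ} (hβ : 0 < β)
    (U v : ℝ) : Tendsto (fun N => PP ((ZN N).filter (fun γ => ¬ |γ| ≤ U)) (bN N β) v) atTop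
      (𝓝 (Pt U β v)) := by
  classical
  set f : ℕ → ℝ → ℂ := fun N γ => if γ ∈ (ZN N).filter (fun γ => ¬ |γ| ≤ U) then
    bN N β γ * cexp (I * γ * v) else 0 with hf
  have h1 : ∀ N, PP ((ZN N).filter (fun γ => ¬ |γ| ≤ U)) (bN N β) v = ∑' γ, f N γ := by
    intro N
    rw [tsum_eq_sum (s := (ZN N).filter (fun γ => ¬ |γ| ≤ U))]
    · unfold PP
      refine Finset.sum_congr rfl fun γ hγ => ?_
      rw [hf]
      simp only
      rw [if_pos hγ]
    · intro γ hγ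
      rw [hf]
      simp only
      rw [if_neg hγ]
  simp_rw [h1]
  unfold Pt
  refine tendsto_tsum_of_dominated_convergence (bound := fun γ => ‖w0 γ‖ * Real.exp (-(β * γ ^ 2)))
    (summable_w0g hS hβ) (fun γ => ?_) (Eventually.of_forall fun N γ => ?_)
  · by_cases hγ : γ ∈ Od
    · by_cases hU : |γ| ≤ U
      · rw [indicator_of_notMem (by simpa using hU)]
        refine tendsto_const_nhds.congr fun N => ?_
        rw [hf]
        simp only
        rw [if_neg]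
        intro h
        exact (Finset.mem_filter.1 h).2 hU
      · rw [indicator_of_mem (by simpa using hU)]
        have h2 := (bN_facts hR hH β hγ).1.mul_const (cexp (I * γ * v))
        unfold tm
        rw [w0_mem hγ]
        refine h2.congr' ?_
        obtain ⟨n, hn⟩ := exists_nat_ge (|γ|)
        filter_upwards [eventually_ge_atTop n] with N hN
        rw [hf]
        simp only
        rw [if_pos]
        rw [Finset.mem_filter]
        exact ⟨mem_ZN.2 ⟨hγ, hn.trans (by exact_mod_cast hN)⟩, hU⟩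
    · have h3 : {γ : ℝ | ¬ |γ| ≤ U}.indicator (tm β v) γ = 0 := by
        rw [indicator_apply]
        unfold tm
        rw [w0_not hγ]
        simp
      rw [h3]
      refine tendsto_const_nhds.congr fun N => ?_
      rw [hf]
      simp only
      rw [if_neg]
      intro h
      exact hγ (mem_ZN.1 (Finset.mem_filter.1 h).1).1
  · rw [hf]
    simp only
    split_ifs with h
    · have h4 := mem_ZN.1 (Finset.mem_filter.1 h).1
      have h5 := (bN_facts hR hH β h4.1).2 N (Finset.mem_filter.1 h).1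
      have h6 : ‖cexp (I * γ * v)‖ = 1 := by
        rw [Complex.norm_exp]
        have : (I * γ * v : ℂ).re = 0 := by simp
        rw [this, Real.exp_zero]
      rw [norm_mul, h6, mul_one, w0_mem h4.1]
      exact h5
    · rw [norm_zero]
      positivity

theorem PP_cont (Z : Finset ℝ) (b : ℝ → ℂ) : Continuous (PP Z b) := by
  unfold PP; fun_prop

/-- the weighted sum of the coefficients -/
noncomputable def eps (U : ℝ) : ℝ := ∑' γ : ℝ, ‖w0 γ‖ ^ 2 * Xw U γ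

theorem Xw_le_one (U t : ℝ) : Xw U t ≤ 1 := by
  rw [Xw_eq]
  refine div_le_one_of_le₀ ?_ (by positivity)
  nlinarith [sq_nonneg U]

theorem Xw_pos (U t : ℝ) : 0 < Xw U t := Real.exp_pos _

theorem summable_eps (hS : Summable fun γ => ‖w0 γ‖ ^ 2) (U : ℝ) :
    Summable (fun γ => ‖w0 γ‖ ^ 2 * Xw U γ) := by
  refine Summable.of_nonneg_of_le (fun γ => mul_nonneg (by positivity) (Xw_pos _ _).le)
    (fun γ => ?_) hS
  exact mul_le_of_le_one_right (by positivity) (Xw_le_one _ _)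

theorem eps_tendsto (hS : Summable fun γ => ‖w0 γ‖ ^ 2) : Tendsto eps atTop (𝓝 0) := by
  have h1 := tendsto_tsum_of_dominated_convergence (𝓕 := atTop) (β := ℝ)
    (f := fun (U : ℝ) (γ : ℝ) => ‖w0 γ‖ ^ 2 * Xw U γ) (g := fun _ => (0 : ℝ))
    (bound := fun γ => ‖w0 γ‖ ^ 2) hS (fun γ => ?_) (Eventually.of_forall fun U γ => ?_)
  · rw [tsum_zero] at h1
    exact h1
  · have h2 : Tendsto (fun U : ℝ => Xw U γ) atTop (𝓝 0) := by
      simp_rw [Xw_eq]
      refine Tendsto.div_atTop tendsto_const_nhds ?_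
      refine tendsto_atTop_add_const_right _ _ ?_
      refine tendsto_atTop_add_const_left _ _ ?_
      exact tendsto_pow_atTop (by norm_num)
    have h3 := h2.const_mul (‖w0 γ‖ ^ 2)
    rwa [mul_zero] at h3
  · rw [Real.norm_eq_abs, abs_of_nonneg (mul_nonneg (by positivity) (Xw_pos _ _).le)]
    exact mul_le_of_le_one_right (by positivity) (Xw_le_one _ _)

/-- sum over level-`N` ordinates bounded by the full sum -/
theorem sum_ZN_le {g : ℝ → ℝ} (hg : ∀ γ, 0 ≤ g γ) (hs : Summable fun γ => ‖w0 γ‖ ^ 2 * g γ)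
    (N : ℕ) : ∑ γ ∈ ZN N, ‖wc γ‖ ^ 2 * g γ ≤ ∑' γ, ‖w0 γ‖ ^ 2 * g γ := by
  have h1 : ∑ γ ∈ ZN N, ‖wc γ‖ ^ 2 * g γ = ∑ γ ∈ ZN N, ‖w0 γ‖ ^ 2 * g γ := by
    refine Finset.sum_congr rfl fun γ hγ => ?_
    rw [w0_mem (mem_ZN.1 hγ).1]
  rw [h1]
  exact hs.sum_le_tsum _ fun γ _ => mul_nonneg (by positivity) (hg γ)

/-- **mean square bound for the tail** -/
theorem Pt_bound (hR : RHS) (hH : T_HAD) (hS : Summable fun γ => ‖w0 γ‖ ^ 2) :
    ∃ C κ0 : ℝ, 0 ≤ C ∧ 4 ≤ κ0 ∧ ∀ U δ : ℝ, 0 ≤ U → 0 < δ →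
      (∀ γ ∈ Od, |γ| ≤ U - δ ∨ U + δ ≤ |γ|) → ∃ A : ℝ, 0 ≤ A ∧ ∀ V : ℝ, 1 ≤ V → 2 ≤ κ0 * V ^ 2 →
      ∫⁻ v in Ioc 0 (V + 1), ENNReal.ofReal (‖Pt U (hV V ^ 2 / 2) v‖ ^ 2) ≤
        ENNReal.ofReal (C * V * (eps U + A * Real.exp (-(κ0 * V ^ 2 * δ ^ 2)))) := by
  classical
  obtain ⟨D, κ0, hD, hκ0, hl⟩ := lvl hR hH
  obtain ⟨C1, hC1, hl⟩ := hl (4 + 4 ^ 2) (by norm_num)
  obtain ⟨Cn, hCn, hrow⟩ := row
  set K := Real.exp ((D + 4) ^ 2 + 4) with hK
  have hKpos : 0 < K := Real.exp_pos _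
  set S0 := ∑' γ, ‖w0 γ‖ ^ 2 * 1 with hS0
  have hS1 : Summable fun γ => ‖w0 γ‖ ^ 2 * 1 := by simpa using hS
  have hS0' : 0 ≤ S0 := tsum_nonneg fun γ => by positivity
  have hCB := CB_nonneg 0
  have hκ00 : 0 < κ0 := by linarith
  refine ⟨4 * Real.sqrt κ0 * (4 * (C1 * K) + 4 * CB 0), κ0, by positivity, hκ0, ?_⟩
  intro U δ hU hδ hgap
  have hlog0 : 0 ≤ Real.log (3 + U) := Real.log_nonneg (by linarith)
  set A0 := Cn * Real.log (3 + U) + ((fin_Od U).toFinset.card : ℝ) with hA0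
  have hA0' : 0 ≤ A0 := by positivity
  refine ⟨A0 * S0, by positivity, fun V hV1 _ => ?_⟩
  have hVp : 0 < V := by linarith
  set κ := κ0 * V ^ 2 with hκ
  have hV2 : 1 ≤ V ^ 2 := by nlinarith
  have hκ4 : κ0 ≤ κ := by
    rw [hκ]; nlinarith
  have hκ4' : 4 ≤ κ := hκ0.trans hκ4
  have hκp : 0 < κ := by linarith
  have hh := hV_pos V
  set β := hV V ^ 2 / 2 with hβ
  have hβp : 0 < β := by positivity
  have hsk : Real.sqrt κ = Real.sqrt κ0 * V := by
    rw [hκ, Real.sqrt_mul hκ00.le, Real.sqrt_sq hVp.le]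
  -- level N bound
  have hN : ∀ N : ℕ, ∫ v in (0 : ℝ)..(V + 1),
      ‖PP ((ZN N).filter (fun γ => ¬ |γ| ≤ U)) (bN N β) v‖ ^ 2 ≤
      4 * Real.sqrt κ0 * (4 * (C1 * K) + 4 * CB 0) * V *
        (eps U + A0 * S0 * Real.exp (-(κ * δ ^ 2))) := by
    intro N
    set Zt := (ZN N).filter (fun γ => ¬ |γ| ≤ U) with hZt
    obtain ⟨pi, pe⟩ := plancherel Zt (bN N β) hκp
    -- the Gaussian window
    have h1 : ∫ v in (0 : ℝ)..(V + 1), ‖PP Zt (bN N β) v‖ ^ 2 ≤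
        2 * ∫ v : ℝ, ‖PP Zt (bN N β) v‖ ^ 2 * Real.exp (-(v ^ 2 / (2 * κ))) := by
      rw [intervalIntegral.integral_of_le (by linarith), ← integral_const_mul]
      have hc := PP_cont Zt (bN N β)
      have i1 : IntegrableOn (fun v => ‖PP Zt (bN N β) v‖ ^ 2) (Ioc 0 (V + 1)) :=
        ((hc.norm.pow 2).integrableOn_Icc (a := 0) (b := V + 1)).mono_set Ioc_subset_Icc_self
      refine (setIntegral_mono_on i1 (pi.const_mul 2).integrableOn measurableSet_Ioc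
        (fun v hv => ?_)).trans (setIntegral_le_integral (pi.const_mul 2)
          (Eventually.of_forall fun v => by positivity))
      have e1 : 1 / 2 ≤ Real.exp (-(v ^ 2 / (2 * κ))) := by
        have e2 : v ^ 2 / (2 * κ) ≤ 1 / 2 := by
          rw [div_le_div_iff₀ (by positivity) (by norm_num)]
          have e3 : v ^ 2 ≤ (V + 1) ^ 2 := pow_le_pow_left₀ hv.1.le hv.2 2
          have e4 : (V + 1) ^ 2 ≤ 4 * V ^ 2 := by nlinarith
          have e5 : 4 * V ^ 2 ≤ κ := by rw [hκ]; gcongr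
          linarith
        have e3 := Real.add_one_le_exp (-(v ^ 2 / (2 * κ)))
        linarith
      nlinarith [sq_nonneg (‖PP Zt (bN N β) v‖)]
    have h2 : Real.sqrt κ * ∫ t, ‖FF Zt (bN N β) κ t‖ ^ 2 ≤
        4 * (Real.sqrt κ * ∫ t, Xw U t * ‖FF (ZN N) (bN N β) κ t‖ ^ 2) +
        4 * CB 0 * (Real.exp (-(κ * δ ^ 2)) * A0) * ∑ γ ∈ ZN N, ‖bN N β γ‖ ^ 2 := by
      refine tail_int hκ4' hδ.le hA0' hU (fun γ hγ => hgap γ (mem_ZN.1 hγ).1) (fun t ht => ?_) ?_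
      · have e1 : ∑ γ ∈ ZN N, Real.exp (-(κ / 4 * ((t - γ) ^ 2 + (t - γ) ^ 2))) ≤
            ∑ γ ∈ ZN N, Real.exp (-((γ - t) ^ 2 / 16)) := by
          refine Finset.sum_le_sum fun γ _ => Real.exp_le_exp.2 ?_
          have : (t - γ) ^ 2 = (γ - t) ^ 2 := by ring
          rw [this]
          nlinarith [sq_nonneg (γ - t)]
        have e2 := hrow (ZN N) (fun γ hγ => (mem_ZN.1 hγ).1) t
        have e3 : Real.log (3 + |t|) ≤ Real.log (3 + U) :=
          Real.log_le_log (by positivity) (by linarith)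
        have e4 : Cn * Real.log (3 + |t|) ≤ Cn * Real.log (3 + U) := by gcongr
        have e5 : (0 : ℝ) ≤ ((fin_Od U).toFinset.card : ℝ) := Nat.cast_nonneg _
        linarith
      · have e1 : (ZN N).filter (fun γ => |γ| ≤ U) ⊆ (fin_Od U).toFinset := by
          intro γ hγ
          rw [Finset.mem_filter, mem_ZN] at hγ
          rw [Set.Finite.mem_toFinset]
          exact ⟨hγ.1.1, hγ.2⟩
        have e2 : (((ZN N).filter (fun γ => |γ| ≤ U)).card : ℝ) ≤ ((fin_Od U).toFinset.card : ℝ) := by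
          exact_mod_cast Finset.card_le_card e1
        have e3 : 0 ≤ Cn * Real.log (3 + U) := by positivity
        linarith
    have h3 := hl (Xw U) (isW_Xw U) κ hκ4 N β hβp.le
    have h4 : ∑ γ ∈ ZN N, ‖wc γ‖ ^ 2 * Xw U γ *
        (Real.exp (-(2 * β * γ ^ 2)) * Vw D (1 / (2 * κ)) γ) ≤ K * eps U := by
      calc ∑ γ ∈ ZN N, ‖wc γ‖ ^ 2 * Xw U γ *
            (Real.exp (-(2 * β * γ ^ 2)) * Vw D (1 / (2 * κ)) γ)
          ≤ ∑ γ ∈ ZN N, ‖wc γ‖ ^ 2 * Xw U γ * K := by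
            refine Finset.sum_le_sum fun γ _ => ?_
            have := comp_bound hD hκ0 hV1 γ
            have hx := Xw_pos U γ
            exact mul_le_mul_of_nonneg_left this (by positivity)
        _ = K * ∑ γ ∈ ZN N, ‖wc γ‖ ^ 2 * Xw U γ := by
            rw [Finset.mul_sum]
            exact Finset.sum_congr rfl fun γ _ => by ring
        _ ≤ _ := by
            gcongr
            exact sum_ZN_le (fun γ => (Xw_pos U γ).le) (summable_eps hS U) N
    have h5 : ∑ γ ∈ ZN N, ‖bN N β γ‖ ^ 2 ≤ S0 := by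
      refine le_trans (Finset.sum_le_sum fun γ hγ => ?_)
        (sum_ZN_le (g := fun _ => 1) (fun _ => zero_le_one) hS1 N)
      have e1 := (bN_facts hR hH β (mem_ZN.1 hγ).1).2 N hγ
      have e2 : Real.exp (-(β * γ ^ 2)) ≤ 1 := Real.exp_le_one_iff.2 (by
        have : 0 ≤ β * γ ^ 2 := by positivity
        linarith)
      rw [mul_one]
      have e3 : ‖bN N β γ‖ ≤ ‖wc γ‖ := e1.trans (mul_le_of_le_one_right (norm_nonneg _) e2)
      gcongr
    have heps : 0 ≤ eps U := tsum_nonneg fun γ => mul_nonneg (by positivity) (Xw_pos _ _).le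
    have hE : 0 ≤ Real.exp (-(κ * δ ^ 2)) * A0 := mul_nonneg (Real.exp_pos _).le hA0'
    have h6 : Real.sqrt κ * ∫ t, ‖FF Zt (bN N β) κ t‖ ^ 2 ≤
        (4 * (C1 * K) + 4 * CB 0) * (eps U + A0 * S0 * Real.exp (-(κ * δ ^ 2))) := by
      calc Real.sqrt κ * ∫ t, ‖FF Zt (bN N β) κ t‖ ^ 2
          ≤ 4 * (C1 * (K * eps U)) + 4 * CB 0 * (Real.exp (-(κ * δ ^ 2)) * A0) * S0 := by
            refine h2.trans (add_le_add ?_ ?_)
            · refine mul_le_mul_of_nonneg_left ?_ (by norm_num)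
              exact h3.trans (mul_le_mul_of_nonneg_left h4 hC1)
            · exact mul_le_mul_of_nonneg_left h5 (by positivity)
        _ ≤ _ := by
            have f1 : 0 ≤ 4 * (C1 * K) * (A0 * S0 * Real.exp (-(κ * δ ^ 2))) := by positivity
            have f2 : 0 ≤ 4 * CB 0 * eps U := by positivity
            nlinarith
    have hs : 0 < Real.sqrt κ := Real.sqrt_pos.2 hκp
    have hs2 : Real.sqrt κ * Real.sqrt κ = κ := Real.mul_self_sqrt hκp.le
    calc ∫ v in (0 : ℝ)..(V + 1), ‖PP Zt (bN N β) v‖ ^ 2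
        ≤ 2 * (2 * κ * ∫ t, ‖FF Zt (bN N β) κ t‖ ^ 2) := by rw [← pe]; exact h1
      _ = 4 * Real.sqrt κ * (Real.sqrt κ * ∫ t, ‖FF Zt (bN N β) κ t‖ ^ 2) := by
          have : (2 : ℝ) * (2 * κ * ∫ t, ‖FF Zt (bN N β) κ t‖ ^ 2) =
            4 * κ * ∫ t, ‖FF Zt (bN N β) κ t‖ ^ 2 := by ring
          rw [this]
          nth_rewrite 1 [← hs2]
          ring
      _ ≤ 4 * Real.sqrt κ * ((4 * (C1 * K) + 4 * CB 0) *
          (eps U + A0 * S0 * Real.exp (-(κ * δ ^ 2)))) := by gcongr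
      _ = _ := by rw [hsk]; ring
  -- Fatou
  have e1 : ∀ v, ENNReal.ofReal (‖Pt U β v‖ ^ 2) =
      liminf (fun N => ENNReal.ofReal
        (‖PP ((ZN N).filter (fun γ => ¬ |γ| ≤ U)) (bN N β) v‖ ^ 2)) atTop := by
    intro v
    refine (Tendsto.liminf_eq ?_).symm
    exact (ENNReal.continuous_ofReal.tendsto _).comp (((Pt_lim hR hH hS hβp U v).norm).pow 2)
  simp only [e1]
  refine (lintegral_liminf_le (fun N => ?_)).trans ?_
  · exact ENNReal.measurable_ofReal.comp ((((PP_cont _ _).norm).pow 2).measurable)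
  · refine liminf_le_of_le (by isBoundedDefault) ?_
    intro b hb
    obtain ⟨N, hN'⟩ := hb.exists
    refine hN'.trans ?_
    rw [← ofReal_integral_eq_lintegral_ofReal]
    · refine ENNReal.ofReal_le_ofReal ?_
      have := hN N
      rwa [intervalIntegral.integral_of_le (by linarith)] at this
    · exact ((((PP_cont _ _).norm).pow 2).integrableOn_Icc (a := 0) (b := V + 1)).mono_set
        Ioc_subset_Icc_self
    · exact Eventually.of_forall fun v => by positivity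

end Pool.Agent.J6H39.ML
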