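import Pool.Agent.J6H39.ML.Tr2
import Pool.Agent.J6H39.ML.Defs
import Pool.Agent.W120.WM.All1

/-! Project ML: the zeros, the truncated products and their derivatives. -/

set_option autoImplicit false

open Complex Filter Topology Set MeasureTheory

namespace Pool.Agent.J6H39.ML

theorem xi_eq {s : ℂ} (h0 : s ≠ 0) (h1 : s ≠ 1) (hs : 0 < s.re) :
    xi s = s * hf s * riemannZeta s := by
  have hG : Gammaℝ s ≠ 0 := Gammaℝ_ne_zero_of_re_pos hs
  have h1' : (1 : ℂ) - s ≠ 0 := sub_ne_zero.2 (Ne.symm h1)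
  rw [riemannZeta_def_of_ne_zero h0, completedRiemannZeta_eq]
  unfold xi hf
  field_simp
  ring

theorem xi_diff : Differentiable ℂ xi := by
  unfold xi
  have := differentiable_completedZeta₀
  fun_prop

/-- the set of ordinates -/
def Od : Set ℝ := {γ : ℝ | riemannZeta (pt γ) = 0}

theorem mem_Od {γ : ℝ} : γ ∈ Od ↔ pt γ ∈ NT := by
  unfold Od NT
  simp only [mem_ofPred_eq, pt_re]
  constructor
  · intro h; exact ⟨h, by norm_num, by norm_num⟩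
  · intro h; exact h.1

theorem pt_conj (γ : ℝ) : (starRingEnd ℂ) (pt γ) = pt (-γ) := by
  unfold pt
  apply Complex.ext <;> simp

theorem Od_neg {γ : ℝ} (h : γ ∈ Od) : -γ ∈ Od := by
  unfold Od at *
  simp only [mem_ofPred_eq] at *
  rw [← pt_conj, riemannZeta_conj, h, map_zero]

theorem pt_inj : Function.Injective pt := by
  intro a b h
  have := congrArg im h
  rwa [pt_im, pt_im] at this

theorem pt_ne0 (t : ℝ) : pt t ≠ 0 := by
  intro h
  have := congrArg re h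
  rw [pt_re] at this
  norm_num at this

theorem fin_Od (U : ℝ) : {γ : ℝ | γ ∈ Od ∧ |γ| ≤ U}.Finite := by
  have h1 := Pool.Agent.W280.WM.fin_NT U
  refine Set.Finite.of_finite_image (f := pt) (h1.subset ?_) pt_inj.injOn
  rintro _ ⟨γ, ⟨h2, h3⟩, rfl⟩
  exact ⟨mem_Od.1 h2, by rw [pt_im]; exact h3⟩

/-- ordinates of absolute value at most `N` -/
noncomputable def ZN (N : ℕ) : Finset ℝ := (fin_Od N).toFinset

theorem mem_ZN {N : ℕ} {γ : ℝ} : γ ∈ ZN N ↔ γ ∈ Od ∧ |γ| ≤ N := by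
  unfold ZN
  rw [Set.Finite.mem_toFinset]
  rfl

theorem fin_PO (N : ℕ) : (PO N).Finite := by
  refine (fin_Od N).subset ?_
  rintro γ ⟨h1, h2, h3⟩
  refine ⟨h3, ?_⟩
  rw [abs_of_pos h1]
  exact h2

/-- positive ordinates -/
noncomputable def PN (N : ℕ) : Finset ℝ := (fin_PO N).toFinset

theorem mem_PN {N : ℕ} {γ : ℝ} : γ ∈ PN N ↔ 0 < γ ∧ γ ≤ N ∧ γ ∈ Od := by
  unfold PN
  rw [Set.Finite.mem_toFinset]
  rfl

theorem PN_mono {N M : ℕ} (h : N ≤ M) : PN N ⊆ PN M := by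
  intro γ hγ
  rw [mem_PN] at *
  exact ⟨hγ.1, hγ.2.1.trans (by exact_mod_cast h), hγ.2.2⟩

theorem QN_prod (N : ℕ) (z : ℂ) : QN N z = ∏ γ ∈ PN N, (1 - z ^ 2 / (γ : ℂ) ^ 2) := by
  unfold QN
  rw [finprod_mem_eq_finite_toFinset_prod _ (fin_PO N)]
  rfl

theorem ZN_eq (h0 : (0 : ℝ) ∉ Od) (N : ℕ) [DecidableEq ℝ] :
    ZN N = PN N ∪ (PN N).image (fun x => -x) := by
  ext γ
  rw [mem_ZN, Finset.mem_union, Finset.mem_image]
  constructor
  · rintro ⟨h1, h2⟩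
    rcases lt_trichotomy γ 0 with h | h | h
    · right
      refine ⟨-γ, mem_PN.2 ⟨by linarith, ?_, Od_neg h1⟩, by ring⟩
      rwa [abs_of_neg h] at h2
    · exact absurd (h ▸ h1) h0
    · left
      rw [abs_of_pos h] at h2
      exact mem_PN.2 ⟨h, h2, h1⟩
  · rintro (h | ⟨δ, h, rfl⟩)
    · rw [mem_PN] at h
      exact ⟨h.2.2, by rw [abs_of_pos h.1]; exact h.2.1⟩
    · rw [mem_PN] at h
      exact ⟨Od_neg h.2.2, by rw [abs_neg, abs_of_pos h.1]; exact h.2.1⟩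

theorem QN_ZN (h0 : (0 : ℝ) ∉ Od) (N : ℕ) (z : ℂ) : QN N z = ∏ δ ∈ ZN N, (1 - z / (δ : ℂ)) := by
  classical
  rw [QN_prod, ZN_eq h0, Finset.prod_union, Finset.prod_image (fun a _ b _ h => neg_injective h),
    ← Finset.prod_mul_distrib]
  · refine Finset.prod_congr rfl fun γ hγ => ?_
    have : (γ : ℂ) ≠ 0 := by
      have := (mem_PN.1 hγ).1
      exact_mod_cast this.ne'
    push_cast
    field_simp
    ring
  · rw [Finset.disjoint_left]
    intro a h1 h2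
    obtain ⟨b, hb, hb'⟩ := Finset.mem_image.1 h2
    have h3 := (mem_PN.1 h1).1
    have h4 := (mem_PN.1 hb).1
    linarith

theorem ZN_ne0 (h0 : (0 : ℝ) ∉ Od) {N : ℕ} {γ : ℝ} (h : γ ∈ ZN N) : γ ≠ 0 := by
  rintro rfl
  exact h0 (mem_ZN.1 h).1

/-- derivative of a product at a zero of one factor -/
theorem deriv_prod_zero {ι : Type*} [DecidableEq ι] (s : Finset ι) (f : ι → ℂ → ℂ) (i : ι)
    (hi : i ∈ s) (z c : ℂ) (hf : ∀ j ∈ s, DifferentiableAt ℂ (f j) z) (h0 : f i z = 0)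
    (hd : HasDerivAt (f i) c z) :
    deriv (fun z => ∏ j ∈ s, f j z) z = c * ∏ j ∈ s.erase i, f j z := by
  have h1 : (fun z => ∏ j ∈ s, f j z) = fun z => f i z * ∏ j ∈ s.erase i, f j z := by
    funext w
    rw [Finset.mul_prod_erase s (fun j => f j w) hi]
  have h2 : DifferentiableAt ℂ (fun z => ∏ j ∈ s.erase i, f j z) z := by
    refine DifferentiableAt.fun_finsetProd fun j hj => hf j (Finset.mem_of_mem_erase hj)
  rw [h1]
  have h3 := hd.mul h2.hasDerivAt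
  have h4 := h3.deriv
  rw [h0, zero_mul, add_zero] at h4
  exact h4

/-- the normalising constant -/
noncomputable def qN (N : ℕ) : ℝ := ∏ δ ∈ ZN N, (-δ)

theorem cw_ZN (h0 : (0 : ℝ) ∉ Od) {N : ℕ} {γ : ℝ} (hγ : γ ∈ ZN N) :
    deriv (QN N) γ ≠ 0 ∧ (qN N : ℂ) * (cw (ZN N) γ : ℂ) = (deriv (QN N) γ)⁻¹ := by
  classical
  have hγ0 := ZN_ne0 h0 hγ
  have hγ0' : (γ : ℂ) ≠ 0 := by exact_mod_cast hγ0
  have hQ : QN N = fun z => ∏ δ ∈ ZN N, (1 - z / (δ : ℂ)) := funext fun z => QN_ZN h0 N z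
  have hd : HasDerivAt (fun z : ℂ => 1 - z / (γ : ℂ)) (-(1 / (γ : ℂ))) (γ : ℂ) := by
    have := ((hasDerivAt_id (γ : ℂ)).div_const (γ : ℂ)).const_sub 1
    exact this
  have h1 := deriv_prod_zero (ZN N) (fun δ z => 1 - z / (δ : ℂ)) γ hγ (γ : ℂ) _
    (fun j _ => by fun_prop) (by field_simp; ring) hd
  have h2 : deriv (QN N) γ = -(1 / (γ : ℂ)) * ∏ j ∈ (ZN N).erase γ, (1 - (γ : ℂ) / (j : ℂ)) := by
    rw [hQ]; exact h1
  have h3 : ∀ j ∈ (ZN N).erase γ, (1 - (γ : ℂ) / (j : ℂ)) = (((γ - j) / (-j) : ℝ) : ℂ) := by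
    intro j hj
    have hj0 : j ≠ 0 := ZN_ne0 h0 (Finset.mem_of_mem_erase hj)
    have hj0' : (j : ℂ) ≠ 0 := by exact_mod_cast hj0
    push_cast
    field_simp
    ring
  rw [Finset.prod_congr rfl h3, ← ofReal_prod, Finset.prod_div_distrib] at h2
  have hq : qN N = (-γ) * ∏ j ∈ (ZN N).erase γ, (-j) := by
    unfold qN
    rw [Finset.mul_prod_erase (ZN N) (fun j => -j) hγ]
  have hp1 : ∏ j ∈ (ZN N).erase γ, (γ - j) ≠ 0 := by
    rw [Finset.prod_ne_zero_iff]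
    intro j hj
    exact sub_ne_zero.2 (Finset.ne_of_mem_erase hj).symm
  have hp2 : ∏ j ∈ (ZN N).erase γ, (-j) ≠ 0 := by
    rw [Finset.prod_ne_zero_iff]
    intro j hj
    exact neg_ne_zero.2 (ZN_ne0 h0 (Finset.mem_of_mem_erase hj))
  have h4 : deriv (QN N) γ = ((-(1 / γ) * ((∏ j ∈ (ZN N).erase γ, (γ - j)) /
      ∏ j ∈ (ZN N).erase γ, (-j)) : ℝ) : ℂ) := by
    rw [h2]; push_cast; rfl
  constructor
  · rw [h4]
    have : (-(1 / γ) * ((∏ j ∈ (ZN N).erase γ, (γ - j)) / ∏ j ∈ (ZN N).erase γ, (-j)) : ℝ) ≠ 0 := by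
      refine mul_ne_zero (neg_ne_zero.2 (one_div_ne_zero hγ0)) (div_ne_zero hp1 hp2)
    exact_mod_cast this
  · rw [h4, hq]
    unfold cw
    rw [← ofReal_inv, ← ofReal_mul]
    congr 1
    field_simp

/-- monotonicity of the derivatives at the zeros -/
theorem deriv_QN_mono (h0 : (0 : ℝ) ∉ Od) {N M : ℕ} (hNM : N ≤ M) {γ : ℝ} (hγ : γ ∈ ZN N) :
    ‖deriv (QN M) γ‖ ≤ ‖deriv (QN N) γ‖ := by
  classical
  have hγ0 := ZN_ne0 h0 hγ
  have hγN := (mem_ZN.1 hγ).2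
  have hQ : QN M = fun z => QN N z * ∏ γ' ∈ PN M \ PN N, (1 - z ^ 2 / (γ' : ℂ) ^ 2) := by
    funext z
    rw [QN_prod, QN_prod, mul_comm, Finset.prod_sdiff (PN_mono hNM)]
  have hQN : DifferentiableAt ℂ (QN N) γ := by
    have : QN N = fun z => ∏ γ' ∈ PN N, (1 - z ^ 2 / (γ' : ℂ) ^ 2) := funext fun z => QN_prod N z
    rw [this]
    fun_prop
  have hR : DifferentiableAt ℂ (fun z : ℂ => ∏ γ' ∈ PN M \ PN N, (1 - z ^ 2 / (γ' : ℂ) ^ 2)) γ := by
    fun_prop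
  have hz : QN N γ = 0 := by
    rw [QN_ZN h0]
    refine Finset.prod_eq_zero hγ ?_
    have : (γ : ℂ) ≠ 0 := by exact_mod_cast hγ0
    field_simp
    ring
  have h1 : deriv (QN M) γ = deriv (QN N) γ *
      ∏ γ' ∈ PN M \ PN N, (1 - (γ : ℂ) ^ 2 / (γ' : ℂ) ^ 2) := by
    rw [hQ]
    have h9 := (hQN.hasDerivAt.mul hR.hasDerivAt).deriv
    rw [hz, zero_mul, add_zero] at h9
    exact h9
  rw [h1, norm_mul]
  refine mul_le_of_le_one_right (norm_nonneg _) ?_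
  rw [norm_prod]
  refine Finset.prod_le_one (fun _ _ => norm_nonneg _) fun γ' hγ' => ?_
  rw [Finset.mem_sdiff, mem_PN, mem_PN] at hγ'
  obtain ⟨⟨a1, a2, a3⟩, a4⟩ := hγ'
  have a5 : (N : ℝ) < γ' := by
    by_contra hcon
    push Not at hcon
    exact a4 ⟨a1, hcon, a3⟩
  have e : (1 - (γ : ℂ) ^ 2 / (γ' : ℂ) ^ 2) = ((1 - γ ^ 2 / γ' ^ 2 : ℝ) : ℂ) := by push_cast; rfl
  rw [e, norm_real, Real.norm_eq_abs]
  have h2 : γ ^ 2 ≤ γ' ^ 2 := by
    rw [← sq_abs γ]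
    exact pow_le_pow_left₀ (abs_nonneg _) (by linarith) 2
  have h3 : γ ^ 2 / γ' ^ 2 ≤ 1 := div_le_one_of_le₀ h2 (by positivity)
  have h4 : 0 ≤ γ ^ 2 / γ' ^ 2 := by positivity
  rw [abs_of_nonneg (by linarith)]
  linarith

/-- the limit function -/
noncomputable def Xf (z : ℂ) : ℂ := xi (1 / 2 + I * z) / xi (1 / 2)

/-- coefficient `1 / (ρ ζ'(ρ))` -/
noncomputable def wc (γ : ℝ) : ℂ := (pt γ * deriv riemannZeta (pt γ))⁻¹

theorem deriv_Xf {γ : ℝ} (hγ : γ ∈ Od) :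
    deriv Xf γ = I * (pt γ * ht γ * deriv riemannZeta (pt γ)) / xi (1 / 2) := by
  have h1 : HasDerivAt xi (pt γ * ht γ * deriv riemannZeta (pt γ)) (pt γ) := by
    have hre : (0 : ℝ) < (pt γ).re := by rw [pt_re]; norm_num
    have hz : HasDerivAt riemannZeta (deriv riemannZeta (pt γ)) (pt γ) :=
      (differentiableAt_riemannZeta (pt_ne γ)).hasDerivAt
    have hh := hasDerivAt_hf hre (pt_ne γ)
    have h2 := ((hasDerivAt_id (pt γ)).mul hh).mul hz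
    have h3 : xi =ᶠ[𝓝 (pt γ)] fun s => id s * hf s * riemannZeta s := by
      have e1 : {z : ℂ | 0 < z.re} ∈ 𝓝 (pt γ) :=
        (isOpen_lt continuous_const continuous_re).mem_nhds hre
      have e2 : {z : ℂ | z ≠ 0} ∈ 𝓝 (pt γ) := isOpen_ne.mem_nhds (pt_ne0 γ)
      have e3 : {z : ℂ | z ≠ 1} ∈ 𝓝 (pt γ) := isOpen_ne.mem_nhds (pt_ne γ)
      filter_upwards [e1, e2, e3] with s h1 h2 h3
      exact xi_eq h2 h3 h1
    refine (h2.congr_of_eventuallyEq h3).congr_deriv ?_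
    have hz0 : riemannZeta (pt γ) = 0 := hγ
    rw [hz0, mul_zero, zero_add]
    rfl
  have h2 : HasDerivAt (fun z : ℂ => 1 / 2 + I * z) I (γ : ℂ) := by
    have := ((hasDerivAt_id (γ : ℂ)).const_mul I).const_add (1 / 2)
    simpa using this
  have h3 : HasDerivAt (fun z : ℂ => xi (1 / 2 + I * z))
      (pt γ * ht γ * deriv riemannZeta (pt γ) * I) (γ : ℂ) :=
    HasDerivAt.comp (h := fun z : ℂ => 1 / 2 + I * z) (γ : ℂ) h1 h2
  have h4 := h3.div_const (xi (1 / 2))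
  have h5 : deriv Xf γ = pt γ * ht γ * deriv riemannZeta (pt γ) * I / xi (1 / 2) := h4.deriv
  rw [h5]
  ring

/-- the level-`N` coefficients, converging to `wc` -/
noncomputable def bN (N : ℕ) (β γ : ℝ) : ℂ :=
  (I / xi (1 / 2)) * (ht γ * ((qN N : ℂ) * (ca (ZN N) β γ : ℂ)))

theorem bN_facts (hR : RHS) (hH : T_HAD) (β : ℝ) {γ : ℝ} (hγ : γ ∈ Od) :
    Tendsto (fun N => bN N β γ) atTop (𝓝 (wc γ * Real.exp (-(β * γ ^ 2)))) ∧
    ∀ N, γ ∈ ZN N → ‖bN N β γ‖ ≤ ‖wc γ‖ * Real.exp (-(β * γ ^ 2)) := by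
  obtain ⟨-, hx0, hlim⟩ := hH hR
  have h0 : (0 : ℝ) ∉ Od := by
    intro h
    apply hx0
    have e : pt 0 = 1 / 2 := by unfold pt; simp
    have h1 := xi_eq (pt_ne0 0) (pt_ne 0) (by rw [pt_re]; norm_num)
    have h2 : riemannZeta (pt 0) = 0 := h
    rw [h2, mul_zero, e] at h1
    exact h1
  have hds : ∀ N, DifferentiableOn ℂ (fun z => QN N z) univ := by
    intro N
    have : (fun z => QN N z) = fun z => ∏ γ' ∈ PN N, (1 - z ^ 2 / (γ' : ℂ) ^ 2) :=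
      funext fun z => QN_prod N z
    rw [this]
    fun_prop
  have hder : Tendsto (fun N => deriv (QN N) γ) atTop (𝓝 (deriv Xf γ)) := by
    have h1 := hlim.deriv (Eventually.of_forall hds) isOpen_univ
    have h2 := h1.tendsto_at (mem_univ (γ : ℂ))
    exact h2
  have hXne : deriv Xf γ ≠ 0 := by
    rw [deriv_Xf hγ]
    refine div_ne_zero (mul_ne_zero I_ne_zero (mul_ne_zero (mul_ne_zero (pt_ne0 γ) (ht_ne γ)) ?_)) hx0
    exact (hR _ (mem_Od.1 hγ)).2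
  have hbd : ∀ N, γ ∈ ZN N → ‖deriv Xf γ‖ ≤ ‖deriv (QN N) γ‖ := by
    intro N hN
    refine le_of_tendsto hder.norm ?_
    filter_upwards [eventually_ge_atTop N] with M hM
    exact deriv_QN_mono h0 hM hN
  have hform : ∀ N, γ ∈ ZN N → bN N β γ =
      (I / xi (1 / 2)) * ht γ * (deriv (QN N) γ)⁻¹ * Real.exp (-(β * γ ^ 2)) := by
    intro N hN
    have h1 := (cw_ZN h0 hN).2
    unfold bN ca
    rw [← h1]
    push_cast
    ring
  have hlimform : (I / xi (1 / 2)) * ht γ * (deriv Xf γ)⁻¹ = wc γ := by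
    rw [deriv_Xf hγ]
    unfold wc
    have a1 := I_ne_zero
    have a2 := ht_ne γ
    have a3 := pt_ne0 γ
    have a4 := (hR _ (mem_Od.1 hγ)).2
    field_simp
  have hev : ∀ᶠ N : ℕ in atTop, γ ∈ ZN N := by
    obtain ⟨n, hn⟩ := exists_nat_ge (|γ|)
    filter_upwards [eventually_ge_atTop n] with N hN
    exact mem_ZN.2 ⟨hγ, hn.trans (by exact_mod_cast hN)⟩
  constructor
  · have h1 : Tendsto (fun N => (I / xi (1 / 2)) * ht γ * (deriv (QN N) γ)⁻¹ *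
        (Real.exp (-(β * γ ^ 2)) : ℂ)) atTop
        (𝓝 ((I / xi (1 / 2)) * ht γ * (deriv Xf γ)⁻¹ * (Real.exp (-(β * γ ^ 2)) : ℂ))) :=
      ((hder.inv₀ hXne).const_mul _).mul_const _
    rw [hlimform] at h1
    refine h1.congr' ?_
    filter_upwards [hev] with N hN
    exact (hform N hN).symm
  · intro N hN
    rw [hform N hN, ← hlimform]
    simp only [norm_mul, norm_inv]
    rw [norm_real, Real.norm_eq_abs, abs_of_pos (Real.exp_pos _)]
    have h1 := hbd N hN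
    have h2 : 0 < ‖deriv Xf γ‖ := norm_pos_iff.2 hXne
    gcongr

end Pool.Agent.J6H39.ML
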