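import Pool.Agent.J6H39.ML.Heat

/-! Project ML: monotonicity of the energy and the energy bound. -/

set_option autoImplicit false

open Filter Topology Set MeasureTheory

namespace Pool.Agent.J6H39.ML

theorem En_nonneg {W : ℝ → ℝ} (hp : ∀ t, 0 ≤ W t) (Z : Finset ℝ) (a : ℝ → ℝ) (κ : ℝ) :
    0 ≤ En W Z a κ := integral_nonneg fun t => mul_nonneg (hp t) (sq_nonneg _)

theorem En_mono {B : ℝ} {W : ℝ → ℝ} (h : IsW B W) (Z : Finset ℝ) {β : ℝ} (hβ : 0 ≤ β) :
    MonotoneOn (fun κ => Real.sqrt κ * Real.exp (-(B / (8 * κ))) * En W Z (ca Z β) κ) (Ioi 0) := by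
  have hd : ∀ κ ∈ Ioi (0 : ℝ), HasDerivAt
      (fun κ => Real.sqrt κ * Real.exp (-(B / (8 * κ))) * En W Z (ca Z β) κ)
      ((1 / (2 * Real.sqrt κ) * Real.exp (-(B / (8 * κ))) +
        Real.sqrt κ * (Real.exp (-(B / (8 * κ))) * (B / (8 * κ ^ 2)))) * En W Z (ca Z β) κ +
        Real.sqrt κ * Real.exp (-(B / (8 * κ))) * (-(1 / (2 * κ ^ 2)) *
          ∫ t, W t * KK Z (ca Z β) κ t * (KK2 Z (ca Z β) κ t + 2 * κ * KK Z (ca Z β) κ t))) κ := by
    intro κ hκ
    have hκ' : (0 : ℝ) < κ := hκ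
    have h1 := Real.hasDerivAt_sqrt hκ'.ne'
    have h2 : HasDerivAt (fun κ : ℝ => -(B / (8 * κ))) (B / (8 * κ ^ 2)) κ := by
      have h3 : HasDerivAt (fun κ : ℝ => κ⁻¹) (-(κ ^ 2)⁻¹) κ := hasDerivAt_inv hκ'.ne'
      have h4 := h3.const_mul (-(B / 8))
      refine (h4.congr_of_eventuallyEq ?_).congr_deriv (by field_simp)
      refine Eventually.of_forall fun x => ?_
      simp only
      rw [div_eq_mul_inv, mul_inv]
      ring
    exact (h1.mul h2.exp).mul (En_deriv h Z (ca Z β) hκ')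
  refine monotoneOn_of_deriv_nonneg (convex_Ioi 0)
    (fun κ hκ => (hd κ hκ).continuousAt.continuousWithinAt)
    (fun κ hκ => (hd κ (interior_subset hκ)).differentiableAt.differentiableWithinAt) ?_
  intro κ hκ
  have hκ : (0 : ℝ) < κ := interior_subset hκ
  rw [(hd κ hκ).deriv]
  have h1 := En_ineq h Z hβ hκ
  set I := ∫ t, W t * KK Z (ca Z β) κ t * (KK2 Z (ca Z β) κ t + 2 * κ * KK Z (ca Z β) κ t) with hI
  set E := En W Z (ca Z β) κ with hE
  have hs : 0 < Real.sqrt κ := Real.sqrt_pos.2 hκ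
  have hs2 : Real.sqrt κ ^ 2 = κ := Real.sq_sqrt hκ.le
  have hx : 0 < Real.exp (-(B / (8 * κ))) := Real.exp_pos _
  have e1 : (1 / (2 * Real.sqrt κ) * Real.exp (-(B / (8 * κ))) +
        Real.sqrt κ * (Real.exp (-(B / (8 * κ))) * (B / (8 * κ ^ 2)))) * E +
        Real.sqrt κ * Real.exp (-(B / (8 * κ))) * (-(1 / (2 * κ ^ 2)) * I) =
      Real.sqrt κ * Real.exp (-(B / (8 * κ))) / (4 * κ ^ 2) *
        ((2 * κ + B / 2) * E - 2 * I) := by
    have : 1 / (2 * Real.sqrt κ) = Real.sqrt κ / (2 * κ) := by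
      rw [div_eq_div_iff (by positivity) (by positivity)]
      nlinarith
    rw [this]
    field_simp
    ring
  rw [e1]
  exact mul_nonneg (by positivity) (by linarith)

/-- the constant in the diagonal bound -/
noncomputable def CB (B : ℝ) : ℝ := ∫ y : ℝ, Real.exp (B * |y|) * Real.exp (-(2 * (y - 0) ^ 2))

theorem eg_expabs (B : ℝ) (hB : 0 ≤ B) : EG (fun t => Real.exp (B * |t|)) :=
  ⟨1, B, hB, fun t => by rw [abs_of_pos (Real.exp_pos _), one_mul]⟩

theorem CB_nonneg (B : ℝ) : 0 ≤ CB B :=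
  integral_nonneg fun _ => mul_nonneg (Real.exp_pos _).le (Real.exp_pos _).le

theorem pair_bound {B : ℝ} {W : ℝ → ℝ} (h : IsW B W) (γ δ : ℝ) {κ : ℝ} (hκ : 1 ≤ κ) :
    Real.sqrt κ * ∫ t, W t * Real.exp (-(κ * ((t - γ) ^ 2 + (t - δ) ^ 2))) ≤
      CB B * (W ((γ + δ) / 2) * Real.exp (-(κ * ((γ - δ) ^ 2 / 2)))) := by
  have hκ0 : 0 < κ := by linarith
  set m := (γ + δ) / 2 with hm
  have hs : 0 < Real.sqrt κ := Real.sqrt_pos.2 hκ0
  have hs2 : Real.sqrt κ ^ 2 = κ := Real.sq_sqrt hκ0.le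
  have hs1 : 1 ≤ Real.sqrt κ := Real.one_le_sqrt.2 hκ
  have hWm := h.pos m
  have hB := h.1
  -- pointwise bound
  have h1 : ∀ t, W t * Real.exp (-(κ * ((t - γ) ^ 2 + (t - δ) ^ 2))) ≤
      (W m * Real.exp (-(κ * ((γ - δ) ^ 2 / 2)))) *
        (Real.exp (B * |Real.sqrt κ * (t - m)|) *
          Real.exp (-(2 * (Real.sqrt κ * (t - m) - 0) ^ 2))) := by
    intro t
    have e1 : Real.exp (-(κ * ((t - γ) ^ 2 + (t - δ) ^ 2))) =
        Real.exp (-(κ * ((γ - δ) ^ 2 / 2))) * Real.exp (-(2 * (Real.sqrt κ * (t - m) - 0) ^ 2)) := by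
      rw [← Real.exp_add]
      congr 1
      rw [sub_zero, mul_pow, hs2, hm]
      ring
    have e2 : W t ≤ W m * Real.exp (B * |Real.sqrt κ * (t - m)|) := by
      refine (h.slow t m).trans ?_
      have e3 : |t - m| ≤ |Real.sqrt κ * (t - m)| := by
        rw [abs_mul, abs_of_pos hs]
        nlinarith [abs_nonneg (t - m)]
      exact mul_le_mul_of_nonneg_left (Real.exp_le_exp.2 (mul_le_mul_of_nonneg_left e3 hB)) hWm.le
    rw [e1]
    calc W t * (Real.exp (-(κ * ((γ - δ) ^ 2 / 2))) *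
          Real.exp (-(2 * (Real.sqrt κ * (t - m) - 0) ^ 2)))
        ≤ (W m * Real.exp (B * |Real.sqrt κ * (t - m)|)) * (Real.exp (-(κ * ((γ - δ) ^ 2 / 2))) *
          Real.exp (-(2 * (Real.sqrt κ * (t - m) - 0) ^ 2))) := by gcongr
      _ = _ := by ring
  have hg : Integrable (fun y : ℝ => Real.exp (B * |y|) * Real.exp (-(2 * (y - 0) ^ 2))) :=
    (eg_expabs B hB).int (by fun_prop) (by norm_num) 0
  have hg2 : Integrable (fun t : ℝ => Real.exp (B * |Real.sqrt κ * (t - m)|) *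
      Real.exp (-(2 * (Real.sqrt κ * (t - m) - 0) ^ 2))) := by
    have := (hg.comp_mul_left' hs.ne').comp_sub_right m
    exact this
  have h2 : ∫ t : ℝ, Real.exp (B * |Real.sqrt κ * (t - m)|) *
      Real.exp (-(2 * (Real.sqrt κ * (t - m) - 0) ^ 2)) = (Real.sqrt κ)⁻¹ * CB B := by
    rw [integral_sub_right_eq_self (fun t : ℝ => Real.exp (B * |Real.sqrt κ * t|) *
      Real.exp (-(2 * (Real.sqrt κ * t - 0) ^ 2))) m]
    rw [Measure.integral_comp_mul_left (fun y : ℝ => Real.exp (B * |y|) *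
      Real.exp (-(2 * (y - 0) ^ 2))) (Real.sqrt κ)]
    rw [abs_of_pos (inv_pos.2 hs), smul_eq_mul]
    rfl
  calc Real.sqrt κ * ∫ t, W t * Real.exp (-(κ * ((t - γ) ^ 2 + (t - δ) ^ 2)))
      ≤ Real.sqrt κ * ∫ t, (W m * Real.exp (-(κ * ((γ - δ) ^ 2 / 2)))) *
        (Real.exp (B * |Real.sqrt κ * (t - m)|) *
          Real.exp (-(2 * (Real.sqrt κ * (t - m) - 0) ^ 2))) := by
        refine mul_le_mul_of_nonneg_left ?_ hs.le
        exact integral_mono (pair_int h.eg h.cont γ δ hκ0) (hg2.const_mul _) h1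
    _ = Real.sqrt κ * ((W m * Real.exp (-(κ * ((γ - δ) ^ 2 / 2)))) *
        ((Real.sqrt κ)⁻¹ * CB B)) := by rw [integral_const_mul, h2]
    _ = _ := by field_simp

/-- **The energy bound.** -/
theorem En_bound {B : ℝ} {W : ℝ → ℝ} (h : IsW B W) (Z : Finset ℝ) {β : ℝ} (hβ : 0 ≤ β) {κ : ℝ}
    (hκ : 1 / 4 ≤ κ) : Real.sqrt κ * En W Z (ca Z β) κ ≤
      Real.exp (B / 2) * CB B * ∑ γ ∈ Z, ca Z β γ ^ 2 * W γ := by
  classical
  set a := ca Z β with ha
  have hκ0 : 0 < κ := by linarith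
  have hB := h.1
  have hmono := En_mono h Z hβ
  have h1 : ∀ L : ℝ, κ ≤ L → 1 ≤ L →
      Real.sqrt κ * Real.exp (-(B / (8 * κ))) * En W Z a κ ≤
        CB B * ∑ γ ∈ Z, ∑ δ ∈ Z, |a γ * a δ| * (W ((γ + δ) / 2) *
          Real.exp (-(L * ((γ - δ) ^ 2 / 2)))) := by
    intro L hL1 hL2
    have hL0 : 0 < L := by linarith
    refine (hmono hκ0 hL0 hL1).trans ?_
    have h2 : Real.sqrt L * Real.exp (-(B / (8 * L))) * En W Z a L ≤ Real.sqrt L * En W Z a L := by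
      have h3 := En_nonneg (fun t => (h.pos t).le) Z a L
      have h4 : Real.exp (-(B / (8 * L))) ≤ 1 := Real.exp_le_one_iff.2 (by
        have : 0 ≤ B / (8 * L) := by positivity
        linarith)
      calc _ ≤ Real.sqrt L * 1 * En W Z a L := by gcongr
        _ = _ := by rw [mul_one]
    refine h2.trans ?_
    rw [En_eq h.eg h.cont Z a hL0, Finset.mul_sum, Finset.mul_sum]
    refine Finset.sum_le_sum fun γ _ => ?_
    rw [Finset.mul_sum, Finset.mul_sum]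
    refine Finset.sum_le_sum fun δ _ => ?_
    have h5 := pair_bound h γ δ hL2
    have h6 : 0 ≤ ∫ t, W t * Real.exp (-(L * ((t - γ) ^ 2 + (t - δ) ^ 2))) :=
      integral_nonneg fun t => mul_nonneg (h.pos t).le (Real.exp_pos _).le
    have h7 : 0 ≤ Real.sqrt L * ∫ t, W t * Real.exp (-(L * ((t - γ) ^ 2 + (t - δ) ^ 2))) :=
      mul_nonneg (Real.sqrt_nonneg _) h6
    calc Real.sqrt L * (a γ * a δ * ∫ t, W t * Real.exp (-(L * ((t - γ) ^ 2 + (t - δ) ^ 2))))
        = (a γ * a δ) * (Real.sqrt L * ∫ t, W t *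
            Real.exp (-(L * ((t - γ) ^ 2 + (t - δ) ^ 2)))) := by ring
      _ ≤ |a γ * a δ| * (Real.sqrt L * ∫ t, W t *
            Real.exp (-(L * ((t - γ) ^ 2 + (t - δ) ^ 2)))) := by
          gcongr
          exact le_abs_self _
      _ ≤ |a γ * a δ| * (CB B * (W ((γ + δ) / 2) * Real.exp (-(L * ((γ - δ) ^ 2 / 2))))) := by
          gcongr
      _ = _ := by ring
  have h2 : Tendsto (fun L : ℝ => CB B * ∑ γ ∈ Z, ∑ δ ∈ Z, |a γ * a δ| * (W ((γ + δ) / 2) *
          Real.exp (-(L * ((γ - δ) ^ 2 / 2))))) atTop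
        (𝓝 (CB B * ∑ γ ∈ Z, ∑ δ ∈ Z, if γ = δ then a γ ^ 2 * W γ else 0)) := by
    refine Tendsto.const_mul _ (tendsto_finsetSum _ fun γ _ => tendsto_finsetSum _ fun δ _ => ?_)
    by_cases hγδ : γ = δ
    · subst hγδ
      rw [if_pos rfl]
      have e : ∀ L : ℝ, |a γ * a γ| * (W ((γ + γ) / 2) * Real.exp (-(L * ((γ - γ) ^ 2 / 2)))) =
          a γ ^ 2 * W γ := by
        intro L
        have e1 : (γ + γ) / 2 = γ := by ring
        rw [e1, sub_self, abs_of_nonneg (mul_self_nonneg (a γ)), ← sq]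
        simp
      simp_rw [e]
      exact tendsto_const_nhds
    · rw [if_neg hγδ]
      have hpos : 0 < (γ - δ) ^ 2 / 2 := by
        have : γ - δ ≠ 0 := sub_ne_zero.2 hγδ
        positivity
      have h3 : Tendsto (fun L : ℝ => Real.exp (-(L * ((γ - δ) ^ 2 / 2)))) atTop (𝓝 0) := by
        refine Real.tendsto_exp_neg_atTop_nhds_zero.comp ?_
        exact tendsto_id.atTop_mul_const hpos
      have h4 := (h3.const_mul (W ((γ + δ) / 2))).const_mul (|a γ * a δ|)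
      simpa using h4
  have h3 : Real.sqrt κ * Real.exp (-(B / (8 * κ))) * En W Z a κ ≤
      CB B * ∑ γ ∈ Z, ∑ δ ∈ Z, if γ = δ then a γ ^ 2 * W γ else 0 := by
    refine ge_of_tendsto h2 ?_
    filter_upwards [eventually_ge_atTop κ, eventually_ge_atTop 1] with L hL1 hL2
    exact h1 L hL1 hL2
  have h4 : ∑ γ ∈ Z, ∑ δ ∈ Z, (if γ = δ then a γ ^ 2 * W γ else 0) =
      ∑ γ ∈ Z, a γ ^ 2 * W γ := by
    refine Finset.sum_congr rfl fun γ hγ => ?_
    rw [Finset.sum_ite_eq, if_pos hγ]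
  rw [h4] at h3
  have h5 : 1 ≤ Real.exp (B / 2) * Real.exp (-(B / (8 * κ))) := by
    rw [← Real.exp_add]
    apply Real.one_le_exp
    have : B / (8 * κ) ≤ B / 2 := by
      apply div_le_div_of_nonneg_left hB (by norm_num)
      linarith
    linarith
  have h6 := En_nonneg (fun t => (h.pos t).le) Z a κ
  calc Real.sqrt κ * En W Z a κ = Real.sqrt κ * 1 * En W Z a κ := by rw [mul_one]
    _ ≤ Real.sqrt κ * (Real.exp (B / 2) * Real.exp (-(B / (8 * κ)))) * En W Z a κ := by gcongr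
    _ = Real.exp (B / 2) * (Real.sqrt κ * Real.exp (-(B / (8 * κ))) * En W Z a κ) := by ring
    _ ≤ Real.exp (B / 2) * (CB B * ∑ γ ∈ Z, a γ ^ 2 * W γ) := by gcongr
    _ = _ := by ring

end Pool.Agent.J6H39.ML
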