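import Mathlib

/-! Project ML: counting zeros with Rolle's theorem, exponential sums. -/

set_option autoImplicit false

open Filter Topology Set

namespace Pool.Agent.J6H39.ML

/-- Rolle's theorem for a finite set of zeros. -/
theorem rolle_finset {f f' : ℝ → ℝ} (hf : ∀ x, HasDerivAt f (f' x) x) (S : Finset ℝ) :
    (∀ x ∈ S, f x = 0) → ∃ T : Finset ℝ, S.card ≤ T.card + 1 ∧
      ∀ t ∈ T, f' t = 0 ∧ (∃ a ∈ S, a < t) ∧ (∃ b ∈ S, t < b) := by
  classical
  have hc : Continuous f := continuous_iff_continuousAt.2 fun x => (hf x).continuousAt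
  induction S using Finset.induction_on_max with
  | empty => intro _; exact ⟨∅, by simp, by simp⟩
  | insert a S hlt ih =>
    intro hz
    obtain ⟨T, hT, hT'⟩ := ih (fun x hx => hz x (Finset.mem_insert_of_mem hx))
    have haS : a ∉ S := fun h => lt_irrefl _ (hlt a h)
    rcases S.eq_empty_or_nonempty with rfl | hne
    · exact ⟨∅, by simp, by simp⟩
    · have hm := S.max'_mem hne
      have hma := hlt _ hm
      obtain ⟨c, hc1, hc2⟩ := exists_hasDerivAt_eq_zero hma hc.continuousOn
        ((hz _ (Finset.mem_insert_of_mem hm)).trans (hz a (Finset.mem_insert_self _ _)).symm)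
        (fun x _ => hf x)
      have hcT : c ∉ T := by
        intro h
        obtain ⟨b, hb, hb'⟩ := (hT' c h).2.2
        exact absurd (S.le_max' b hb) (not_le.2 (hc1.1.trans hb'))
      refine ⟨insert c T, ?_, ?_⟩
      · rw [Finset.card_insert_of_notMem haS, Finset.card_insert_of_notMem hcT]
        omega
      · intro t ht
        rcases Finset.mem_insert.1 ht with rfl | ht
        · exact ⟨hc2, ⟨_, Finset.mem_insert_of_mem hm, hc1.1⟩, ⟨a, Finset.mem_insert_self _ _, hc1.2⟩⟩
        · obtain ⟨h1, ⟨x, hx, hx'⟩, ⟨y, hy, hy'⟩⟩ := hT' t ht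
          exact ⟨h1, ⟨x, Finset.mem_insert_of_mem hx, hx'⟩, ⟨y, Finset.mem_insert_of_mem hy, hy'⟩⟩

/-- an exponential sum with `n` frequencies and `n` distinct zeros has vanishing coefficients -/
theorem expsum_zeros (J : Finset ℝ) : ∀ (a : ℝ → ℝ) (S : Finset ℝ),
    (∀ t ∈ S, ∑ l ∈ J, a l * Real.exp (l * t) = 0) → J.card ≤ S.card → ∀ l ∈ J, a l = 0 := by
  classical
  induction J using Finset.induction_on with
  | empty => intro a S _ _ l hl; simp at hl
  | insert m J hm ih =>
    intro a S hS hcard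
    rw [Finset.card_insert_of_notMem hm] at hcard
    set f : ℝ → ℝ := fun t => a m + ∑ l ∈ J, a l * Real.exp ((l - m) * t) with hf
    set f' : ℝ → ℝ := fun t => ∑ l ∈ J, a l * (l - m) * Real.exp ((l - m) * t) with hf'
    have hd : ∀ x, HasDerivAt f (f' x) x := by
      intro x
      have h1 : ∀ l ∈ J, HasDerivAt (fun t => a l * Real.exp ((l - m) * t))
          (a l * (l - m) * Real.exp ((l - m) * x)) x := by
        intro l _
        have h2 : HasDerivAt (fun t : ℝ => (l - m) * t) ((l - m) * 1) x :=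
          (hasDerivAt_id x).const_mul (l - m)
        have h3 := h2.exp.const_mul (a l)
        exact h3.congr_deriv (by ring)
      have h4 := HasDerivAt.fun_sum h1
      have h5 := h4.const_add (a m)
      exact h5
    have hz : ∀ x ∈ S, f x = 0 := by
      intro x hx
      have h1 := hS x hx
      rw [Finset.sum_insert hm] at h1
      have h2 : f x = Real.exp (-(m * x)) * (a m * Real.exp (m * x) +
          ∑ l ∈ J, a l * Real.exp (l * x)) := by
        rw [hf]
        simp only
        rw [mul_add, Finset.mul_sum]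
        congr 1
        · rw [Real.exp_neg]
          field_simp
        · refine Finset.sum_congr rfl fun l _ => ?_
          have : Real.exp ((l - m) * x) = Real.exp (-(m * x)) * Real.exp (l * x) := by
            rw [← Real.exp_add]; ring_nf
          rw [this]
          ring
      rw [h2, h1, mul_zero]
    obtain ⟨T, hT, hT'⟩ := rolle_finset hd S hz
    have h3 : ∀ l ∈ J, a l * (l - m) = 0 := by
      refine ih (fun l => a l * (l - m)) T ?_ (by omega)
      intro t ht
      have h4 := (hT' t ht).1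
      have h5 : ∑ l ∈ J, a l * (l - m) * Real.exp (l * t) = Real.exp (m * t) * f' t := by
        rw [hf']
        simp only
        rw [Finset.mul_sum]
        refine Finset.sum_congr rfl fun l _ => ?_
        have : Real.exp (l * t) = Real.exp (m * t) * Real.exp ((l - m) * t) := by
          rw [← Real.exp_add]; ring_nf
        rw [this]
        ring
      rw [h5, h4, mul_zero]
    have h6 : ∀ l ∈ J, a l = 0 := by
      intro l hl
      rcases mul_eq_zero.1 (h3 l hl) with h | h
      · exact h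
      · have : l = m := by linarith
        exact absurd (this ▸ hl) hm
    intro l hl
    rcases Finset.mem_insert.1 hl with rfl | hl
    · have hSne : S.Nonempty := Finset.card_pos.1 (by omega)
      obtain ⟨t, ht⟩ := hSne
      have h1 := hS t ht
      rw [Finset.sum_insert hm, Finset.sum_eq_zero (fun l hl => by rw [h6 l hl, zero_mul]),
        add_zero] at h1
      rcases mul_eq_zero.1 h1 with h | h
      · exact h
      · exact absurd h (Real.exp_pos _).ne'
    · exact h6 l hl

/-- between a zero and a positive strict local minimum there is a critical point -/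
theorem crit_left {f f' f'' : ℝ → ℝ} (hf : ∀ x, HasDerivAt f (f' x) x)
    (hf' : ∀ x, HasDerivAt f' (f'' x) x) {a l : ℝ} (hal : a < l) (ha : f a = 0)
    (hl : 0 < f l) (hl' : f' l = 0) (hl'' : 0 < f'' l) : ∃ c ∈ Ioo a l, f' c = 0 := by
  have hc : Continuous f := continuous_iff_continuousAt.2 fun x => (hf x).continuousAt
  have hdf : deriv f = f' := funext fun x => (hf x).deriv
  have hddf : deriv (deriv f) = f'' := by rw [hdf]; exact funext fun x => (hf' x).deriv
  have hmin : IsLocalMin f l := isLocalMin_of_deriv_deriv_pos (by rw [hddf]; exact hl'')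
    (by rw [hdf]; exact hl') hc.continuousAt
  have h1 : ∀ᶠ x in 𝓝[<] l, f l ≤ f x := hmin.filter_mono nhdsWithin_le_nhds
  have h2 : ∀ᶠ x in 𝓝[<] l, x ∈ Ioo a l := Ioo_mem_nhdsLT hal
  obtain ⟨x, hx, hx'⟩ := (h1.and h2).exists
  obtain ⟨y, hy, hy'⟩ : ∃ y ∈ Icc a x, f y = f l := by
    have := intermediate_value_Icc hx'.1.le hc.continuousOn
    exact this ⟨by rw [ha]; exact hl.le, hx⟩
  have hya : a < y := by
    rcases hy.1.eq_or_lt with h | h
    · rw [← h, ha] at hy'
      exact absurd hy' hl.ne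
    · exact h
  obtain ⟨c, hc1, hc2⟩ := exists_hasDerivAt_eq_zero (hy.2.trans_lt hx'.2) hc.continuousOn hy'
    (fun x _ => hf x)
  exact ⟨c, ⟨hya.trans hc1.1, hc1.2⟩, hc2⟩

theorem count_left {f f' f'' : ℝ → ℝ} (hf : ∀ x, HasDerivAt f (f' x) x)
    (hf' : ∀ x, HasDerivAt f' (f'' x) x) {l : ℝ}
    (hl : 0 < f l) (hl' : f' l = 0) (hl'' : 0 < f'' l) (S : Finset ℝ)
    (hS : ∀ x ∈ S, f x = 0 ∧ x < l) :
    ∃ T : Finset ℝ, S.card ≤ T.card ∧ ∀ t ∈ T, f' t = 0 ∧ t < l := by
  classical
  obtain ⟨T, hT, hT'⟩ := rolle_finset hf S (fun x hx => (hS x hx).1)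
  rcases S.eq_empty_or_nonempty with rfl | hne
  · exact ⟨∅, by simp, by simp⟩
  · have hm := S.max'_mem hne
    obtain ⟨c, hc, hc'⟩ := crit_left hf hf' (hS _ hm).2 (hS _ hm).1 hl hl' hl''
    have hcT : c ∉ T := by
      intro h
      obtain ⟨b, hb, hb'⟩ := (hT' c h).2.2
      exact absurd (S.le_max' b hb) (not_le.2 (hc.1.trans hb'))
    refine ⟨insert c T, ?_, ?_⟩
    · rw [Finset.card_insert_of_notMem hcT]
      omega
    · intro t ht
      rcases Finset.mem_insert.1 ht with rfl | ht
      · exact ⟨hc', hc.2⟩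
      · obtain ⟨h1, -, ⟨y, hy, hy'⟩⟩ := hT' t ht
        exact ⟨h1, hy'.trans (hS y hy).2⟩

theorem count_right {f f' f'' : ℝ → ℝ} (hf : ∀ x, HasDerivAt f (f' x) x)
    (hf' : ∀ x, HasDerivAt f' (f'' x) x) {l : ℝ}
    (hl : 0 < f l) (hl' : f' l = 0) (hl'' : 0 < f'' l) (S : Finset ℝ)
    (hS : ∀ x ∈ S, f x = 0 ∧ l < x) :
    ∃ T : Finset ℝ, S.card ≤ T.card ∧ ∀ t ∈ T, f' t = 0 ∧ l < t := by
  classical
  have hg : ∀ x, HasDerivAt (fun x => f (-x)) (-f' (-x)) x := by
    intro x
    have := (hf (-x)).comp x (hasDerivAt_neg x)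
    exact this.congr_deriv (by ring)
  have hg' : ∀ x, HasDerivAt (fun x => -f' (-x)) (f'' (-x)) x := by
    intro x
    have := ((hf' (-x)).comp x (hasDerivAt_neg x)).neg
    exact this.congr_deriv (by ring)
  obtain ⟨T, hT, hT'⟩ := count_left hg hg' (l := -l) (by simpa using hl) (by simpa using hl')
    (by simpa using hl'') (S.image (fun x => -x)) (by
      intro x hx
      obtain ⟨y, hy, rfl⟩ := Finset.mem_image.1 hx
      exact ⟨by simpa using (hS y hy).1, by linarith [(hS y hy).2]⟩)
  refine ⟨T.image (fun x => -x), ?_, ?_⟩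
  · rw [Finset.card_image_of_injective _ neg_injective] at hT ⊢
    exact hT
  · intro t ht
    obtain ⟨y, hy, rfl⟩ := Finset.mem_image.1 ht
    have := hT' y hy
    refine ⟨by simpa using this.1, by linarith [this.2]⟩

/-- **Laguerre's inequality for exponential sums** with the maximal number of real zeros. -/
theorem laguerre_expsum (J : Finset ℝ) (a : ℝ → ℝ) (S : Finset ℝ)
    (hS : ∀ t ∈ S, ∑ l ∈ J, a l * Real.exp (l * t) = 0) (hcard : J.card ≤ S.card + 1) (t : ℝ) :
    (∑ l ∈ J, a l * Real.exp (l * t)) * (∑ l ∈ J, a l * l ^ 2 * Real.exp (l * t)) ≤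
      (∑ l ∈ J, a l * l * Real.exp (l * t)) ^ 2 := by
  classical
  by_contra hcon
  push Not at hcon
  set g0 := ∑ l ∈ J, a l * Real.exp (l * t) with hg0
  set g1 := ∑ l ∈ J, a l * l * Real.exp (l * t) with hg1
  set g2 := ∑ l ∈ J, a l * l ^ 2 * Real.exp (l * t) with hg2
  have hg0ne : g0 ≠ 0 := by
    intro h
    rw [h, zero_mul] at hcon
    exact absurd hcon (not_lt.2 (sq_nonneg _))
  set c := g1 / g0 with hc
  -- sign
  obtain ⟨e, he, heg⟩ : ∃ e : ℝ, e ≠ 0 ∧ 0 < e * g0 := ⟨g0, hg0ne, mul_self_pos.2 hg0ne⟩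
  set f : ℝ → ℝ := fun x => ∑ l ∈ J, e * a l * Real.exp ((l - c) * x) with hf
  set f' : ℝ → ℝ := fun x => ∑ l ∈ J, e * a l * (l - c) * Real.exp ((l - c) * x) with hf'
  set f'' : ℝ → ℝ := fun x => ∑ l ∈ J, e * a l * (l - c) ^ 2 * Real.exp ((l - c) * x) with hf''
  have key : ∀ (p : ℝ → ℝ) (x : ℝ), ∑ l ∈ J, e * a l * p l * Real.exp ((l - c) * x) =
      e * Real.exp (-(c * x)) * ∑ l ∈ J, a l * p l * Real.exp (l * x) := by
    intro p x
    rw [Finset.mul_sum]
    refine Finset.sum_congr rfl fun l _ => ?_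
    have : Real.exp ((l - c) * x) = Real.exp (-(c * x)) * Real.exp (l * x) := by
      rw [← Real.exp_add]; ring_nf
    rw [this]
    ring
  have hd1 : ∀ x, HasDerivAt f (f' x) x := by
    intro x
    refine HasDerivAt.fun_sum fun l _ => ?_
    have h2 : HasDerivAt (fun t : ℝ => (l - c) * t) ((l - c) * 1) x :=
      (hasDerivAt_id x).const_mul (l - c)
    have h3 := h2.exp.const_mul (e * a l)
    exact h3.congr_deriv (by ring)
  have hd2 : ∀ x, HasDerivAt f' (f'' x) x := by
    intro x
    refine HasDerivAt.fun_sum fun l _ => ?_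
    have h2 : HasDerivAt (fun t : ℝ => (l - c) * t) ((l - c) * 1) x :=
      (hasDerivAt_id x).const_mul (l - c)
    have h3 := h2.exp.const_mul (e * a l * (l - c))
    exact h3.congr_deriv (by ring)
  have k0 := key (fun _ => 1)
  have k1 := key (fun l => l - c)
  have k2 := key (fun l => (l - c) ^ 2)
  simp only [mul_one] at k0
  have hE : 0 < Real.exp (-(c * t)) := Real.exp_pos _
  have f0t : 0 < f t := by
    have : f t = e * Real.exp (-(c * t)) * g0 := k0 t
    rw [this]
    have : e * Real.exp (-(c * t)) * g0 = Real.exp (-(c * t)) * (e * g0) := by ring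
    rw [this]
    positivity
  have s1 : ∑ l ∈ J, a l * (l - c) * Real.exp (l * t) = g1 - c * g0 := by
    rw [hg1, hg0, Finset.mul_sum, ← Finset.sum_sub_distrib]
    refine Finset.sum_congr rfl fun l _ => ?_
    ring
  have s2 : ∑ l ∈ J, a l * (l - c) ^ 2 * Real.exp (l * t) = g2 - 2 * c * g1 + c ^ 2 * g0 := by
    rw [hg2, hg1, hg0, Finset.mul_sum, Finset.mul_sum, ← Finset.sum_sub_distrib,
      ← Finset.sum_add_distrib]
    refine Finset.sum_congr rfl fun l _ => ?_
    ring
  have hcg : c * g0 = g1 := by rw [hc]; field_simp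
  have f1t : f' t = 0 := by
    have : f' t = e * Real.exp (-(c * t)) * (g1 - c * g0) := by rw [← s1]; exact k1 t
    rw [this, hcg, sub_self, mul_zero]
  have f2t : 0 < f'' t := by
    have h1 : f'' t = e * Real.exp (-(c * t)) * (g2 - 2 * c * g1 + c ^ 2 * g0) := by
      rw [← s2]; exact k2 t
    have h2 : 0 < (e * g0) * (g0 * g2 - g1 ^ 2) := mul_pos heg (by linarith)
    have h3 : (e * g0) * (g0 * g2 - g1 ^ 2) = g0 ^ 2 * (e * (g2 - 2 * c * g1 + c ^ 2 * g0)) := by
      rw [← hcg]; ring
    have h4 : 0 < e * (g2 - 2 * c * g1 + c ^ 2 * g0) := by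
      rw [h3] at h2
      exact (pos_iff_pos_of_mul_pos h2).1 (by positivity)
    have h5 : f'' t = Real.exp (-(c * t)) * (e * (g2 - 2 * c * g1 + c ^ 2 * g0)) := by
      rw [h1]; ring
    rw [h5]
    positivity
  have hfS : ∀ x ∈ S, f x = 0 := by
    intro x hx
    have : f x = e * Real.exp (-(c * x)) * ∑ l ∈ J, a l * Real.exp (l * x) := k0 x
    rw [this, hS x hx, mul_zero]
  obtain ⟨T1, hT1, hT1'⟩ := count_left hd1 hd2 f0t f1t f2t (S.filter (fun x => x < t))
    (fun x hx => ⟨hfS x (Finset.mem_filter.1 hx).1, (Finset.mem_filter.1 hx).2⟩)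
  obtain ⟨T2, hT2, hT2'⟩ := count_right hd1 hd2 f0t f1t f2t (S.filter (fun x => t < x))
    (fun x hx => ⟨hfS x (Finset.mem_filter.1 hx).1, (Finset.mem_filter.1 hx).2⟩)
  have hdis1 : Disjoint T1 T2 := by
    rw [Finset.disjoint_left]
    intro x h1 h2
    exact lt_asymm (hT1' x h1).2 (hT2' x h2).2
  have hnot : t ∉ T1 ∪ T2 := by
    intro h
    rcases Finset.mem_union.1 h with h | h
    · exact lt_irrefl _ (hT1' t h).2
    · exact lt_irrefl _ (hT2' t h).2
  have hScard : S.card ≤ (S.filter (fun x => x < t)).card + (S.filter (fun x => t < x)).card := by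
    have : S ⊆ S.filter (fun x => x < t) ∪ S.filter (fun x => t < x) := by
      intro x hx
      rcases lt_trichotomy x t with h | h | h
      · exact Finset.mem_union_left _ (Finset.mem_filter.2 ⟨hx, h⟩)
      · exact absurd (hS x hx) (h ▸ hg0ne)
      · exact Finset.mem_union_right _ (Finset.mem_filter.2 ⟨hx, h⟩)
    exact (Finset.card_le_card this).trans (Finset.card_union_le _ _)
  have hall : ∀ l ∈ J, a l * (l - c) = 0 := by
    refine expsum_zeros J (fun l => a l * (l - c)) (insert t (T1 ∪ T2)) ?_ ?_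
    · intro x hx
      have hx' : f' x = 0 := by
        rcases Finset.mem_insert.1 hx with rfl | hx
        · exact f1t
        · rcases Finset.mem_union.1 hx with h | h
          · exact (hT1' x h).1
          · exact (hT2' x h).1
      have h1 : f' x = e * Real.exp (-(c * x)) * ∑ l ∈ J, a l * (l - c) * Real.exp (l * x) := k1 x
      rw [hx'] at h1
      have h2 : e * Real.exp (-(c * x)) ≠ 0 := mul_ne_zero he (Real.exp_pos _).ne'
      exact (mul_eq_zero.1 h1.symm).resolve_left h2
    · rw [Finset.card_insert_of_notMem hnot, Finset.card_union_of_disjoint hdis1]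
      omega
  have hzero : f'' t = 0 := by
    have h1 : f'' t = e * Real.exp (-(c * t)) * ∑ l ∈ J, a l * (l - c) ^ 2 * Real.exp (l * t) :=
      k2 t
    rw [h1, Finset.sum_eq_zero, mul_zero]
    intro l hl
    have := hall l hl
    have h2 : a l * (l - c) ^ 2 = (a l * (l - c)) * (l - c) := by ring
    rw [h2, this, zero_mul, zero_mul]
  linarith

end Pool.Agent.J6H39.ML
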