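import Pool.Agent.J6H39.ML.Mono

/-! Project ML: explicit slowly varying weights. -/

set_option autoImplicit false

open Filter Topology Set MeasureTheory

namespace Pool.Agent.J6H39.ML

theorem isW_exp {f f1 f2 : ℝ → ℝ} {b : ℝ} (hb : 0 ≤ b) (h1 : ∀ t, HasDerivAt f (f1 t) t)
    (h2 : ∀ t, HasDerivAt f1 (f2 t) t) (hc : Continuous f2) (b1 : ∀ t, |f1 t| ≤ b)
    (b2 : ∀ t, |f2 t| ≤ b) : IsW (b + b ^ 2) (fun t => Real.exp (f t)) := by
  have c0 : Continuous f := continuous_iff_continuousAt.2 fun t => (h1 t).continuousAt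
  have c1 : Continuous f1 := continuous_iff_continuousAt.2 fun t => (h2 t).continuousAt
  refine ⟨by positivity, fun t => Real.exp (f t) * f1 t,
    fun t => Real.exp (f t) * f1 t * f1 t + Real.exp (f t) * f2 t, fun t => (h1 t).exp,
    fun t => ((h1 t).exp.mul (h2 t)), by fun_prop, fun t => ?_⟩
  have hp := Real.exp_pos (f t)
  have e1 := b1 t
  have e2 := b2 t
  have e3 : |f1 t| * |f1 t| ≤ b * b := mul_le_mul e1 e1 (abs_nonneg _) hb
  refine ⟨hp, ?_, ?_⟩
  · rw [abs_mul, abs_of_pos hp, mul_comm]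
    refine mul_le_mul_of_nonneg_right ?_ hp.le
    nlinarith
  · have e4 : Real.exp (f t) * f1 t * f1 t + Real.exp (f t) * f2 t =
        (f1 t * f1 t + f2 t) * Real.exp (f t) := by ring
    beta_reduce
    rw [e4, abs_mul, abs_of_pos hp]
    refine mul_le_mul_of_nonneg_right ?_ hp.le
    refine (abs_add_le _ _).trans ?_
    rw [abs_mul]
    nlinarith

/-- `log (a + t²)` and its derivatives -/
theorem hasDerivAt_logq {a : ℝ} (ha : 0 < a) (t : ℝ) :
    HasDerivAt (fun t => Real.log (a + t ^ 2)) (2 * t / (a + t ^ 2)) t := by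
  have h1 : HasDerivAt (fun t : ℝ => a + t ^ 2) (2 * t) t := by
    have := (hasDerivAt_pow 2 t).const_add a
    refine this.congr_deriv ?_
    norm_num
  exact h1.log (by positivity)

theorem hasDerivAt_logq1 {a : ℝ} (ha : 0 < a) (t : ℝ) :
    HasDerivAt (fun t => 2 * t / (a + t ^ 2)) ((2 * a - 2 * t ^ 2) / (a + t ^ 2) ^ 2) t := by
  have h1 : HasDerivAt (fun t : ℝ => a + t ^ 2) (2 * t) t := by
    have := (hasDerivAt_pow 2 t).const_add a
    refine this.congr_deriv ?_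
    norm_num
  have h2 : HasDerivAt (fun t : ℝ => 2 * t) 2 t := by
    simpa using (hasDerivAt_id t).const_mul (2 : ℝ)
  have hne : a + t ^ 2 ≠ 0 := by positivity
  refine (h2.div h1 hne).congr_deriv ?_
  field_simp
  ring

theorem logq1_le {a : ℝ} (ha : 1 ≤ a) (t : ℝ) : |2 * t / (a + t ^ 2)| ≤ 1 := by
  have h0 : 0 < a + t ^ 2 := by positivity
  rw [abs_div, abs_of_pos h0, div_le_one h0, abs_mul, abs_of_pos (by norm_num : (0 : ℝ) < 2),
    ← sq_abs t]
  nlinarith [sq_nonneg (|t| - 1)]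

theorem logq2_le {a : ℝ} (ha : 1 ≤ a) (t : ℝ) : |(2 * a - 2 * t ^ 2) / (a + t ^ 2) ^ 2| ≤ 2 := by
  have h0 : 0 < a + t ^ 2 := by positivity
  have h1 : 1 ≤ a + t ^ 2 := by nlinarith [sq_nonneg t]
  rw [abs_div, abs_of_pos (by positivity : 0 < (a + t ^ 2) ^ 2), div_le_iff₀ (by positivity)]
  have h2 : |2 * a - 2 * t ^ 2| ≤ 2 * (a + t ^ 2) := by
    rw [abs_le]
    constructor <;> nlinarith [sq_nonneg t]
  nlinarith

/-- the majorant of the logarithmic derivative -/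
noncomputable def lw (C t : ℝ) : ℝ := C + Real.log (4 + t ^ 2)

theorem lw_bound {C : ℝ} (hC : 0 ≤ C) (t : ℝ) :
    0 ≤ lw C t ∧ lw C t ^ 2 ≤ (C + 2) ^ 2 * (4 + t ^ 2) := by
  have h0 : (1 : ℝ) ≤ 4 + t ^ 2 := by nlinarith [sq_nonneg t]
  have h1 : 0 ≤ Real.log (4 + t ^ 2) := Real.log_nonneg h0
  have h2 : Real.log (4 + t ^ 2) ≤ 2 * Real.sqrt (4 + t ^ 2) := by
    have hs : 0 < Real.sqrt (4 + t ^ 2) := Real.sqrt_pos.2 (by linarith)
    have h3 := Real.log_le_sub_one_of_pos hs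
    have h4 : Real.log (4 + t ^ 2) = 2 * Real.log (Real.sqrt (4 + t ^ 2)) := by
      rw [Real.log_sqrt (by linarith)]
      ring
    linarith
  have h3 : 1 ≤ Real.sqrt (4 + t ^ 2) := Real.one_le_sqrt.2 h0
  have h4 : lw C t ≤ (C + 2) * Real.sqrt (4 + t ^ 2) := by
    unfold lw
    nlinarith
  have h5 : 0 ≤ lw C t := by unfold lw; positivity
  refine ⟨h5, ?_⟩
  calc lw C t ^ 2 ≤ ((C + 2) * Real.sqrt (4 + t ^ 2)) ^ 2 := by gcongr
    _ = (C + 2) ^ 2 * (4 + t ^ 2) := by rw [mul_pow, Real.sq_sqrt (by linarith)]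

/-- the weight `exp (σ lw²)` -/
noncomputable def Vw (C σ t : ℝ) : ℝ := Real.exp (σ * lw C t ^ 2)

theorem one_le_Vw {C σ : ℝ} (hσ : 0 ≤ σ) (t : ℝ) : 1 ≤ Vw C σ t := by
  unfold Vw
  apply Real.one_le_exp
  positivity

theorem isW_Vw {C : ℝ} (hC : 0 ≤ C) : ∃ B : ℝ, ∀ σ : ℝ, 0 ≤ σ → σ ≤ 1 → IsW B (Vw C σ) := by
  set D := C + 2 with hD
  have hD0 : 0 < D := by linarith
  refine ⟨(20 * D + 20) + (20 * D + 20) ^ 2, fun σ h0 h1 => ?_⟩
  refine isW_exp (f := fun t => σ * lw C t ^ 2)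
    (f1 := fun t => σ * (2 * lw C t * (2 * t / (4 + t ^ 2))))
    (f2 := fun t => σ * (2 * (2 * t / (4 + t ^ 2)) * (2 * t / (4 + t ^ 2)) +
      2 * lw C t * ((2 * 4 - 2 * t ^ 2) / (4 + t ^ 2) ^ 2))) (by positivity) ?_ ?_ ?_ ?_ ?_
  · intro t
    have h2 : HasDerivAt (fun t => lw C t) (2 * t / (4 + t ^ 2)) t := by
      unfold lw
      exact (hasDerivAt_logq (by norm_num) t).const_add C
    have h3 := (h2.pow 2).const_mul σ
    refine h3.congr_deriv ?_
    norm_num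
  · intro t
    have h2 : HasDerivAt (fun t => lw C t) (2 * t / (4 + t ^ 2)) t := by
      unfold lw
      exact (hasDerivAt_logq (by norm_num) t).const_add C
    have h3 := ((h2.const_mul 2).mul (hasDerivAt_logq1 (a := 4) (by norm_num) t)).const_mul σ
    exact h3
  · have hl : Continuous (fun t : ℝ => lw C t) := by
      unfold lw
      refine continuous_const.add (Continuous.log (by fun_prop) fun t => ?_)
      positivity
    refine continuous_const.mul (Continuous.add ?_ ?_)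
    · refine (continuous_const.mul ?_).mul ?_
      · exact Continuous.div (by fun_prop) (by fun_prop) fun t => by positivity
      · exact Continuous.div (by fun_prop) (by fun_prop) fun t => by positivity
    · refine (continuous_const.mul hl).mul ?_
      exact Continuous.div (by fun_prop) (by fun_prop) fun t => by positivity
  · intro t
    obtain ⟨l0, l1⟩ := lw_bound hC t
    have h0' : 0 < 4 + t ^ 2 := by positivity
    have e : |2 * lw C t * (2 * t / (4 + t ^ 2))| ≤ 4 * D := by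
      have h2 : (2 * lw C t * (2 * t / (4 + t ^ 2))) ^ 2 ≤ (4 * D) ^ 2 := by
        have h3 : (2 * lw C t * (2 * t / (4 + t ^ 2))) ^ 2 =
            16 * lw C t ^ 2 * t ^ 2 / (4 + t ^ 2) ^ 2 := by
          field_simp
          ring
        rw [h3, div_le_iff₀ (by positivity)]
        have h4 : t ^ 2 ≤ 4 + t ^ 2 := by linarith
        calc 16 * lw C t ^ 2 * t ^ 2 ≤ 16 * (D ^ 2 * (4 + t ^ 2)) * (4 + t ^ 2) := by
              gcongr
          _ = _ := by ring
      exact abs_le_of_sq_le_sq h2 (by positivity)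
    rw [abs_mul, abs_of_nonneg h0]
    calc σ * |2 * lw C t * (2 * t / (4 + t ^ 2))| ≤ 1 * (4 * D) := by gcongr
      _ ≤ _ := by linarith
  · intro t
    obtain ⟨l0, l1⟩ := lw_bound hC t
    have h0' : 0 < 4 + t ^ 2 := by positivity
    have q1 := logq1_le (a := 4) (by norm_num) t
    have e1 : |2 * (2 * t / (4 + t ^ 2)) * (2 * t / (4 + t ^ 2))| ≤ 2 := by
      rw [abs_mul, abs_mul, abs_of_pos (by norm_num : (0 : ℝ) < 2)]
      nlinarith [abs_nonneg (2 * t / (4 + t ^ 2))]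
    have e2 : |2 * lw C t * ((2 * 4 - 2 * t ^ 2) / (4 + t ^ 2) ^ 2)| ≤ 4 * D := by
      have h2 : (2 * lw C t * ((2 * 4 - 2 * t ^ 2) / (4 + t ^ 2) ^ 2)) ^ 2 ≤ (4 * D) ^ 2 := by
        have h3 : (2 * lw C t * ((2 * 4 - 2 * t ^ 2) / (4 + t ^ 2) ^ 2)) ^ 2 =
            4 * lw C t ^ 2 * (2 * 4 - 2 * t ^ 2) ^ 2 / (4 + t ^ 2) ^ 4 := by
          field_simp
          ring
        rw [h3, div_le_iff₀ (by positivity)]
        have h4 : (2 * 4 - 2 * t ^ 2) ^ 2 ≤ 4 * (4 + t ^ 2) ^ 2 := by nlinarith [sq_nonneg t]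
        have h5 : 1 ≤ 4 + t ^ 2 := by nlinarith [sq_nonneg t]
        calc 4 * lw C t ^ 2 * (2 * 4 - 2 * t ^ 2) ^ 2
            ≤ 4 * (D ^ 2 * (4 + t ^ 2)) * (4 * (4 + t ^ 2) ^ 2) := by gcongr
          _ = 16 * D ^ 2 * (4 + t ^ 2) ^ 3 := by ring
          _ ≤ 16 * D ^ 2 * (4 + t ^ 2) ^ 4 := by
              have : (4 + t ^ 2) ^ 3 ≤ (4 + t ^ 2) ^ 4 := pow_le_pow_right₀ h5 (by norm_num)
              gcongr
          _ = _ := by ring
      exact abs_le_of_sq_le_sq h2 (by positivity)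
    rw [abs_mul, abs_of_nonneg h0]
    calc σ * |2 * (2 * t / (4 + t ^ 2)) * (2 * t / (4 + t ^ 2)) +
          2 * lw C t * ((2 * 4 - 2 * t ^ 2) / (4 + t ^ 2) ^ 2)|
        ≤ 1 * (2 + 4 * D) := by
          gcongr
          exact (abs_add_le _ _).trans (add_le_add e1 e2)
      _ ≤ _ := by linarith

/-- the cutoff weight `(1 + t²) / (1 + U² + t²)` -/
noncomputable def Xw (U t : ℝ) : ℝ := Real.exp (Real.log (1 + t ^ 2) - Real.log ((1 + U ^ 2) + t ^ 2))

theorem isW_Xw (U : ℝ) : IsW (4 + 4 ^ 2) (Xw U) := by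
  have hU : (1 : ℝ) ≤ 1 + U ^ 2 := by nlinarith [sq_nonneg U]
  have hU0 : (0 : ℝ) < 1 + U ^ 2 := by positivity
  refine isW_exp (by norm_num) (fun t => (hasDerivAt_logq one_pos t).sub (hasDerivAt_logq hU0 t))
    (fun t => (hasDerivAt_logq1 one_pos t).sub (hasDerivAt_logq1 hU0 t)) ?_ (fun t => ?_)
    (fun t => ?_)
  · refine Continuous.sub ?_ ?_
    · exact Continuous.div (by fun_prop) (by fun_prop) fun t => by positivity
    · exact Continuous.div (by fun_prop) (by fun_prop) fun t => by positivity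
  · have e1 := logq1_le (a := 1) le_rfl t
    have e2 := logq1_le hU t
    have := abs_sub (2 * t / (1 + t ^ 2)) (2 * t / ((1 + U ^ 2) + t ^ 2))
    linarith
  · have e1 := logq2_le (a := 1) le_rfl t
    have e2 := logq2_le hU t
    have := abs_sub ((2 * 1 - 2 * t ^ 2) / (1 + t ^ 2) ^ 2)
      ((2 * (1 + U ^ 2) - 2 * t ^ 2) / ((1 + U ^ 2) + t ^ 2) ^ 2)
    linarith

theorem Xw_eq (U t : ℝ) : Xw U t = (1 + t ^ 2) / (1 + U ^ 2 + t ^ 2) := by
  unfold Xw
  rw [Real.exp_sub, Real.exp_log (by positivity), Real.exp_log (by positivity)]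

end Pool.Agent.J6H39.ML
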