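import Pool.Agent.J6H39.ML.Gam
import Pool.Agent.J6H39.ML.Wts

/-! Project ML: the main term of the transfer. -/

set_option autoImplicit false

open Complex Filter Topology Set MeasureTheory

namespace Pool.Agent.J6H39.ML

/-- weighted Cauchy-Schwarz inequality -/
theorem wcs {f k : ℝ → ℝ} (hk : ∀ t, 0 ≤ k t) (i0 : Integrable k)
    (i1 : Integrable (fun t => f t * k t)) (i2 : Integrable (fun t => f t ^ 2 * k t)) :
    (∫ t, f t * k t) ^ 2 ≤ (∫ t, f t ^ 2 * k t) * ∫ t, k t := by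
  have h : ∀ x : ℝ, 0 ≤ (∫ t, k t) * (x * x) + (-2 * ∫ t, f t * k t) * x + ∫ t, f t ^ 2 * k t := by
    intro x
    have h1 : (∫ t, k t) * (x * x) + (-2 * ∫ t, f t * k t) * x + ∫ t, f t ^ 2 * k t =
        ∫ t, (x - f t) ^ 2 * k t := by
      have e : ∀ t, (x - f t) ^ 2 * k t =
          ((x * x) * k t + (-2 * x) * (f t * k t)) + f t ^ 2 * k t := by intro t; ring
      simp_rw [e]
      have e1 := integral_add (f := fun t => (x * x) * k t + (-2 * x) * (f t * k t))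
        (g := fun t => f t ^ 2 * k t) ((i0.const_mul _).add (i1.const_mul _)) i2
      have e2 := integral_add (f := fun t => (x * x) * k t) (g := fun t => (-2 * x) * (f t * k t))
        (i0.const_mul _) (i1.const_mul _)
      rw [e1, e2, integral_const_mul, integral_const_mul]
      ring
    rw [h1]
    exact integral_nonneg fun t => mul_nonneg (sq_nonneg _) (hk t)
  have := discrim_le_zero h
  unfold discrim at this
  nlinarith

/-- the kernel -/
noncomputable def kk (b κ y : ℝ) : ℝ := Real.exp (b * |y|) * Real.exp (-(2 * κ * (y - 0) ^ 2))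

theorem kk_pos (b κ y : ℝ) : 0 < kk b κ y := mul_pos (Real.exp_pos _) (Real.exp_pos _)

theorem kk_cont (b κ : ℝ) : Continuous (kk b κ) := by unfold kk; fun_prop

theorem kk_int {b κ : ℝ} (hb : 0 ≤ b) (hκ : 0 < κ) : Integrable (kk b κ) :=
  (eg_expabs b hb).int (by fun_prop) (by positivity) 0

theorem kk_integral_le {b κ : ℝ} (hb : 0 ≤ b) (hκ : 1 ≤ κ) :
    Real.sqrt κ * ∫ y, kk b κ y ≤ CB b := by
  have hκ0 : 0 < κ := by linarith
  have hs : 0 < Real.sqrt κ := Real.sqrt_pos.2 hκ0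
  have hs2 : Real.sqrt κ ^ 2 = κ := Real.sq_sqrt hκ0.le
  have hs1 : 1 ≤ Real.sqrt κ := Real.one_le_sqrt.2 hκ
  have h1 : ∀ y, kk b κ y ≤ Real.exp (b * |Real.sqrt κ * y|) *
      Real.exp (-(2 * (Real.sqrt κ * y - 0) ^ 2)) := by
    intro y
    unfold kk
    have e1 : -(2 * κ * (y - 0) ^ 2) = -(2 * (Real.sqrt κ * y - 0) ^ 2) := by
      rw [sub_zero, sub_zero, mul_pow, hs2]; ring
    rw [e1]
    refine mul_le_mul_of_nonneg_right (Real.exp_le_exp.2 (mul_le_mul_of_nonneg_left ?_ hb))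
      (Real.exp_pos _).le
    rw [abs_mul, abs_of_pos hs]
    nlinarith [abs_nonneg y]
  have hg : Integrable (fun y : ℝ => Real.exp (b * |y|) * Real.exp (-(2 * (y - 0) ^ 2))) :=
    (eg_expabs b hb).int (by fun_prop) (by norm_num) 0
  have h2 : ∫ t : ℝ, Real.exp (b * |Real.sqrt κ * t|) *
      Real.exp (-(2 * (Real.sqrt κ * t - 0) ^ 2)) = (Real.sqrt κ)⁻¹ * CB b := by
    rw [Measure.integral_comp_mul_left (fun y : ℝ => Real.exp (b * |y|) *
      Real.exp (-(2 * (y - 0) ^ 2))) (Real.sqrt κ)]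
    rw [abs_of_pos (inv_pos.2 hs), smul_eq_mul]
    rfl
  calc Real.sqrt κ * ∫ y, kk b κ y ≤ Real.sqrt κ * ((Real.sqrt κ)⁻¹ * CB b) := by
        rw [← h2]
        refine mul_le_mul_of_nonneg_left ?_ hs.le
        exact integral_mono (kk_int hb hκ0) (hg.comp_mul_left' hs.ne') h1
    _ = CB b := by field_simp

/-- the Gaussian identity for one frequency -/
theorem gauss_id {κ : ℝ} (hκ : 0 < κ) (u : ℂ) (x : ℝ) :
    (∫ y : ℝ, (Real.exp (-(2 * κ * (y - x) ^ 2)) : ℂ) * cexp (-(2 * κ * y ^ 2) + 2 * I * u * y)) =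
      ((Real.pi / (4 * κ) : ℝ) : ℂ) ^ (1 / 2 : ℂ) *
        cexp (-(κ * x ^ 2) + I * u * x - u ^ 2 / (4 * κ)) := by
  have hb : (-(4 * κ : ℝ) : ℂ).re < 0 := by
    rw [neg_re, ofReal_re]
    linarith
  have h1 := integral_cexp_quadratic hb (4 * κ * x + 2 * I * u) (-(2 * κ * x ^ 2))
  have h2 : ∀ y : ℝ, (Real.exp (-(2 * κ * (y - x) ^ 2)) : ℂ) *
      cexp (-(2 * κ * y ^ 2) + 2 * I * u * y) =
      cexp (-(4 * κ : ℝ) * (y : ℂ) ^ 2 + (4 * κ * x + 2 * I * u) * y + -(2 * κ * x ^ 2)) := by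
    intro y
    rw [ofReal_exp, ← Complex.exp_add]
    congr 1
    push_cast
    ring
  simp_rw [h2]
  rw [h1]
  have hκ' : (κ : ℂ) ≠ 0 := by exact_mod_cast hκ.ne'
  congr 1
  · push_cast
    rw [neg_neg]
  · congr 1
    push_cast
    field_simp
    ring_nf
    rw [I_sq]
    ring

/-- the twisted sum as a convolution -/
theorem twist_id (Z : Finset ℝ) (a : ℝ → ℝ) {κ : ℝ} (hκ : 0 < κ) (u : ℂ) (t : ℝ) :
    (∫ y : ℝ, (KK Z a (2 * κ) (t + y) : ℂ) * cexp (-(2 * κ * y ^ 2) + 2 * I * u * y)) =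
      ((Real.pi / (4 * κ) : ℝ) : ℂ) ^ (1 / 2 : ℂ) * cexp (-(u ^ 2 / (4 * κ))) *
        ∑ γ ∈ Z, (a γ : ℂ) * (cexp (I * (γ - t) * u) * (Real.exp (-(κ * (t - γ) ^ 2)) : ℂ)) := by
  have h1 : ∀ y : ℝ, (KK Z a (2 * κ) (t + y) : ℂ) * cexp (-(2 * κ * y ^ 2) + 2 * I * u * y) =
      ∑ γ ∈ Z, (a γ : ℂ) * ((Real.exp (-(2 * κ * (y - (γ - t)) ^ 2)) : ℂ) *
        cexp (-(2 * κ * y ^ 2) + 2 * I * u * y)) := by
    intro y
    unfold KK
    push_cast
    rw [Finset.sum_mul]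
    refine Finset.sum_congr rfl fun γ _ => ?_
    rw [mul_assoc]
    congr 3
    ring_nf
  simp_rw [h1]
  have hint : ∀ x : ℝ, Integrable (fun y : ℝ => (Real.exp (-(2 * κ * (y - x) ^ 2)) : ℂ) *
        cexp (-(2 * κ * y ^ 2) + 2 * I * u * y)) := by
    intro x
    have hb : (-(4 * κ : ℝ) : ℂ).re < 0 := by
      rw [neg_re, ofReal_re]
      linarith
    refine (integrable_cexp_quadratic' hb (4 * κ * x + 2 * I * u) (-(2 * κ * x ^ 2))).congr
      (Eventually.of_forall fun y => ?_)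
    beta_reduce
    rw [ofReal_exp, ← Complex.exp_add]
    congr 1
    push_cast
    ring
  rw [integral_finsetSum _ fun γ _ => (hint _).const_mul _, Finset.mul_sum]
  refine Finset.sum_congr rfl fun γ _ => ?_
  have h3 := gauss_id hκ u (γ - t)
  rw [integral_const_mul, h3, ofReal_exp]
  have e1 : cexp (-(κ * ((γ - t : ℝ) : ℂ) ^ 2) + I * u * ((γ - t : ℝ) : ℂ) - u ^ 2 / (4 * κ)) =
      cexp (-(u ^ 2 / (4 * κ))) * (cexp (I * (γ - t) * u) *
        cexp ((-(κ * (t - γ) ^ 2) : ℝ) : ℂ)) := by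
    rw [← Complex.exp_add, ← Complex.exp_add]
    congr 1
    push_cast
    ring
  rw [e1]
  ring

/-- pointwise bound for the twisted sum -/
theorem twist_bound (Z : Finset ℝ) (a : ℝ → ℝ) {κ b : ℝ} (hκ : 1 ≤ κ) (hb : 0 ≤ b) {u : ℂ}
    (hu : |u.im| ≤ b) (t : ℝ) :
    ‖∑ γ ∈ Z, (a γ : ℂ) * (cexp (I * (γ - t) * u) * (Real.exp (-(κ * (t - γ) ^ 2)) : ℂ))‖ ^ 2 ≤
      2 * Real.sqrt κ * CB (2 * b) * Real.exp (‖u‖ ^ 2 / (2 * κ)) *
        ∫ y, KK Z a (2 * κ) (t + y) ^ 2 * kk (2 * b) κ y := by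
  have hκ0 : 0 < κ := by linarith
  set X := ∑ γ ∈ Z, (a γ : ℂ) * (cexp (I * (γ - t) * u) * (Real.exp (-(κ * (t - γ) ^ 2)) : ℂ))
    with hX
  have h1 := twist_id Z a hκ0 u t
  rw [← hX] at h1
  set c : ℂ := ((Real.pi / (4 * κ) : ℝ) : ℂ) ^ (1 / 2 : ℂ) with hc
  have hcn : ‖c‖ ^ 2 = Real.pi / (4 * κ) := by
    rw [hc, Complex.norm_cpow_eq_rpow_re_of_pos (by positivity)]
    have : (1 / 2 : ℂ).re = 1 / 2 := by norm_num
    rw [this, ← Real.sqrt_eq_rpow, Real.sq_sqrt (by positivity)]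
  have hexpn : Real.exp (-(‖u‖ ^ 2 / (4 * κ))) ≤ ‖cexp (-(u ^ 2 / (4 * κ)))‖ := by
    rw [Complex.norm_exp]
    apply Real.exp_le_exp.2
    have e1 : (-(u ^ 2 / (4 * κ))).re = -((u ^ 2).re / (4 * κ)) := by
      have : u ^ 2 / (4 * κ : ℂ) = u ^ 2 / ((4 * κ : ℝ) : ℂ) := by push_cast; rfl
      rw [this, neg_re, div_ofReal_re]
    rw [e1, neg_le_neg_iff]
    gcongr
    rw [← norm_pow]
    exact re_le_norm _
  -- the norm of the integral
  have hKc : Continuous (fun y => KK Z a (2 * κ) (t + y)) := by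
    have := KK_cont Z a (2 * κ)
    fun_prop
  have hKg : EG (fun y => KK Z a (2 * κ) (t + y)) := by
    have h3 : ∀ y, KK Z a (2 * κ) (t + y) = ∑ γ ∈ Z, a γ * Real.exp (-(2 * κ * (y - (γ - t)) ^ 2)) := by
      intro y
      unfold KK
      refine Finset.sum_congr rfl fun γ _ => ?_
      ring_nf
    refine (EG.sum Z fun γ _ => (EG.const (a γ)).mul
      (EG.gauss (by positivity : 0 ≤ 2 * κ) (γ - t))).congr fun y => (h3 y).symm
  have hkkint : ∀ f : ℝ → ℝ, EG f → Continuous f → Integrable (fun y => f y * kk (2 * b) κ y) := by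
    intro f hf hfc
    have := (hf.mul (eg_expabs (2 * b) (by positivity))).int (by fun_prop)
      (by positivity : 0 < 2 * κ) 0
    refine this.congr (Eventually.of_forall fun y => ?_)
    unfold kk
    beta_reduce
    ring
  have habs : EG (fun y => |KK Z a (2 * κ) (t + y)|) := by
    obtain ⟨A, B, hB, h⟩ := hKg
    exact ⟨A, B, hB, fun y => by rw [abs_abs]; exact h y⟩
  have h2 : ‖∫ y : ℝ, (KK Z a (2 * κ) (t + y) : ℂ) * cexp (-(2 * κ * y ^ 2) + 2 * I * u * y)‖ ≤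
      ∫ y, |KK Z a (2 * κ) (t + y)| * kk (2 * b) κ y := by
    refine norm_integral_le_of_norm_le (hkkint _ habs hKc.abs) (Eventually.of_forall fun y => ?_)
    rw [norm_mul, norm_real, Real.norm_eq_abs]
    refine mul_le_mul_of_nonneg_left ?_ (abs_nonneg _)
    unfold kk
    rw [Complex.norm_exp, ← Real.exp_add]
    apply Real.exp_le_exp.2
    have e1 : (-(2 * κ * y ^ 2) + 2 * I * u * y : ℂ).re = -(2 * κ * y ^ 2) + -(2 * u.im * y) := by
      have : (-(2 * κ * y ^ 2) + 2 * I * u * y : ℂ) =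
          ((-(2 * κ * y ^ 2) : ℝ) : ℂ) + I * ((2 * y : ℝ) * u) := by
        push_cast; ring
      rw [this, add_re, ofReal_re, I_mul_re, im_ofReal_mul]
      ring
    rw [e1, sub_zero]
    have e2 : -(2 * u.im * y) ≤ 2 * b * |y| := by
      have h5 : |u.im * y| ≤ b * |y| := by
        rw [abs_mul]; gcongr
      have h6 := neg_abs_le (u.im * y)
      nlinarith
    linarith
  have h3 := wcs (f := fun y => |KK Z a (2 * κ) (t + y)|) (k := kk (2 * b) κ)
    (fun y => (kk_pos _ _ _).le) (kk_int (by positivity) hκ0) (hkkint _ habs hKc.abs)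
    (by
      have := hkkint _ (habs.pow 2) (hKc.abs.pow 2)
      exact this)
  have e4 : ∀ y, |KK Z a (2 * κ) (t + y)| ^ 2 * kk (2 * b) κ y =
      KK Z a (2 * κ) (t + y) ^ 2 * kk (2 * b) κ y := fun y => by rw [sq_abs]
  simp only [e4] at h3
  set J := ∫ y, KK Z a (2 * κ) (t + y) ^ 2 * kk (2 * b) κ y with hJ
  have hJ0 : 0 ≤ J := integral_nonneg fun y => mul_nonneg (sq_nonneg _) (kk_pos _ _ _).le
  have hk := kk_integral_le (b := 2 * b) (by positivity) hκ
  have hs : 0 < Real.sqrt κ := Real.sqrt_pos.2 hκ0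
  have hs2 : Real.sqrt κ ^ 2 = κ := Real.sq_sqrt hκ0.le
  set k0 := ∫ y, kk (2 * b) κ y with hk0
  -- combine
  have h5 : ‖c‖ ^ 2 * ‖cexp (-(u ^ 2 / (4 * κ)))‖ ^ 2 * ‖X‖ ^ 2 ≤ J * k0 := by
    have e5 : ‖c‖ ^ 2 * ‖cexp (-(u ^ 2 / (4 * κ)))‖ ^ 2 * ‖X‖ ^ 2 =
        ‖∫ y : ℝ, (KK Z a (2 * κ) (t + y) : ℂ) * cexp (-(2 * κ * y ^ 2) + 2 * I * u * y)‖ ^ 2 := by
      rw [h1, norm_mul, norm_mul]
      ring
    rw [e5]
    refine le_trans ?_ h3
    gcongr
  have h6 : Real.exp (-(‖u‖ ^ 2 / (2 * κ))) ≤ ‖cexp (-(u ^ 2 / (4 * κ)))‖ ^ 2 := by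
    have e6 : Real.exp (-(‖u‖ ^ 2 / (2 * κ))) = Real.exp (-(‖u‖ ^ 2 / (4 * κ))) ^ 2 := by
      rw [← Real.exp_nat_mul]
      congr 1
      push_cast
      field_simp
      norm_num
    rw [e6]
    gcongr
  have h7 : Real.pi / (4 * κ) * Real.exp (-(‖u‖ ^ 2 / (2 * κ))) * ‖X‖ ^ 2 ≤ J * k0 := by
    refine le_trans ?_ h5
    rw [hcn]
    gcongr
  have hE : Real.exp (‖u‖ ^ 2 / (2 * κ)) * Real.exp (-(‖u‖ ^ 2 / (2 * κ))) = 1 := by
    rw [← Real.exp_add, add_neg_cancel, Real.exp_zero]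
  have hE0 := Real.exp_pos (‖u‖ ^ 2 / (2 * κ))
  have h8 : ‖X‖ ^ 2 = (4 * κ / Real.pi) * Real.exp (‖u‖ ^ 2 / (2 * κ)) *
      (Real.pi / (4 * κ) * Real.exp (-(‖u‖ ^ 2 / (2 * κ))) * ‖X‖ ^ 2) := by
    have hpi := Real.pi_pos
    have : (4 * κ / Real.pi) * Real.exp (‖u‖ ^ 2 / (2 * κ)) *
      (Real.pi / (4 * κ) * Real.exp (-(‖u‖ ^ 2 / (2 * κ))) * ‖X‖ ^ 2) =
      ((4 * κ / Real.pi) * (Real.pi / (4 * κ))) *
      (Real.exp (‖u‖ ^ 2 / (2 * κ)) * Real.exp (-(‖u‖ ^ 2 / (2 * κ)))) * ‖X‖ ^ 2 := by ring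
    rw [this, hE]
    field_simp
  rw [h8]
  calc (4 * κ / Real.pi) * Real.exp (‖u‖ ^ 2 / (2 * κ)) *
      (Real.pi / (4 * κ) * Real.exp (-(‖u‖ ^ 2 / (2 * κ))) * ‖X‖ ^ 2)
      ≤ (4 * κ / Real.pi) * Real.exp (‖u‖ ^ 2 / (2 * κ)) * (J * k0) := by gcongr
    _ ≤ (2 * κ) * Real.exp (‖u‖ ^ 2 / (2 * κ)) * (J * k0) := by
        have h9 : 4 * κ / Real.pi ≤ 2 * κ := by
          rw [div_le_iff₀ Real.pi_pos]
          nlinarith [Real.pi_gt_three]
        have h10 : 0 ≤ k0 := integral_nonneg fun y => (kk_pos _ _ _).le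
        gcongr
    _ = 2 * Real.sqrt κ * (Real.sqrt κ * k0) * Real.exp (‖u‖ ^ 2 / (2 * κ)) * J := by
        have : (2 : ℝ) * κ = 2 * (Real.sqrt κ * Real.sqrt κ) := by rw [← sq, hs2]
        rw [this]
        ring
    _ ≤ 2 * Real.sqrt κ * CB (2 * b) * Real.exp (‖u‖ ^ 2 / (2 * κ)) * J := by gcongr

/-- integrated bound for a convolution -/
theorem conv_bound {B b κ : ℝ} (hb : 0 ≤ b) (hκ : 1 ≤ κ) {W : ℝ → ℝ} (hW : IsW B W)
    (Z : Finset ℝ) (a : ℝ → ℝ) :
    Integrable (fun t => W t * ∫ y, KK Z a (2 * κ) (t + y) ^ 2 * kk b κ y) ∧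
    Real.sqrt κ * ∫ t, W t * ∫ y, KK Z a (2 * κ) (t + y) ^ 2 * kk b κ y ≤
      CB (b + B) * En W Z a (2 * κ) := by
  have hκ0 : 0 < κ := by linarith
  have hB := hW.1
  have hs : 0 < Real.sqrt κ := Real.sqrt_pos.2 hκ0
  have hbB : 0 ≤ b + B := by positivity
  set g : ℝ → ℝ := fun t => W t * KK Z a (2 * κ) t ^ 2 with hg
  have gi : Integrable g := by
    have := KK_int Z a (by positivity : 0 < 2 * κ) (hW.eg.mul (EG.KK Z a (by positivity)))
      (hW.cont.mul (KK_cont Z a (2 * κ)))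
    refine this.congr (Eventually.of_forall fun t => ?_)
    simp only [hg]
    ring
  have gc : Continuous g := by
    have := KK_cont Z a (2 * κ)
    have := hW.cont
    fun_prop
  have ki := kk_int (b := b + B) (κ := κ) hbB hκ0
  set L := ContinuousLinearMap.mul ℝ ℝ with hL
  have ci : Integrable (MeasureTheory.convolution (kk (b + B) κ) g L volume) :=
    Integrable.integrable_convolution L ki gi
  have cI := integral_convolution (μ := volume) (ν := volume) L ki gi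
  have gt : ∀ t, Integrable (fun y => g (t + y) * kk (b + B) κ y) := by
    intro t
    have hgt : EG (fun y => g (t + y)) := by
      have h1 : EG g := (hW.eg).mul ((EG.KK Z a (by positivity : 0 ≤ 2 * κ)).pow 2)
      obtain ⟨A, C, hC, h⟩ := h1
      have hA := EG.nn h
      refine ⟨A * Real.exp (C * |t|), C, hC, fun y => (h (t + y)).trans ?_⟩
      rw [mul_assoc, ← Real.exp_add]
      have := abs_add_le t y
      gcongr
      nlinarith
    have := (hgt.mul (eg_expabs (b + B) hbB)).int (by fun_prop) (by positivity : 0 < 2 * κ) 0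
    refine this.congr (Eventually.of_forall fun y => ?_)
    unfold kk
    beta_reduce
    ring
  have hconv : ∀ t, MeasureTheory.convolution (kk (b + B) κ) g L volume t =
      ∫ y, g (t + y) * kk (b + B) κ y := by
    intro t
    rw [MeasureTheory.convolution_def]
    have h1 : ∫ y, L (kk (b + B) κ y) (g (t - y)) = ∫ y, L (kk (b + B) κ (-y)) (g (t - -y)) :=
      (integral_neg_eq_self (fun y => L (kk (b + B) κ y) (g (t - y))) volume).symm
    rw [h1]
    refine integral_congr_ae (Eventually.of_forall fun y => ?_)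
    beta_reduce
    rw [sub_neg_eq_add, hL, ContinuousLinearMap.mul_apply']
    unfold kk
    rw [abs_neg, sub_zero, sub_zero, neg_sq]
    ring
  have hpt : ∀ t, W t * ∫ y, KK Z a (2 * κ) (t + y) ^ 2 * kk b κ y ≤
      ∫ y, g (t + y) * kk (b + B) κ y := by
    intro t
    rw [← integral_const_mul]
    refine integral_mono_of_nonneg (Eventually.of_forall fun y => ?_) (gt t)
      (Eventually.of_forall fun y => ?_)
    · exact mul_nonneg (hW.pos t).le (mul_nonneg (sq_nonneg _) (kk_pos _ _ _).le)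
    · simp only [hg]
      have h1 := hW.slow t (t + y)
      have h2 : |t - (t + y)| = |y| := by rw [sub_add_cancel_left, abs_neg]
      rw [h2] at h1
      have h3 : kk (b + B) κ y = Real.exp (B * |y|) * kk b κ y := by
        unfold kk
        rw [add_mul, Real.exp_add]
        ring
      rw [h3]
      calc W t * (KK Z a (2 * κ) (t + y) ^ 2 * kk b κ y)
          ≤ (W (t + y) * Real.exp (B * |y|)) * (KK Z a (2 * κ) (t + y) ^ 2 * kk b κ y) :=
            mul_le_mul_of_nonneg_right h1 (mul_nonneg (sq_nonneg _) (kk_pos _ _ _).le)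
        _ = _ := by ring
  have hnn : ∀ t, 0 ≤ W t * ∫ y, KK Z a (2 * κ) (t + y) ^ 2 * kk b κ y := fun t =>
    mul_nonneg (hW.pos t).le (integral_nonneg fun y => mul_nonneg (sq_nonneg _) (kk_pos _ _ _).le)
  have ci' : Integrable (fun t => ∫ y, g (t + y) * kk (b + B) κ y) :=
    ci.congr (Eventually.of_forall fun t => hconv t)
  have hKc2 : Continuous (Function.uncurry fun t y : ℝ => KK Z a (2 * κ) (t + y) ^ 2 * kk b κ y) := by
    have h1 := KK_cont Z a (2 * κ)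
    have h2 := kk_cont b κ
    have h3 : Continuous (fun p : ℝ × ℝ => KK Z a (2 * κ) (p.1 + p.2)) :=
      h1.comp (continuous_fst.add continuous_snd)
    have h4 : Continuous (fun p : ℝ × ℝ => kk b κ p.2) := h2.comp continuous_snd
    exact (h3.pow 2).mul h4
  have hmeas : AEStronglyMeasurable (fun t => W t * ∫ y, KK Z a (2 * κ) (t + y) ^ 2 * kk b κ y)
      volume := by
    refine (hW.cont.aestronglyMeasurable).mul ?_
    exact (hKc2.stronglyMeasurable.integral_prod_right).aestronglyMeasurable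
  have hint : Integrable (fun t => W t * ∫ y, KK Z a (2 * κ) (t + y) ^ 2 * kk b κ y) := by
    refine Integrable.mono' ci' hmeas (Eventually.of_forall fun t => ?_)
    rw [Real.norm_eq_abs, abs_of_nonneg (hnn t)]
    exact hpt t
  refine ⟨hint, ?_⟩
  have h1 : ∫ t, W t * ∫ y, KK Z a (2 * κ) (t + y) ^ 2 * kk b κ y ≤
      (∫ y, kk (b + B) κ y) * En W Z a (2 * κ) := by
    refine (integral_mono hint ci' hpt).trans (le_of_eq ?_)
    have h2 : ∫ t, ∫ y, g (t + y) * kk (b + B) κ y =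
        ∫ t, MeasureTheory.convolution (kk (b + B) κ) g L volume t :=
      integral_congr_ae (Eventually.of_forall fun t => (hconv t).symm)
    rw [h2, cI]
    rfl
  have h2 := kk_integral_le hbB hκ
  have h3 : 0 ≤ En W Z a (2 * κ) := En_nonneg (fun t => (hW.pos t).le) Z a _
  calc Real.sqrt κ * ∫ t, W t * ∫ y, KK Z a (2 * κ) (t + y) ^ 2 * kk b κ y
      ≤ Real.sqrt κ * ((∫ y, kk (b + B) κ y) * En W Z a (2 * κ)) := by gcongr
    _ = (Real.sqrt κ * ∫ y, kk (b + B) κ y) * En W Z a (2 * κ) := by ring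
    _ ≤ _ := by gcongr

end Pool.Agent.J6H39.ML
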