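import Pool.Agent.J6H39.ML.Tr

/-! Project ML: transfer from the real Gaussian sums to the sums with the archimedean factor. -/

set_option autoImplicit false

open Complex Filter Topology Set MeasureTheory

namespace Pool.Agent.J6H39.ML

/-- complex Gaussian sums -/
noncomputable def FF (Z : Finset ℝ) (b : ℝ → ℂ) (κ t : ℝ) : ℂ :=
  ∑ γ ∈ Z, b γ * (Real.exp (-(κ * (t - γ) ^ 2)) : ℂ)

theorem FF_cont (Z : Finset ℝ) (b : ℝ → ℂ) (κ : ℝ) : Continuous (FF Z b κ) := by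
  unfold FF; fun_prop

theorem poly_exp (y : ℝ) : y ^ 2 * (1 + |y|) ≤ 2 * Real.exp (y ^ 2) := by
  have h1 := Real.quadratic_le_exp_of_nonneg (sq_nonneg y)
  rw [← sq_abs y] at h1 ⊢
  have h2 := abs_nonneg y
  nlinarith [sq_nonneg (|y| - |y| ^ 2), sq_nonneg (|y| - 1), sq_nonneg (|y|)]

/-- the error term, pointwise -/
theorem err_pt : ∃ κ0 C : ℝ, 4 ≤ κ0 ∧ 0 ≤ C ∧ ∀ κ : ℝ, κ0 ≤ κ → ∀ (Z : Finset ℝ) (a : ℝ → ℝ)
    (Cn : ℝ), 0 ≤ Cn →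
    (∀ t, ∑ γ ∈ Z, Real.exp (-((γ - t) ^ 2 / 16)) ≤ Cn * Real.log (3 + |t|)) → ∀ t : ℝ,
    ‖FF Z (fun γ => ht γ * a γ) κ t - ht t *
      ∑ γ ∈ Z, (a γ : ℂ) * (cexp (I * (γ - t) * La t) * (Real.exp (-(κ * (t - γ) ^ 2)) : ℂ))‖ ^ 2 ≤
      C * Cn * ∑ γ ∈ Z, (‖ht γ‖ ^ 2 * a γ ^ 2) * Real.exp (-(κ / 4 * ((t - γ) ^ 2 + (t - γ) ^ 2))) := by
  obtain ⟨C, hC1, hC⟩ := ht_compare
  have hC0 : 0 ≤ C := by linarith
  refine ⟨2 * C + 4, 8 * C ^ 2, by linarith, by positivity, ?_⟩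
  intro κ hκ Z a Cn hCn hcnt t
  have ht0 := abs_nonneg t
  set q : ℝ → ℝ := fun γ => Real.exp (-(κ / 4 * ((t - γ) ^ 2 + (t - γ) ^ 2))) with hq
  have hq0 : ∀ γ, 0 < q γ := fun γ => Real.exp_pos _
  have h1 : FF Z (fun γ => ht γ * a γ) κ t - ht t *
      ∑ γ ∈ Z, (a γ : ℂ) * (cexp (I * (γ - t) * La t) * (Real.exp (-(κ * (t - γ) ^ 2)) : ℂ)) =
      ∑ γ ∈ Z, ((a γ : ℂ) * (Real.exp (-(κ * (t - γ) ^ 2)) : ℂ)) *
        (ht γ - ht t * cexp (I * (γ - t) * La t)) := by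
    unfold FF
    rw [Finset.mul_sum, ← Finset.sum_sub_distrib]
    refine Finset.sum_congr rfl fun γ _ => ?_
    ring
  rw [h1]
  have h2 : ‖∑ γ ∈ Z, ((a γ : ℂ) * (Real.exp (-(κ * (t - γ) ^ 2)) : ℂ)) *
        (ht γ - ht t * cexp (I * (γ - t) * La t))‖ ≤
      (2 * C / (1 + |t|)) * ∑ γ ∈ Z, (‖ht γ‖ * |a γ|) * q γ := by
    refine (norm_sum_le _ _).trans ?_
    rw [Finset.mul_sum]
    refine Finset.sum_le_sum fun γ _ => ?_
    rw [norm_mul, norm_mul, norm_real, norm_real, Real.norm_eq_abs, Real.norm_eq_abs,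
      abs_of_pos (Real.exp_pos _)]
    have h3 := hC t γ
    have h4 : (γ - t) ^ 2 * (1 + |γ - t|) * (Real.exp (C * (γ - t) ^ 2) *
        Real.exp (-(κ * (t - γ) ^ 2))) ≤ 2 * q γ := by
      have e1 := poly_exp (γ - t)
      have e2 : Real.exp (C * (γ - t) ^ 2) * Real.exp (-(κ * (t - γ) ^ 2)) ≤
          Real.exp (-(γ - t) ^ 2) * q γ := by
        rw [hq, ← Real.exp_add, ← Real.exp_add]
        apply Real.exp_le_exp.2
        have : (t - γ) ^ 2 = (γ - t) ^ 2 := by ring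
        rw [this]
        nlinarith [sq_nonneg (γ - t)]
      calc (γ - t) ^ 2 * (1 + |γ - t|) * (Real.exp (C * (γ - t) ^ 2) *
            Real.exp (-(κ * (t - γ) ^ 2)))
          ≤ (2 * Real.exp ((γ - t) ^ 2)) * (Real.exp (-(γ - t) ^ 2) * q γ) := by gcongr
        _ = 2 * (Real.exp ((γ - t) ^ 2) * Real.exp (-(γ - t) ^ 2)) * q γ := by ring
        _ = 2 * q γ := by
            rw [← Real.exp_add, add_neg_cancel, Real.exp_zero, mul_one]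
    calc |a γ| * Real.exp (-(κ * (t - γ) ^ 2)) * ‖ht γ - ht t * cexp (I * (γ - t) * La t)‖
        ≤ |a γ| * Real.exp (-(κ * (t - γ) ^ 2)) * (‖ht γ‖ *
          (C * (γ - t) ^ 2 * (1 + |γ - t|) / (1 + |t|) * Real.exp (C * (γ - t) ^ 2))) := by gcongr
      _ = (‖ht γ‖ * |a γ|) * (C / (1 + |t|)) * ((γ - t) ^ 2 * (1 + |γ - t|) *
          (Real.exp (C * (γ - t) ^ 2) * Real.exp (-(κ * (t - γ) ^ 2)))) := by ring
      _ ≤ (‖ht γ‖ * |a γ|) * (C / (1 + |t|)) * (2 * q γ) := by gcongr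
      _ = _ := by ring
  -- Cauchy-Schwarz
  have h3 : (∑ γ ∈ Z, (‖ht γ‖ * |a γ|) * q γ) ^ 2 ≤
      (∑ γ ∈ Z, (‖ht γ‖ ^ 2 * a γ ^ 2) * q γ) * ∑ γ ∈ Z, q γ := by
    have := Finset.sum_mul_sq_le_sq_mul_sq Z (fun γ => (‖ht γ‖ * |a γ|) * Real.sqrt (q γ))
      (fun γ => Real.sqrt (q γ))
    have e1 : ∀ γ, (‖ht γ‖ * |a γ|) * Real.sqrt (q γ) * Real.sqrt (q γ) = (‖ht γ‖ * |a γ|) * q γ := by
      intro γ
      rw [mul_assoc, Real.mul_self_sqrt (hq0 γ).le]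
    have e2 : ∀ γ, ((‖ht γ‖ * |a γ|) * Real.sqrt (q γ)) ^ 2 = (‖ht γ‖ ^ 2 * a γ ^ 2) * q γ := by
      intro γ
      rw [mul_pow, mul_pow, sq_abs, Real.sq_sqrt (hq0 γ).le]
    have e3 : ∀ γ, Real.sqrt (q γ) ^ 2 = q γ := fun γ => Real.sq_sqrt (hq0 γ).le
    simp only [e1, e2, e3] at this
    exact this
  have h4 : ∑ γ ∈ Z, q γ ≤ Cn * Real.log (3 + |t|) := by
    refine le_trans (Finset.sum_le_sum fun γ _ => ?_) (hcnt t)
    rw [hq]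
    apply Real.exp_le_exp.2
    have : (t - γ) ^ 2 = (γ - t) ^ 2 := by ring
    rw [this]
    nlinarith [sq_nonneg (γ - t)]
  have h5 : Real.log (3 + |t|) ≤ 2 * (1 + |t|) ^ 2 := by
    have := Real.log_le_sub_one_of_pos (show 0 < 3 + |t| by positivity)
    nlinarith
  have h0 : 0 ≤ ∑ γ ∈ Z, (‖ht γ‖ ^ 2 * a γ ^ 2) * q γ :=
    Finset.sum_nonneg fun γ _ => mul_nonneg (by positivity) (hq0 γ).le
  have h00 : 0 ≤ ∑ γ ∈ Z, (‖ht γ‖ * |a γ|) * q γ :=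
    Finset.sum_nonneg fun γ _ => mul_nonneg (by positivity) (hq0 γ).le
  calc ‖∑ γ ∈ Z, ((a γ : ℂ) * (Real.exp (-(κ * (t - γ) ^ 2)) : ℂ)) *
        (ht γ - ht t * cexp (I * (γ - t) * La t))‖ ^ 2
      ≤ ((2 * C / (1 + |t|)) * ∑ γ ∈ Z, (‖ht γ‖ * |a γ|) * q γ) ^ 2 := by gcongr
    _ = (2 * C / (1 + |t|)) ^ 2 * (∑ γ ∈ Z, (‖ht γ‖ * |a γ|) * q γ) ^ 2 := by ring
    _ ≤ (2 * C / (1 + |t|)) ^ 2 * ((∑ γ ∈ Z, (‖ht γ‖ ^ 2 * a γ ^ 2) * q γ) *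
        (Cn * (2 * (1 + |t|) ^ 2))) := by
        gcongr
        exact h3.trans (mul_le_mul_of_nonneg_left (h4.trans (by gcongr)) h0)
    _ = 8 * C ^ 2 * Cn * ∑ γ ∈ Z, (‖ht γ‖ ^ 2 * a γ ^ 2) * q γ := by
        have : 1 + |t| ≠ 0 := by positivity
        field_simp
        ring

/-- **the transfer inequality** -/
theorem transfer : ∃ D κ0 : ℝ, 0 ≤ D ∧ 4 ≤ κ0 ∧ ∀ B Cn : ℝ, 0 ≤ B → 0 ≤ Cn → ∃ C : ℝ, 0 ≤ C ∧
    ∀ W : ℝ → ℝ, IsW B W → ∀ κ : ℝ, κ0 ≤ κ → ∀ (Z : Finset ℝ) (β : ℝ), 0 ≤ β →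
    (∀ t, ∑ γ ∈ Z, Real.exp (-((γ - t) ^ 2 / 16)) ≤ Cn * Real.log (3 + |t|)) →
    Real.sqrt κ * ∫ t, W t * ‖FF Z (fun γ => ht γ * ca Z β γ) κ t‖ ^ 2 ≤
      C * ∑ γ ∈ Z, (‖ht γ‖ ^ 2 * ca Z β γ ^ 2) * W γ * Vw D (1 / (2 * κ)) γ := by
  obtain ⟨κ0, CE, hκ0, hCE, herr⟩ := err_pt
  obtain ⟨D, hD1, hD⟩ := La_bound
  obtain ⟨Bh, hBh⟩ := isW_ht
  have hD0 : 0 ≤ D := by linarith
  obtain ⟨Bv, hBv⟩ := isW_Vw hD0
  refine ⟨D, κ0, hD0, hκ0, fun B Cn hB hCn => ?_⟩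
  set B1 := B + Bh + 2 * B * Bh with hB1
  set B2 := B1 + Bv + 2 * B1 * Bv with hB2
  have hcb := CB_nonneg
  set c1 := 4 * CB (2 * D) * CB (2 * D + B2) * (Real.exp (B2 / 2) * CB B2) with hc1
  set c2 := 4 * (CE * Cn) * CB B with hc2
  have hc1' : 0 ≤ c1 := by
    have := hcb (2 * D); have := hcb (2 * D + B2); have := hcb B2
    positivity
  have hc2' : 0 ≤ c2 := by
    have := hcb B
    positivity
  refine ⟨c1 + c2, by positivity, ?_⟩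
  intro W hW κ hκ Z β hβ hcnt
  have hκ1 : 1 ≤ κ := by linarith
  have hκp : 0 < κ := by linarith
  set a := ca Z β with ha
  set σ := 1 / (2 * κ) with hσ
  have hσ0 : 0 ≤ σ := by positivity
  have hσ1 : σ ≤ 1 := by
    rw [hσ, div_le_one (by positivity)]; linarith
  -- the big weight
  have hW2 : IsW B2 (fun t => W t * ‖ht t‖ ^ 2 * Vw D σ t) := (hW.mul hBh).mul (hBv σ hσ0 hσ1)
  set W2 : ℝ → ℝ := fun t => W t * ‖ht t‖ ^ 2 * Vw D σ t with hW2def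
  have hs : 0 < Real.sqrt κ := Real.sqrt_pos.2 hκp
  obtain ⟨ci, cb⟩ := conv_bound (b := 2 * D) (by positivity) hκ1 hW2 Z a
  -- pointwise bound
  set M : ℝ → ℝ := fun t => 4 * Real.sqrt κ * CB (2 * D) *
    (W2 t * ∫ y, KK Z a (2 * κ) (t + y) ^ 2 * kk (2 * D) κ y) with hM
  set E : ℝ → ℝ := fun t => ∑ γ ∈ Z, (2 * (CE * Cn) * (‖ht γ‖ ^ 2 * a γ ^ 2)) *
    (W t * Real.exp (-(κ / 4 * ((t - γ) ^ 2 + (t - γ) ^ 2)))) with hE
  have hpt : ∀ t, W t * ‖FF Z (fun γ => ht γ * a γ) κ t‖ ^ 2 ≤ M t + E t := by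
    intro t
    have h1 := herr κ hκ Z a Cn hCn hcnt t
    have h2 := twist_bound Z a hκ1 hD0 (hD t).1 t
    set X := ∑ γ ∈ Z, (a γ : ℂ) * (cexp (I * (γ - t) * La t) *
      (Real.exp (-(κ * (t - γ) ^ 2)) : ℂ)) with hX
    set Y := FF Z (fun γ => ht γ * a γ) κ t with hY
    have h3 : ‖Y‖ ^ 2 ≤ 2 * ‖ht t * X‖ ^ 2 + 2 * ‖Y - ht t * X‖ ^ 2 := by
      have e1 : ‖Y‖ ≤ ‖ht t * X‖ + ‖Y - ht t * X‖ := by
        have := norm_add_le (ht t * X) (Y - ht t * X)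
        rwa [add_sub_cancel] at this
      have e2 := norm_nonneg Y
      have e3 := norm_nonneg (ht t * X)
      have e4 := norm_nonneg (Y - ht t * X)
      nlinarith [sq_nonneg (‖ht t * X‖ - ‖Y - ht t * X‖)]
    have hexp : Real.exp (‖La t‖ ^ 2 / (2 * κ)) ≤ Vw D σ t := by
      unfold Vw
      apply Real.exp_le_exp.2
      rw [hσ, one_div, inv_mul_eq_div]
      have h5 := (hD t).2
      have h6 := norm_nonneg (La t)
      unfold lw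
      gcongr
    have hJ0 : 0 ≤ ∫ y, KK Z a (2 * κ) (t + y) ^ 2 * kk (2 * D) κ y :=
      integral_nonneg fun y => mul_nonneg (sq_nonneg _) (kk_pos _ _ _).le
    have hcb1 := hcb (2 * D)
    have hWt := hW.pos t
    have h4 : W t * (2 * ‖ht t * X‖ ^ 2) ≤ M t := by
      rw [norm_mul, mul_pow]
      calc W t * (2 * (‖ht t‖ ^ 2 * ‖X‖ ^ 2))
          ≤ W t * (2 * (‖ht t‖ ^ 2 * (2 * Real.sqrt κ * CB (2 * D) *
            Real.exp (‖La t‖ ^ 2 / (2 * κ)) *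
            ∫ y, KK Z a (2 * κ) (t + y) ^ 2 * kk (2 * D) κ y))) := by gcongr
        _ ≤ W t * (2 * (‖ht t‖ ^ 2 * (2 * Real.sqrt κ * CB (2 * D) * Vw D σ t *
            ∫ y, KK Z a (2 * κ) (t + y) ^ 2 * kk (2 * D) κ y))) := by gcongr
        _ = M t := by
            rw [hM, hW2def]
            ring
    have h5 : W t * (2 * ‖Y - ht t * X‖ ^ 2) ≤ E t := by
      calc W t * (2 * ‖Y - ht t * X‖ ^ 2) ≤ W t * (2 * (CE * Cn * ∑ γ ∈ Z,
            (‖ht γ‖ ^ 2 * a γ ^ 2) * Real.exp (-(κ / 4 * ((t - γ) ^ 2 + (t - γ) ^ 2))))) := by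
            gcongr
        _ = E t := by
            rw [hE]
            simp only [Finset.mul_sum]
            refine Finset.sum_congr rfl fun γ _ => ?_
            ring
    calc W t * ‖Y‖ ^ 2 ≤ W t * (2 * ‖ht t * X‖ ^ 2 + 2 * ‖Y - ht t * X‖ ^ 2) := by gcongr
      _ = W t * (2 * ‖ht t * X‖ ^ 2) + W t * (2 * ‖Y - ht t * X‖ ^ 2) := by ring
      _ ≤ M t + E t := add_le_add h4 h5
  have hEint : ∀ γ, Integrable (fun t => W t * Real.exp (-(κ / 4 * ((t - γ) ^ 2 + (t - γ) ^ 2)))) :=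
    fun γ => pair_int hW.eg hW.cont γ γ (by positivity)
  have iM : Integrable M := ci.const_mul _
  have iE : Integrable E := integrable_finsetSum _ fun γ _ => (hEint γ).const_mul _
  have hmain : ∫ t, W t * ‖FF Z (fun γ => ht γ * a γ) κ t‖ ^ 2 ≤ (∫ t, M t) + ∫ t, E t := by
    rw [← integral_add iM iE]
    exact integral_mono_of_nonneg (Eventually.of_forall fun t =>
      mul_nonneg (hW.pos t).le (sq_nonneg _)) (iM.add iE) (Eventually.of_forall hpt)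
  -- the main part
  have hbM : Real.sqrt κ * ∫ t, M t ≤ c1 * ∑ γ ∈ Z, (‖ht γ‖ ^ 2 * a γ ^ 2) * W γ * Vw D σ γ := by
    rw [hM, integral_const_mul]
    have hEn := En_bound hW2 Z hβ (κ := 2 * κ) (by linarith)
    rw [← ha] at hEn
    have hsk : Real.sqrt κ ≤ Real.sqrt (2 * κ) := Real.sqrt_le_sqrt (by linarith)
    have hEn0 : 0 ≤ En W2 Z a (2 * κ) := En_nonneg (fun t => (hW2.pos t).le) Z a _
    have hcb1 := hcb (2 * D)
    have hcb2 := hcb (2 * D + B2)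
    calc Real.sqrt κ * (4 * Real.sqrt κ * CB (2 * D) *
          ∫ t, W2 t * ∫ y, KK Z a (2 * κ) (t + y) ^ 2 * kk (2 * D) κ y)
        = 4 * Real.sqrt κ * CB (2 * D) * (Real.sqrt κ *
          ∫ t, W2 t * ∫ y, KK Z a (2 * κ) (t + y) ^ 2 * kk (2 * D) κ y) := by ring
      _ ≤ 4 * Real.sqrt κ * CB (2 * D) * (CB (2 * D + B2) * En W2 Z a (2 * κ)) := by gcongr
      _ = 4 * CB (2 * D) * CB (2 * D + B2) * (Real.sqrt κ * En W2 Z a (2 * κ)) := by ring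
      _ ≤ 4 * CB (2 * D) * CB (2 * D + B2) * (Real.sqrt (2 * κ) * En W2 Z a (2 * κ)) := by
          gcongr
      _ ≤ 4 * CB (2 * D) * CB (2 * D + B2) * (Real.exp (B2 / 2) * CB B2 *
          ∑ γ ∈ Z, a γ ^ 2 * W2 γ) := by gcongr
      _ = _ := by
          have hsum : ∑ γ ∈ Z, a γ ^ 2 * W2 γ =
              ∑ γ ∈ Z, (‖ht γ‖ ^ 2 * a γ ^ 2) * W γ * Vw D σ γ := by
            refine Finset.sum_congr rfl fun γ _ => ?_
            rw [hW2def]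
            ring
          rw [hc1, hsum]
          ring
  have hbE : Real.sqrt κ * ∫ t, E t ≤ c2 * ∑ γ ∈ Z, (‖ht γ‖ ^ 2 * a γ ^ 2) * W γ * Vw D σ γ := by
    rw [hE, integral_finsetSum _ fun γ _ => (hEint γ).const_mul _, Finset.mul_sum,
      Finset.mul_sum]
    refine Finset.sum_le_sum fun γ _ => ?_
    rw [integral_const_mul]
    have h1 := pair_bound hW γ γ (κ := κ / 4) (by linarith)
    have e1 : (γ + γ) / 2 = γ := by ring
    have e2 : Real.sqrt (κ / 4) = Real.sqrt κ / 2 := by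
      have h4 : Real.sqrt 4 = 2 := by
        rw [show (4 : ℝ) = 2 ^ 2 by norm_num]
        exact Real.sqrt_sq (by norm_num)
      rw [Real.sqrt_div hκp.le, h4]
    rw [e1, e2, sub_self] at h1
    norm_num at h1
    have hV := one_le_Vw (C := D) hσ0 γ
    have hWγ := hW.pos γ
    have hcbB := hcb B
    have h2 : Real.sqrt κ * ∫ t, W t * Real.exp (-(κ / 4 * ((t - γ) ^ 2 + (t - γ) ^ 2))) ≤
        2 * (CB B * W γ) := by linarith
    calc Real.sqrt κ * (2 * (CE * Cn) * (‖ht γ‖ ^ 2 * a γ ^ 2) *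
          ∫ t, W t * Real.exp (-(κ / 4 * ((t - γ) ^ 2 + (t - γ) ^ 2))))
        = 2 * (CE * Cn) * (‖ht γ‖ ^ 2 * a γ ^ 2) * (Real.sqrt κ *
          ∫ t, W t * Real.exp (-(κ / 4 * ((t - γ) ^ 2 + (t - γ) ^ 2)))) := by ring
      _ ≤ 2 * (CE * Cn) * (‖ht γ‖ ^ 2 * a γ ^ 2) * (2 * (CB B * W γ)) := by gcongr
      _ = c2 * ((‖ht γ‖ ^ 2 * a γ ^ 2) * W γ * 1) := by rw [hc2]; ring
      _ ≤ c2 * ((‖ht γ‖ ^ 2 * a γ ^ 2) * W γ * Vw D σ γ) := by gcongr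
  calc Real.sqrt κ * ∫ t, W t * ‖FF Z (fun γ => ht γ * a γ) κ t‖ ^ 2
      ≤ Real.sqrt κ * ((∫ t, M t) + ∫ t, E t) := by gcongr
    _ = Real.sqrt κ * (∫ t, M t) + Real.sqrt κ * ∫ t, E t := by ring
    _ ≤ _ := by
        rw [add_mul]
        exact add_le_add hbM hbE

/-! ### Plancherel -/

/-- the almost periodic polynomial -/
noncomputable def PP (Z : Finset ℝ) (b : ℝ → ℂ) (v : ℝ) : ℂ := ∑ γ ∈ Z, b γ * cexp (I * γ * v)

theorem plan_pair {κ : ℝ} (hκ : 0 < κ) (γ δ : ℝ) :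
    (∫ v : ℝ, cexp (I * γ * v) * cexp (-(I * δ * v)) * cexp (-(v ^ 2 / (2 * κ)))) =
      2 * κ * ∫ t : ℝ, (Real.exp (-(κ * (t - γ) ^ 2)) : ℂ) * (Real.exp (-(κ * (t - δ) ^ 2)) : ℂ) := by
  have hκ' : (κ : ℂ) ≠ 0 := by exact_mod_cast hκ.ne'
  have hb1 : (-(1 / (2 * κ) : ℝ) : ℂ).re < 0 := by
    rw [neg_re, ofReal_re]
    have : 0 < 1 / (2 * κ) := by positivity
    linarith
  have hb2 : (-(2 * κ : ℝ) : ℂ).re < 0 := by
    rw [neg_re, ofReal_re]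
    linarith
  have h1 := integral_cexp_quadratic hb1 (I * (γ - δ)) 0
  have h2 := integral_cexp_quadratic hb2 (2 * κ * (γ + δ)) (-(κ * (γ ^ 2 + δ ^ 2)))
  have e1 : ∀ v : ℝ, cexp (I * γ * v) * cexp (-(I * δ * v)) * cexp (-(v ^ 2 / (2 * κ))) =
      cexp (-(1 / (2 * κ) : ℝ) * (v : ℂ) ^ 2 + I * (γ - δ) * v + 0) := by
    intro v
    rw [← Complex.exp_add, ← Complex.exp_add]
    congr 1
    push_cast
    field_simp
    ring
  have e2 : ∀ t : ℝ, (Real.exp (-(κ * (t - γ) ^ 2)) : ℂ) * (Real.exp (-(κ * (t - δ) ^ 2)) : ℂ) =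
      cexp (-(2 * κ : ℝ) * (t : ℂ) ^ 2 + 2 * κ * (γ + δ) * t + -(κ * (γ ^ 2 + δ ^ 2))) := by
    intro t
    rw [ofReal_exp, ofReal_exp, ← Complex.exp_add]
    congr 1
    push_cast
    ring
  simp_rw [e1, e2]
  rw [h1, h2]
  have c1 : ((Real.pi : ℂ) / -(-(1 / (2 * κ) : ℝ) : ℂ)) ^ (1 / 2 : ℂ) =
      ((Real.sqrt (2 * Real.pi * κ) : ℝ) : ℂ) := by
    have : (Real.pi : ℂ) / -(-(1 / (2 * κ) : ℝ) : ℂ) = ((2 * Real.pi * κ : ℝ) : ℂ) := by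
      push_cast
      field_simp
    rw [this, show (1 / 2 : ℂ) = ((1 / 2 : ℝ) : ℂ) by push_cast; rfl,
      ← ofReal_cpow (by positivity), Real.sqrt_eq_rpow]
  have c2 : ((Real.pi : ℂ) / -(-(2 * κ : ℝ) : ℂ)) ^ (1 / 2 : ℂ) =
      ((Real.sqrt (Real.pi / (2 * κ)) : ℝ) : ℂ) := by
    have : (Real.pi : ℂ) / -(-(2 * κ : ℝ) : ℂ) = ((Real.pi / (2 * κ) : ℝ) : ℂ) := by
      push_cast
      field_simp
    rw [this, show (1 / 2 : ℂ) = ((1 / 2 : ℝ) : ℂ) by push_cast; rfl,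
      ← ofReal_cpow (by positivity), Real.sqrt_eq_rpow]
  have c3 : Real.sqrt (2 * Real.pi * κ) = 2 * κ * Real.sqrt (Real.pi / (2 * κ)) := by
    rw [show 2 * Real.pi * κ = (2 * κ) ^ 2 * (Real.pi / (2 * κ)) by field_simp,
      Real.sqrt_mul (by positivity), Real.sqrt_sq (by positivity)]
  rw [c1, c2, c3]
  have c4 : cexp (0 - (I * (γ - δ)) ^ 2 / (4 * -(1 / (2 * κ) : ℝ))) =
      cexp (-(κ * (γ ^ 2 + δ ^ 2)) - (2 * κ * (γ + δ)) ^ 2 / (4 * -(2 * κ : ℝ))) := by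
    congr 1
    push_cast
    field_simp
    rw [I_sq]
    ring
  rw [c4]
  push_cast
  ring

theorem plancherel (Z : Finset ℝ) (b : ℝ → ℂ) {κ : ℝ} (hκ : 0 < κ) :
    Integrable (fun v : ℝ => ‖PP Z b v‖ ^ 2 * Real.exp (-(v ^ 2 / (2 * κ)))) ∧
    ∫ v : ℝ, ‖PP Z b v‖ ^ 2 * Real.exp (-(v ^ 2 / (2 * κ))) = 2 * κ * ∫ t, ‖FF Z b κ t‖ ^ 2 := by
  have hint1 : ∀ γ δ : ℝ, Integrable (fun v : ℝ => cexp (I * γ * v) * cexp (-(I * δ * v)) *
      cexp (-(v ^ 2 / (2 * κ)))) := by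
    intro γ δ
    have hκ' : (κ : ℂ) ≠ 0 := by exact_mod_cast hκ.ne'
    have hb1 : (-(1 / (2 * κ) : ℝ) : ℂ).re < 0 := by
      rw [neg_re, ofReal_re]
      have : 0 < 1 / (2 * κ) := by positivity
      linarith
    refine (integrable_cexp_quadratic' hb1 (I * (γ - δ)) 0).congr (Eventually.of_forall fun v => ?_)
    beta_reduce
    rw [← Complex.exp_add, ← Complex.exp_add]
    congr 1
    push_cast
    field_simp
    ring
  have hint2 : ∀ γ δ : ℝ, Integrable (fun t : ℝ => (Real.exp (-(κ * (t - γ) ^ 2)) : ℂ) *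
      (Real.exp (-(κ * (t - δ) ^ 2)) : ℂ)) := by
    intro γ δ
    have hb2 : (-(2 * κ : ℝ) : ℂ).re < 0 := by
      rw [neg_re, ofReal_re]
      linarith
    refine (integrable_cexp_quadratic' hb2 (2 * κ * (γ + δ)) (-(κ * (γ ^ 2 + δ ^ 2)))).congr
      (Eventually.of_forall fun t => ?_)
    beta_reduce
    rw [ofReal_exp, ofReal_exp, ← Complex.exp_add]
    congr 1
    push_cast
    ring
  have k1 : ∀ v : ℝ, ((‖PP Z b v‖ ^ 2 * Real.exp (-(v ^ 2 / (2 * κ))) : ℝ) : ℂ) =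
      ∑ γ ∈ Z, ∑ δ ∈ Z, (b γ * (starRingEnd ℂ) (b δ)) *
        (cexp (I * γ * v) * cexp (-(I * δ * v)) * cexp (-(v ^ 2 / (2 * κ)))) := by
    intro v
    have h1 : ((‖PP Z b v‖ ^ 2 : ℝ) : ℂ) = PP Z b v * (starRingEnd ℂ) (PP Z b v) := by
      rw [Complex.mul_conj, Complex.normSq_eq_norm_sq]
    rw [ofReal_mul, h1]
    unfold PP
    rw [map_sum, Finset.sum_mul_sum, Finset.sum_mul]
    refine Finset.sum_congr rfl fun γ _ => ?_
    rw [Finset.sum_mul]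
    refine Finset.sum_congr rfl fun δ _ => ?_
    rw [map_mul, ← Complex.exp_conj, map_mul, map_mul, conj_I, conj_ofReal, conj_ofReal,
      ofReal_exp]
    push_cast
    ring_nf
  have k2 : ∀ t : ℝ, ((‖FF Z b κ t‖ ^ 2 : ℝ) : ℂ) =
      ∑ γ ∈ Z, ∑ δ ∈ Z, (b γ * (starRingEnd ℂ) (b δ)) *
        ((Real.exp (-(κ * (t - γ) ^ 2)) : ℂ) * (Real.exp (-(κ * (t - δ) ^ 2)) : ℂ)) := by
    intro t
    have h1 : ((‖FF Z b κ t‖ ^ 2 : ℝ) : ℂ) = FF Z b κ t * (starRingEnd ℂ) (FF Z b κ t) := by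
      rw [Complex.mul_conj, Complex.normSq_eq_norm_sq]
    rw [h1]
    unfold FF
    rw [map_sum, Finset.sum_mul_sum]
    refine Finset.sum_congr rfl fun γ _ => Finset.sum_congr rfl fun δ _ => ?_
    rw [map_mul, conj_ofReal]
    ring
  have i1 : Integrable (fun v : ℝ => ∑ γ ∈ Z, ∑ δ ∈ Z, (b γ * (starRingEnd ℂ) (b δ)) *
        (cexp (I * γ * v) * cexp (-(I * δ * v)) * cexp (-(v ^ 2 / (2 * κ))))) :=
    integrable_finsetSum _ fun γ _ => integrable_finsetSum _ fun δ _ => (hint1 γ δ).const_mul _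
  constructor
  · have h1 := (i1.congr (Eventually.of_forall fun v => (k1 v).symm)).re
    refine h1.congr (Eventually.of_forall fun v => ?_)
    simp only [RCLike.re_to_complex, ofReal_re]
  · have h1 : ((∫ v : ℝ, ‖PP Z b v‖ ^ 2 * Real.exp (-(v ^ 2 / (2 * κ))) : ℝ) : ℂ) =
        ((2 * κ * ∫ t, ‖FF Z b κ t‖ ^ 2 : ℝ) : ℂ) := by
      rw [ofReal_mul, ← integral_complex_ofReal, ← integral_complex_ofReal]
      simp only [k1, k2]
      rw [integral_finsetSum _ fun γ _ => integrable_finsetSum _ fun δ _ => (hint1 γ δ).const_mul _,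
        integral_finsetSum _ fun γ _ => integrable_finsetSum _ fun δ _ => (hint2 γ δ).const_mul _,
        Finset.mul_sum]
      refine Finset.sum_congr rfl fun γ _ => ?_
      rw [integral_finsetSum _ fun δ _ => (hint1 γ δ).const_mul _,
        integral_finsetSum _ fun δ _ => (hint2 γ δ).const_mul _, Finset.mul_sum]
      refine Finset.sum_congr rfl fun δ _ => ?_
      rw [integral_const_mul, integral_const_mul, plan_pair hκ]
      push_cast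
      ring
    exact_mod_cast h1

end Pool.Agent.J6H39.ML
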